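import Pool.Agent.Helper54.R1.Goals2
import Pool.Agent.Helper65.R1.W2

set_option autoImplicit false

/-! # Region R1: numerical facts about `T0`, edges -/

namespace Pool.Agent.Helper54.R1

open Real Pool.Agent.Helper66.Kiss Pool.Agent.Helper65.R1

lemma T0_lo : π / 4 + 1 / 6 ≤ T0 := by
  have hpi := Real.pi_gt_three
  obtain ⟨h1, h2⟩ := T0_bounds
  have h3 : sin (2 * T0 - π / 2) = 1 / 3 := by
    rw [Real.sin_sub_pi_div_two, cos_two_T0]; norm_num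
  have h4 : sin (2 * T0 - π / 2) ≤ 2 * T0 - π / 2 := Real.sin_le (by linarith)
  linarith

lemma T0_hi : T0 ≤ π / 4 + 7 / 40 := by
  have hpi := Real.pi_gt_three
  obtain ⟨h1, h2⟩ := T0_bounds
  have h3 : sin (2 * T0 - π / 2) = 1 / 3 := by
    rw [Real.sin_sub_pi_div_two, cos_two_T0]; norm_num
  by_contra hc
  push Not at hc
  have h5 : sin (35 / 100) < sin (2 * T0 - π / 2) := by
    apply Real.sin_lt_sin_of_lt_of_le_pi_div_two <;> linarith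
  have h6 := Real.sin_gt_sub_cube (x := 35 / 100) (by norm_num)
  rw [h3] at h5
  norm_num at h6
  linarith

lemma T0_num : 952 / 1000 < T0 ∧ T0 < 961 / 1000 := by
  have h1 := T0_lo
  have h2 := T0_hi
  have h3 := Real.pi_gt_d4
  have h4 := Real.pi_lt_d4
  constructor <;> linarith

lemma sin_T0 : sin T0 = √2 / √3 := by
  have h := Real.sin_sq_add_cos_sq T0
  rw [cos_sq_T0] at h
  have hb := T0_bounds
  have hn : 0 ≤ sin T0 :=
    Real.sin_nonneg_of_nonneg_of_le_pi (by linarith [Real.pi_pos]) (by linarith [Real.pi_pos])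
  have h2 : (√2 / √3) ^ 2 = 2 / 3 := by
    rw [div_pow, Real.sq_sqrt (by norm_num), Real.sq_sqrt (by norm_num)]
  refine (sq_eq_sq₀ hn (by positivity)).1 ?_
  linarith

lemma cos_three_T0 (x : ℝ) : cos (x - 3 * T0) + cos (x + T0) = -(2 / 3) * cos (x - T0) := by
  have h1 := Real.cos_add_cos (x - 3 * T0) (x + T0)
  rw [h1]
  have e1 : (x - 3 * T0 + (x + T0)) / 2 = x - T0 := by ring
  have e2 : (x - 3 * T0 - (x + T0)) / 2 = -(2 * T0) := by ring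
  rw [e1, e2, cos_neg, cos_two_T0]; ring

/-- widths from inner products -/
lemma wd_of_gg {z w a b : ℝ} (hz : -1 < z ∧ z ≤ 1 / 2) (hw : -1 < w ∧ w ≤ 1 / 2)
    (h : gg z w a b ≤ 1 / 2) (h0 : 0 ≤ b - a) (h1 : b - a ≤ 2 * π) :
    wd z w ≤ b - a ∧ b - a ≤ 2 * π - wd z w := by
  have e1 := sqrt_pos_of hz
  have e2 := sqrt_pos_of hw
  apply cos_le_iff h0 h1
  rw [le_div_iff₀ (mul_pos e1 e2)]
  unfold gg at h
  rw [← cos_neg, neg_sub] at h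
  linarith

lemma wd_neg (z w : ℝ) : wd (-z) (-w) = wd z w := by
  unfold wd; rw [neg_mul_neg, neg_sq, neg_sq]

section

variable {y ε ε' e e' a b : ℝ}

lemma hz16 {z : ℝ} (h : |z| ≤ 1 / 16) : -1 < z ∧ z ≤ 1 / 2 := by
  have := abs_le.1 h; constructor <;> linarith

lemma hU (h : |ε| ≤ 3 / 256) : -1 < 1 / 2 - ε ∧ 1 / 2 - |ε| ≤ 1 / 2 := by
  have := abs_le.1 h; constructor <;> linarith [abs_nonneg ε]

/-- `F/√2 ≤ x` and scaling -/
lemma scale {F x t : ℝ} (h : t + F / √2 ≤ x) : F ≤ √2 * (x - t) := by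
  have h2 : 0 < √2 := by positivity
  have : F / √2 ≤ x - t := by linarith
  rw [div_le_iff₀ h2] at this
  linarith

lemma edge_U (W1 : W1_stmt) (hy : |y| ≤ 1 / 16) (h0 : 0 ≤ ε) (h : ε ≤ 3 / 256)
    (hg : gg y (1 / 2 - ε) a b ≤ 1 / 2) (hd0 : 0 ≤ b - a) (hd1 : b - a ≤ 2 * π) :
    F1 y ε ≤ √2 * (b - a - T0) ∧ F1 y ε ≤ √2 * (2 * π - (b - a) - T0) := by
  have h1 := wd_of_gg (hz16 hy) ⟨by linarith, by linarith⟩ hg hd0 hd1
  have h2 := W1 y ε hy (abs_le.2 ⟨by linarith, h⟩)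
  exact ⟨scale (h2.trans h1.1), scale (by linarith [h1.2])⟩

lemma edge_L (W1 : W1_stmt) (hy : |y| ≤ 1 / 16) (h : |e| ≤ 3 / 256)
    (hg : gg y (-1 / 2 - e) a b ≤ 1 / 2) (hd0 : 0 ≤ b - a) (hd1 : b - a ≤ 2 * π) :
    F1 (-y) (-e) ≤ √2 * (b - a - T0) ∧ F1 (-y) (-e) ≤ √2 * (2 * π - (b - a) - T0) := by
  have he := abs_le.1 h
  have h1 := wd_of_gg (hz16 hy) ⟨by linarith, by linarith⟩ hg hd0 hd1
  have h2 := W1 (-y) (-e) (by rwa [abs_neg]) (by rwa [abs_neg])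
  have h3 : wd (-y) (1 / 2 - -e) = wd y (-1 / 2 - e) := by
    rw [← wd_neg y]; congr 1; ring
  rw [h3] at h2
  exact ⟨scale (h2.trans h1.1), scale (by linarith [h1.2])⟩

lemma edge_UU (W2 : W2_stmt) (h0 : 0 ≤ ε) (h : ε ≤ 3 / 256) (h0' : 0 ≤ ε') (h' : ε' ≤ 3 / 256)
    (hg : gg (1 / 2 - ε) (1 / 2 - ε') a b ≤ 1 / 2) (hd0 : 0 ≤ b - a) (hd1 : b - a ≤ 2 * π) :
    F2 ε ε' ≤ √2 * (b - a - (π - 2 * T0)) := by
  have h1 := wd_of_gg ⟨by linarith, by linarith⟩ ⟨by linarith, by linarith⟩ hg hd0 hd1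
  have h2 := W2 ε ε' (abs_le.2 ⟨by linarith, h⟩) (abs_le.2 ⟨by linarith, h'⟩)
  exact scale (h2.trans h1.1)

lemma edge_LL (W2 : W2_stmt) (h : |e| ≤ 3 / 256) (h' : |e'| ≤ 3 / 256)
    (hg : gg (-1 / 2 - e) (-1 / 2 - e') a b ≤ 1 / 2) (hd0 : 0 ≤ b - a) (hd1 : b - a ≤ 2 * π) :
    F2 (-e) (-e') ≤ √2 * (b - a - (π - 2 * T0)) := by
  have he := abs_le.1 h
  have he' := abs_le.1 h'
  have h1 := wd_of_gg ⟨by linarith, by linarith⟩ ⟨by linarith, by linarith⟩ hg hd0 hd1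
  have h2 := W2 (-e) (-e') (by rwa [abs_neg]) (by rwa [abs_neg])
  have h3 : wd (1 / 2 - -e) (1 / 2 - -e') = wd (-1 / 2 - e) (-1 / 2 - e') := by
    rw [← wd_neg (-1 / 2 - e)]; congr 1 <;> ring
  rw [h3] at h2
  exact scale (h2.trans h1.1)

end

end Pool.Agent.Helper54.R1
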