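import Pool.Agent.Helper54.R1.Refl

set_option autoImplicit false

/-! # Region R1: the abstract main theorem -/

namespace Pool.Agent.Helper54.R1

open Real Pool.Agent.Helper66.Kiss

/-- all pieces -/
structure Pcs : Prop where
  W1 : W1_stmt
  W2 : W2_stmt
  V : V_stmt
  S2 : S2_stmt
  N3 : NEAR3_stmt
  C1 : C1_stmt
  C2 : C2_stmt
  C3 : C3_stmt
  C4 : C4_stmt
  C6 : C6_stmt
  C7 : C7_stmt
  C8 : C8_stmt
  DF : DF_stmt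
  DH : DH_stmt
  GA : GA_stmt
  GB : GB_stmt
  XF : XF_stmt
  XH : XH_stmt

/-- conclusions on the heights, `y = (y1 - y2)/2` -/
structure Hb (y y1 y2 zs : ℝ) (ε e : Fin 4 → ℝ) : Prop where
  p : |y1 - y| ≤ 11 / 50 * y
  q : |y2 + y| ≤ 11 / 50 * y
  hε : ∀ k, ε k ≤ 27 / 100 * y
  el : ∀ k, -(3 / 25) * y ≤ e k
  eu : ∀ k, e k ≤ 11 / 50 * y
  d : √(1 - zs ^ 2) ≤ 7 / 25 * y
  εq : ∀ k, ε k ≤ 6 * y ^ 2
  pq : y - 4 * y ^ 2 ≤ y1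

/-- the path from an exact state -/
def Ex (y1 y2 zs c s : ℝ) (ε e a b : Fin 4 → ℝ) : Prop :=
  y1 = 0 ∧ y2 = 0 ∧ zs = -1 ∧ ε = 0 ∧ e = 0 ∧ ∃ P Q : Fin 4 → ℝ, ∀ t : ℝ, 0 ≤ t → t ≤ 1 / 16 →
    Fz t (-t) (-1) c s 0 0 (fun k => a k + t * P k) (fun k => b k + t * Q k)

def Concl (y1 y2 zs c s : ℝ) (ε e a b : Fin 4 → ℝ) : Prop :=
  Hb ((y1 - y2) / 2) y1 y2 zs ε e ∧
  (y2 < y1 → ∃ P Q, Dr ((y1 - y2) / 2) y1 y2 zs c s ε e a b P Q) ∧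
  (y1 = y2 → Ex y1 y2 zs c s ε e a b)

lemma Hb.of {y y1 y2 zs : ℝ} {ε e X : Fin 4 → ℝ} (h : Bnd y y1 y2 (√(1 - zs ^ 2)) ε e X)
    (h1 : ∀ k, ε k ≤ 6 * y ^ 2) (h2 : y - 4 * y ^ 2 ≤ y1) : Hb y y1 y2 zs ε e :=
  ⟨h.p, h.q, h.ε, h.el, h.eu, h.d, h1, h2⟩

lemma Hb.refl {y y1 y2 zs : ℝ} {ε e : Fin 4 → ℝ} (h : Hb y y1 y2 zs (rv ε) (rv e)) :
    Hb y y1 y2 zs ε e := by
  have hr : ∀ k : Fin 4, k.rev.rev = k := Fin.rev_rev
  refine ⟨h.p, h.q, fun k => ?_, fun k => ?_, fun k => ?_, h.d, fun k => ?_, h.pq⟩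
  · have := h.hε k.rev; simpa only [rv, hr] using this
  · have := h.el k.rev; simpa only [rv, hr] using this
  · have := h.eu k.rev; simpa only [rv, hr] using this
  · have := h.εq k.rev; simpa only [rv, hr] using this

lemma Ex.refl {y1 y2 zs c s : ℝ} {ε e a b : Fin 4 → ℝ}
    (h : Ex y1 y2 zs (2 * π - c) (-s) (rv ε) (rv e) (rl a) (rl b)) :
    Ex y1 y2 zs c s ε e a b := by
  have hr : ∀ k : Fin 4, k.rev.rev = k := Fin.rev_rev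
  obtain ⟨h1, h2, h3, h4, h5, P, Q, h6⟩ := h
  refine ⟨h1, h2, h3, ?_, ?_, fun k => -rv P k, fun k => -rv Q k, ?_⟩
  · have := congrArg rv h4; rw [rv_rv] at this; rw [this]; rfl
  · have := congrArg rv h5; rw [rv_rv] at this; rw [this]; rfl
  · intro t h0 h16
    have := (h6 t h0 h16).refl
    have e1 : rl (fun k => rl a k + t * P k) = fun k => a k + t * -rv P k := by
      funext k; simp only [rl, rv, hr]; ring
    have e2 : rl (fun k => rl b k + t * Q k) = fun k => b k + t * -rv Q k := by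
      funext k; simp only [rl, rv, hr]; ring
    have e3 : 2 * π - (2 * π - c) = c := by ring
    have e4 : rv (0 : Fin 4 → ℝ) = 0 := rfl
    rw [e1, e2, e3, neg_neg, e4] at this
    exact this

lemma Concl.refl {y1 y2 zs c s : ℝ} {ε e a b : Fin 4 → ℝ}
    (h : Concl y1 y2 zs (2 * π - c) (-s) (rv ε) (rv e) (rl a) (rl b)) :
    Concl y1 y2 zs c s ε e a b := by
  obtain ⟨h1, h2, h3⟩ := h
  refine ⟨h1.refl, fun h => ?_, fun h => (h3 h).refl⟩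
  obtain ⟨P, Q, hD⟩ := h2 h
  exact ⟨_, _, hD.refl⟩

theorem abs_F (K : Pcs) {y1 y2 zs c s : ℝ} {ε e a b : Fin 4 → ℝ}
    (hF : Fz y1 y2 zs c s ε e a b) (hB : Bx y1 y2 zs c ε e a b)
    (ha1 : a 1 ≤ c) (ha2 : c ≤ a 2) (hb1 : b 1 ≤ c) (hb2 : c ≤ b 2) :
    Concl y1 y2 zs c s ε e a b := by
  obtain ⟨h1, h2, h3, h4, h5, h6⟩ := ordF K.W1 K.W2 K.V K.S2 K.N3 hF hB ha1 ha2 hb1 hb2
  refine ⟨Hb.of h3 h4 h5, fun h => ⟨_, _, K.DF K.C1 K.C2 K.C3 K.C4 K.C6 K.C7 K.C8 _ _ _ _ _ _ _ _ _ _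
    hB h1 h2 h3 (by linarith)⟩, fun h => ?_⟩
  obtain ⟨x1, x2, x3, x4, x5, x6, x7, x8⟩ := h6 h
  refine ⟨x1, x2, x3, x4, x5, fun k => sF k / √2, fun k => -(sF k / √2), fun t h0 h16 => ?_⟩
  have := K.XF K.GA K.GB s t h0 h16
  rw [x6, x7, x8]
  have e1 : (fun k => AF k - t * (sF k / √2)) = fun k => AF k + t * -(sF k / √2) := by
    funext k; ring
  rw [e1] at this
  exact this

theorem abs_H (K : Pcs) {y1 y2 zs c s : ℝ} {ε e a b : Fin 4 → ℝ}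
    (hF : Fz y1 y2 zs c s ε e a b) (hB : Bx y1 y2 zs c ε e a b)
    (ha0 : a 0 ≤ c) (ha1 : c ≤ a 1) (hb0 : b 0 ≤ c) (hb1 : c ≤ b 1) :
    Concl y1 y2 zs c s ε e a b := by
  obtain ⟨h1, h2, h3, h4, h5, h6⟩ := ordH K.W1 K.W2 K.V K.S2 K.N3 hF hB ha0 ha1 hb0 hb1
  refine ⟨Hb.of h3 h4 h5, fun h => ⟨_, _, K.DH K.C1 K.C2 K.C3 K.C4 K.C6 K.C7 K.C8 _ _ _ _ _ _ _ _ _ _
    hB h1 h2 h3 (by linarith)⟩, fun h => ?_⟩
  obtain ⟨x1, x2, x3, x4, x5, x6, x7, x8⟩ := h6 h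
  refine ⟨x1, x2, x3, x4, x5, fun k => sH k / √2, fun k => -(sH k / √2), fun t h0 h16 => ?_⟩
  have := K.XH K.GA K.GB s t h0 h16
  rw [x6, x7, x8]
  have e1 : (fun k => AH k - t * (sH k / √2)) = fun k => AH k + t * -(sH k / √2) := by
    funext k; ring
  rw [e1] at this
  exact this

/-- **Abstract main theorem.** -/
theorem abs_main (K : Pcs) {y1 y2 zs c s : ℝ} {ε e a b : Fin 4 → ℝ}
    (hF : Fz y1 y2 zs c s ε e a b) (hB : Bx y1 y2 zs c ε e a b) :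
    Concl y1 y2 zs c s ε e a b := by
  rcases cls K.W1 K.W2 hF hB with ⟨h1, h2, h3, h4⟩ | ⟨h1, h2, h3, h4⟩ | ⟨h1, h2, h3, h4⟩
  · exact abs_F K hF hB h1 h2 h3 h4
  · exact abs_H K hF hB h1 h2 h3 h4
  · apply Concl.refl
    have r0 : (0 : Fin 4).rev = 3 := rfl
    have r1 : (1 : Fin 4).rev = 2 := rfl
    apply abs_H K hF.refl hB.refl <;> simp only [rl, r0, r1] <;> linarith

end Pool.Agent.Helper54.R1
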