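import Pool.Agent.Helper54.R1.Abs
import Pool.Agent.Helper54.R1.S2
import Pool.Agent.Helper69.R1.W1
import Pool.Agent.Helper65.R1.W2
import Pool.Agent.Helper61.R1.V
import Pool.Agent.Helper83.R1.NEAR3
import Pool.Agent.Helper31.R1.C1
import Pool.Agent.Helper28.R1.C2
import Pool.Agent.Helper28.R1.C6
import Pool.Agent.Helper28.R1.C7
import Pool.Agent.Helper28.R1.C8
import Pool.Agent.Helper15.R1.C4
import Pool.Agent.Helper19.R1.DF
import Pool.Agent.Helper31.R1.DH
import Pool.Agent.Helper5.R1.GA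
import Pool.Agent.Helper93.R1.XF
import Pool.Agent.Helper42.R1.XH

set_option autoImplicit false

/-! # Region R1: all pieces together -/

namespace Pool.Agent.Helper54.R1

theorem pcs : Pcs where
  W1 := Pool.Agent.Helper69.R1.w1
  W2 := Pool.Agent.Helper65.R1.w2
  V := Pool.Agent.Helper61.R1.v
  S2 := s2
  N3 := Pool.Agent.Helper83.R1.near3
  C1 := Pool.Agent.Helper31.R1.c1
  C2 := Pool.Agent.Helper28.R1.c2
  C3 := Pool.Agent.Helper28.R1.c3
  C4 := Pool.Agent.Helper15.R1.c4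
  C6 := Pool.Agent.Helper28.R1.c6
  C7 := Pool.Agent.Helper28.R1.c7
  C8 := Pool.Agent.Helper28.R1.c8
  DF := Pool.Agent.Helper19.R1.df
  DH := Pool.Agent.Helper31.R1.dh
  GA := Pool.Agent.Helper5.R1.ga
  GB := Pool.Agent.Helper5.R1.gb
  XF := Pool.Agent.Helper93.R1.xf
  XH := Pool.Agent.Helper42.R1.xh

end Pool.Agent.Helper54.R1
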