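import Pool.Agent.Helper66.Kiss.Pin

set_option autoImplicit false

/-! # The FCC/HCP neighbourhood (region R1) of the twelve spheres problem: definitions

North pole pinned, eleven other points with heights `z` and longitudes `θ`.  Roles of the indices:
`0 = p`, `1..4 = U_1..U_4` (near the height `1/2`), `5 = q`, `6..9 = L_1..L_4` (near `-1/2`),
`10 = S'`.  All longitude deviations are multiplied by `√2`. -/

namespace Pool.Agent.Helper54.R1

open Real Pool.Agent.Helper66.Kiss

/-- `arccos (1/√3)`, the width between a point at height `0` and one at height `1/2` -/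
noncomputable def T0 : ℝ := arccos (1 / √3)

/-- lower bound for `√2 (wd z (1/2 - ε) - T0)` -/
noncomputable def F1 (z ε : ℝ) : ℝ := z + 2 / 3 * ε - 17 / 20 * z ^ 2 - 23 / 100 * |ε|

/-- lower bound for `√2 (wd (1/2 - ε) (1/2 - ε') - (π - 2 T0))` -/
noncomputable def F2 (ε ε' : ℝ) : ℝ := -(2 / 3) * (ε + ε') - 1 / 40 * (|ε| + |ε'|)

end Pool.Agent.Helper54.R1
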