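import Pool.Agent.Helper54.R1.Main

set_option autoImplicit false

/-! # Region R1: uniform gain at the exact FCC and HCP states -/

namespace Pool.Agent.Helper54.R1

open Real Set Filter Topology Pool.Agent.Helper66.Kiss

/-- from a state of the box with `0 < y ≤ 17/1000` to one with `17/1000 < y ≤ 18/1000` -/
theorem push (K : Pcs) {x η : Fin 11 → ℝ} (hF : Fe x η) (ρ : Equiv.Perm (Fin 11))
    (hB : Box (x ∘ ρ)) (hy : x (ρ 5) < x (ρ 0)) (hy2 : x (ρ 0) - x (ρ 5) ≤ 34 / 1000) :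
    ∃ x' η', Fe x' η' ∧ Box (x' ∘ ρ) ∧ x' (ρ 10) = x (ρ 10) ∧ 34 / 1000 < x' (ρ 0) - x' (ρ 5) ∧
      x' (ρ 0) - x' (ρ 5) ≤ 36 / 1000 ∧ JoinedIn Conf (pinN x η) (pinN x' η') := by
  obtain ⟨ys, hys⟩ : ∃ ys, ys = x (ρ 0) - x (ρ 5) := ⟨_, rfl⟩
  have hys0 : 0 < ys := by linarith
  set R : Set (Fin 11 → ℝ) := {w | Box (w ∘ ρ)} ∩ {w | w (ρ 10) = x (ρ 10)} ∩
    {w | ys ≤ w (ρ 0) - w (ρ 5)} ∩ {w | w (ρ 0) - w (ρ 5) ≤ 36 / 1000} with hR
  have hRc : IsClosed R := by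
    refine (((isClosed_box ρ).inter (isClosed_eq (by fun_prop) continuous_const)).inter
      (isClosed_le continuous_const (by fun_prop))).inter (isClosed_le (by fun_prop) continuous_const)
  set T : Set HL := {s | 34 / 1000 < s.1 (ρ 0) - s.1 (ρ 5)} with hT
  have hTo : IsOpen T := isOpen_lt continuous_const (by fun_prop)
  have hxR : x ∈ R := ⟨⟨⟨hB, rfl⟩, by rw [mem_ofPred_eq, hys]⟩, by
    show x (ρ 0) - x (ρ 5) ≤ 36 / 1000
    linarith⟩
  obtain ⟨x', η', h1, h2, h3, h4⟩ := pinned_ascent (R := R) hRc (T := T) hTo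
    (Φ := fun w => w (ρ 0) - w (ρ 5)) (by fun_prop) (by
    intro w φ hFw hwR hwT
    obtain ⟨⟨⟨hBw, hw10⟩, hwy⟩, hwy'⟩ := hwR
    have hw34 : w (ρ 0) - w (ρ 5) ≤ 34 / 1000 := not_lt.1 hwT
    have hw0 : ys ≤ w (ρ 0) - w (ρ 5) := hwy
    have hw : w (ρ 5) < w (ρ 0) := by linarith
    obtain ⟨y, hyd⟩ : ∃ y, y = (w (ρ 0) - w (ρ 5)) / 2 := ⟨_, rfl⟩
    obtain ⟨ψ, hψ⟩ := dir_of K hFw ρ hBw hw
    rw [← hyd] at hψ
    have hH := (lab_main K (fe_comp hFw ρ) hBw).hb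
    have hp := abs_le.1 hH.p
    have hq := abs_le.1 hH.q
    have hL1 := hH.L1
    have hL2 := hH.L2
    simp only [Function.comp] at hp hq hL1 hL2
    rw [← hyd] at hp hq hL1 hL2
    refine ⟨fun _ => vel ρ y, 2, by norm_num, fun k => contDiffAt_const,
      pole_of (fun k => (hFw.1 k).1) hBw y, ?_, ?_, ⟨ψ, hψ⟩⟩
    · filter_upwards [ev_close (vel ρ y) w (r := 1 / 1000) (by norm_num)] with p hp' hpR hb h0
      have m : ∀ i, -(1 / 1000) < mv (fun _ => vel ρ y) p.1 p.2 i - w i ∧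
        mv (fun _ => vel ρ y) p.1 p.2 i - w i < 1 / 1000 := fun i => abs_lt.1 (hp' i).2
      obtain ⟨⟨⟨hBp, hp10⟩, hpy⟩, hpy'⟩ := hpR
      have hpy1 : ys ≤ p.1 (ρ 0) - p.1 (ρ 5) := hpy
      have b1 := m (ρ 0)
      have b2 := m (ρ 5)
      refine ⟨⟨⟨⟨⟨?_, ?_, ?_, ?_, ?_, ?_⟩, ?_⟩, ?_⟩, ?_⟩, ?_⟩
      · show |mv (fun _ => vel ρ y) p.1 p.2 (ρ 0)| ≤ 1 / 16
        exact abs_le.2 ⟨by linarith, by linarith⟩
      · show |mv (fun _ => vel ρ y) p.1 p.2 (ρ 5)| ≤ 1 / 16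
        exact abs_le.2 ⟨by linarith, by linarith⟩
      · show mv (fun _ => vel ρ y) p.1 p.2 (ρ 5) ≤ mv (fun _ => vel ρ y) p.1 p.2 (ρ 0)
        rw [mv_0, mv_5]
        linarith
      · intro k
        show 1 / 2 - 3 / 256 ≤ mv (fun _ => vel ρ y) p.1 p.2 (ρ (iU k))
        rw [mv_U]; exact hBp.U k
      · intro k
        show |mv (fun _ => vel ρ y) p.1 p.2 (ρ (iL k)) + 1 / 2| ≤ 3 / 256
        have b3 := m (ρ (iL k))
        exact abs_le.2 ⟨by linarith [hL1 k, hL2 k], by linarith [hL1 k, hL2 k]⟩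
      · show mv (fun _ => vel ρ y) p.1 p.2 (ρ 10) ≤ -15 / 16
        rw [mv_10]; exact hBp.S
      · show mv (fun _ => vel ρ y) p.1 p.2 (ρ 10) = x (ρ 10)
        rw [mv_10]; exact hp10
      · show ys ≤ mv (fun _ => vel ρ y) p.1 p.2 (ρ 0) - mv (fun _ => vel ρ y) p.1 p.2 (ρ 5)
        rw [mv_0, mv_5]; linarith
      · show mv (fun _ => vel ρ y) p.1 p.2 (ρ 0) - mv (fun _ => vel ρ y) p.1 p.2 (ρ 5) ≤ 36 / 1000
        linarith
      · intro k
        rcases casesρ ρ k with rfl | rfl | rfl | ⟨k, rfl⟩ | ⟨k, rfl⟩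
        · constructor <;> linarith
        · constructor <;> linarith
        · rw [mv_10]; exact hb _
        · rw [mv_U]; exact hb _
        · have b3 := m (ρ (iL k))
          constructor <;> linarith [hL1 k, hL2 k]
    · refine Eventually.of_forall fun p _ _ h0 => ?_
      show p.1 (ρ 0) - p.1 (ρ 5) + 2 * p.2 ≤ mv (fun _ => vel ρ y) p.1 p.2 (ρ 0) -
        mv (fun _ => vel ρ y) p.1 p.2 (ρ 5)
      rw [mv_0, mv_5]; linarith) x η hF hxR
  obtain ⟨⟨⟨g1, g2⟩, g3⟩, g4⟩ := h2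
  exact ⟨x', η', h1, g1, g2, h3, g4, h4⟩

/-- states near an exact state -/
theorem near_exact (K : Pcs) {R : Set (Fin 11 → ℝ)} {Φ : (Fin 11 → ℝ) → ℝ} (A : Adm R Φ)
    {x η : Fin 11 → ℝ} (hF : Fe x η) (hxR : x ∈ R) (ρ : Equiv.Perm (Fin 11))
    (h0 : |x (ρ 0)| ≤ 1 / 1000) (h5 : |x (ρ 5)| ≤ 1 / 1000) (hle : x (ρ 5) ≤ x (ρ 0))
    (hU : ∀ k, 1 / 2 - 1 / 1000 ≤ x (ρ (iU k))) (hL : ∀ k, |x (ρ (iL k)) + 1 / 2| ≤ 1 / 1000)
    (hS : x (ρ 10) ≤ -1 + 1 / 1000) :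
    ∃ x' η', Fe x' η' ∧ x' ∈ R ∧ JoinedIn Conf (pinN x η) (pinN x' η') ∧ Φ x + 1 / 200 ≤ Φ x' := by
  have hB : Box (x ∘ ρ) := ⟨h0.trans (by norm_num), h5.trans (by norm_num), hle,
    fun k => le_trans (by norm_num) (hU k), fun k => (hL k).trans (by norm_num),
    hS.trans (by norm_num)⟩
  have a0 := abs_le.1 h0
  have a5 := abs_le.1 h5
  have Φx : Φ x = x (ρ 0) + ∑ k, x (ρ (iU k)) := by
    apply A.Φeq ρ x
    · intro k; linarith [hU k]
    · exact hle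
    · intro k; linarith [(abs_le.1 (hL k)).2]
    · linarith
  have hne : ∀ j, j ≠ ρ 10 → -3 / 4 ≤ x j := by
    intro j hj
    rcases casesρ ρ j with rfl | rfl | rfl | ⟨k, rfl⟩ | ⟨k, rfl⟩
    · linarith
    · linarith
    · exact absurd rfl hj
    · linarith [hU k]
    · linarith [(abs_le.1 (hL k)).1]
  rcases hle.lt_or_eq with hlt | heq
  · -- y > 0
    obtain ⟨x', η', f1, f2, f3, f4, f5, f6⟩ := push K hF ρ hB hlt (by linarith)
    obtain ⟨b1, b2, b3, b4, b5, b6⟩ := box_facts f2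
    have c1 := abs_le.1 b1
    have hH := (lab_main K (fe_comp f1 ρ) f2).hb
    have hUq := hH.Uq
    have hpq := hH.pq
    simp only [Function.comp] at hUq hpq
    obtain ⟨y, hyd⟩ : ∃ y, y = (x' (ρ 0) - x' (ρ 5)) / 2 := ⟨_, rfl⟩
    rw [← hyd] at hUq hpq
    have hy1 : 17 / 1000 < y := by linarith
    have hy2 : y ≤ 18 / 1000 := by linarith
    have hyy : y ^ 2 ≤ (18 / 1000) ^ 2 := by
      apply pow_le_pow_left₀ (by linarith) hy2
    have Φx' : Φ x' = x' (ρ 0) + ∑ k, x' (ρ (iU k)) := by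
      apply A.Φeq ρ x'
      · intro k; linarith [b4 k]
      · exact b3
      · intro k; linarith [(abs_le.1 (b5 k)).2]
      · linarith
    have hs : Φ x + 1 / 200 ≤ Φ x' := by
      rw [Φx, Φx', Fin.sum_univ_four, Fin.sum_univ_four]
      have u0 := hUq 0
      have u1 := hUq 1
      have u2 := hUq 2
      have u3 := hUq 3
      have v0 := (hF.1 (ρ (iU 0))).2
      have v1 := (hF.1 (ρ (iU 1))).2
      have v2 := (hF.1 (ρ (iU 2))).2
      have v3 := (hF.1 (ρ (iU 3))).2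
      linarith
    refine ⟨x', η', f1, ?_, f6, hs⟩
    refine A.Rst (ρ 10) x x' hxR (by linarith) f3 hne ?_ f1.1 (by linarith)
    intro j hj
    rcases casesρ ρ j with rfl | rfl | rfl | ⟨k, rfl⟩ | ⟨k, rfl⟩
    · linarith
    · linarith [(abs_le.1 b2).1]
    · exact absurd rfl hj
    · linarith [b4 k]
    · linarith [(abs_le.1 (b5 k)).1]
  · -- exact state
    obtain ⟨x0, x5, x10, xU, xL, ψ, hψ⟩ := (lab_main K (fe_comp hF ρ) hB).ex heq.symm
    simp only [Function.comp] at x0 x5 x10 xU xL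
    have hfe : ∀ t : ℝ, 0 ≤ t → t ≤ 1 / 16 → Fe (mv (fun _ => vel ρ 0) x t)
        (fun i => η i + t * ψ (ρ.symm i)) := by
      intro t ht0 ht1
      have := fe_comp (hψ t ht0 ht1) ρ.symm
      have e1 : (fun i => (x ∘ ρ) i + t * vv 0 i) ∘ ρ.symm = mv (fun _ => vel ρ 0) x t := by
        funext i; simp [mv, vel]
      have e2 : (fun i => (η ∘ ρ) i + t * ψ i) ∘ ρ.symm = fun i => η i + t * ψ (ρ.symm i) := by
        funext i; simp
      rwa [e1, e2] at this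
    have hf1 := hfe (1 / 100) (by norm_num) (by norm_num)
    have Φx' : Φ (mv (fun _ => vel ρ 0) x (1 / 100)) = x (ρ 0) + 1 / 100 + ∑ k, x (ρ (iU k)) := by
      have mL : ∀ k, mv (fun _ => vel ρ 0) x (1 / 100) (ρ (iL k)) = -1 / 2 := by
        intro k
        show x (ρ (iL k)) + 1 / 100 * vel ρ 0 (ρ (iL k)) = _
        rw [vel_ρ, vv_L, xL]; ring
      rw [A.Φeq ρ]
      · rw [mv_0]; simp only [mv_U]
      · intro k; rw [mv_0, mv_U, xU, x0]; norm_num
      · rw [mv_0, mv_5, x0, x5]; norm_num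
      · intro k; rw [mv_0, mL, x0]; norm_num
      · rw [mv_0, mv_10, x0, x10]; norm_num
    have hs : Φ x + 1 / 200 ≤ Φ (mv (fun _ => vel ρ 0) x (1 / 100)) := by
      rw [Φx, Φx']; linarith
    refine ⟨mv (fun _ => vel ρ 0) x (1 / 100), fun i => η i + 1 / 100 * ψ (ρ.symm i), hf1, ?_, ?_, hs⟩
    · refine A.Rst (ρ 10) x _ hxR (by linarith) (mv_10 _ _ _ _) hne ?_ hf1.1 (by linarith)
      intro j hj
      rcases casesρ ρ j with rfl | rfl | rfl | ⟨k, rfl⟩ | ⟨k, rfl⟩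
      · rw [mv_0, x0]; norm_num
      · rw [mv_5, x5]; norm_num
      · exact absurd rfl hj
      · rw [mv_U, xU]; norm_num
      · show -3 / 4 ≤ x (ρ (iL k)) + 1 / 100 * vel ρ 0 (ρ (iL k))
        rw [vel_ρ, vv_L, xL]; norm_num
    · have hj := joined_of_seg (f := fun t => pinN (mv (fun _ => vel ρ 0) x t)
        (fun k => η k + t * ψ (ρ.symm k))) 0 (1 / 100)
        (Continuous.continuousOn (continuous_pinN (fun k => by unfold mv; fun_prop)
          (fun k => by fun_prop))) (by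
          intro t ht
          rw [uIcc_of_le (by norm_num)] at ht
          exact pinN_mem (hfe t ht.1 (ht.2.trans (by norm_num))))
      have e0 : pinN (mv (fun _ => vel ρ 0) x 0) (fun k => η k + 0 * ψ (ρ.symm k)) = pinN x η := by
        congr 1
        · funext k; simp [mv]
        · funext k; simp
      rwa [e0] at hj

/-- **Gain at every state of R1** -/
theorem r1_gain (K : Pcs) {R : Set (Fin 11 → ℝ)} {Φ : (Fin 11 → ℝ) → ℝ} (A : Adm R Φ)
    {z φ : Fin 11 → ℝ} (hF : Fe z φ) (ρ : Equiv.Perm (Fin 11)) (hB : Box (z ∘ ρ)) :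
    Gain R Φ z φ := by
  rcases hB.pq.lt_or_eq with hlt | heq
  · exact gain_pos K A hF ρ hB hlt
  obtain ⟨x0, x5, x10, xU, xL, -⟩ := (lab_main K (fe_comp hF ρ) hB).ex heq.symm
  simp only [Function.comp] at x0 x5 x10 xU xL
  have hU : {s : HL | ∀ i, |s.1 i - z i| < 1 / 1000} ∈ 𝓝 (z, φ) := by
    have : ∀ᶠ s : HL in 𝓝 (z, φ), ∀ i, |s.1 i - z i| < 1 / 1000 := by
      rw [eventually_all]
      intro i
      have h1 : ContinuousAt (fun s : HL => |s.1 i - z i|) (z, φ) := by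
        apply Continuous.continuousAt; fun_prop
      exact h1.eventually (gt_mem_nhds (show |z i - z i| < 1 / 1000 by simp))
    exact this
  refine ⟨_, hU, 1 / 200, by norm_num, ?_⟩
  intro y η hyU hyF hyR
  have c : ∀ i, -(1 / 1000) < y i - z i ∧ y i - z i < 1 / 1000 := fun i => abs_lt.1 (hyU i)
  have g0 : |y (ρ 0)| ≤ 1 / 1000 := by
    have := c (ρ 0); rw [x0] at this
    exact abs_le.2 ⟨by linarith, by linarith⟩
  have g5 : |y (ρ 5)| ≤ 1 / 1000 := by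
    have := c (ρ 5); rw [x5] at this
    exact abs_le.2 ⟨by linarith, by linarith⟩
  have gU : ∀ k, 1 / 2 - 1 / 1000 ≤ y (ρ (iU k)) := fun k => by
    have := c (ρ (iU k)); rw [xU] at this; linarith
  have gL : ∀ k, |y (ρ (iL k)) + 1 / 2| ≤ 1 / 1000 := fun k => by
    have := c (ρ (iL k)); rw [xL] at this
    exact abs_le.2 ⟨by linarith, by linarith⟩
  have gS : y (ρ 10) ≤ -1 + 1 / 1000 := by
    have := c (ρ 10); rw [x10] at this; linarith
  rcases le_total (y (ρ 5)) (y (ρ 0)) with h | h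
  · exact near_exact K A hyF hyR ρ g0 g5 h gU gL gS
  · have e0 : ((Equiv.swap (0 : Fin 11) 5).trans ρ) 0 = ρ 5 := by simp
    have e5 : ((Equiv.swap (0 : Fin 11) 5).trans ρ) 5 = ρ 0 := by simp
    have eU : ∀ k, ((Equiv.swap (0 : Fin 11) 5).trans ρ) (iU k) = ρ (iU k) := by
      intro k
      rw [Equiv.trans_apply]
      congr 1
      revert k; decide
    have eL : ∀ k, ((Equiv.swap (0 : Fin 11) 5).trans ρ) (iL k) = ρ (iL k) := by
      intro k
      rw [Equiv.trans_apply]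
      congr 1
      revert k; decide
    have e10 : ((Equiv.swap (0 : Fin 11) 5).trans ρ) 10 = ρ 10 := by
      rw [Equiv.trans_apply]; congr 1
    refine near_exact K A hyF hyR ((Equiv.swap (0 : Fin 11) 5).trans ρ) ?_ ?_ ?_ ?_ ?_ ?_
    · rw [e0]; exact g5
    · rw [e5]; exact g0
    · rw [e0, e5]; exact h
    · intro k; rw [eU]; exact gU k
    · intro k; rw [eL]; exact gL k
    · rw [e10]; exact gS

end Pool.Agent.Helper54.R1
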