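import Pool.Agent.Helper54.R1.All
import Pool.Agent.Helper54.R1.Zero

set_option autoImplicit false

/-! # Region R1: final statement -/

namespace Pool.Agent.Helper54.R1

open Real Pool.Agent.Helper66.Kiss

/-- **R1.** Uniform gain at every feasible state of the box R1 (any order, FCC and HCP included). -/
theorem r1 {R : Set (Fin 11 → ℝ)} {Φ : (Fin 11 → ℝ) → ℝ} (A : Adm R Φ)
    {z φ : Fin 11 → ℝ} (hF : Fe z φ) (ρ : Equiv.Perm (Fin 11)) (hB : Box (z ∘ ρ)) :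
    Gain R Φ z φ := r1_gain pcs A hF ρ hB

/-- a strictly opening direction at every state of the box with `y > 0` -/
theorem r1_dir {z φ : Fin 11 → ℝ} (hF : Fe z φ) (ρ : Equiv.Perm (Fin 11)) (hB : Box (z ∘ ρ))
    (hy : z (ρ 5) < z (ρ 0)) : ∃ ψ : Fin 11 → ℝ, ∀ i j, i ≠ j →
      gg (z i) (z j) (φ i) (φ j) = 1 / 2 →
      nr (z i) (z j) (vel ρ ((z (ρ 0) - z (ρ 5)) / 2) i) (vel ρ ((z (ρ 0) - z (ρ 5)) / 2) j) -
        √(1 - z i ^ 2) * √(1 - z j ^ 2) * Real.sin (φ i - φ j) * (ψ i - ψ j) < 0 :=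
  dir_of pcs hF ρ hB hy

end Pool.Agent.Helper54.R1
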