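import Pool.Agent.Helper54.R1.Defs

set_option autoImplicit false

/-! # Region R1: linear estimates and the bootstrapping of the deviations -/

namespace Pool.Agent.Helper54.R1

open Real

/-- scaled edge inequalities in the FCC order -/
structure EdgeF (y1 y2 : ℝ) (ε e u l : Fin 4 → ℝ) (q : ℝ) : Prop where
  uA1 : F1 y1 (ε 0) ≤ u 0
  uA2 : F2 (ε 0) (ε 1) ≤ u 1 - u 0
  uA3 : F1 y2 (ε 1) ≤ q - u 1
  uB1 : F1 y2 (ε 2) ≤ u 2 - q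
  uB2 : F2 (ε 2) (ε 3) ≤ u 3 - u 2
  uB3 : F1 y1 (ε 3) ≤ -u 3
  lA1 : F1 (-y1) (-e 0) ≤ l 0
  lA2 : F2 (-e 0) (-e 1) ≤ l 1 - l 0
  lA3 : F1 (-y2) (-e 1) ≤ q - l 1
  lB1 : F1 (-y2) (-e 2) ≤ l 2 - q
  lB2 : F2 (-e 2) (-e 3) ≤ l 3 - l 2
  lB3 : F1 (-y1) (-e 3) ≤ -l 3

/-- scaled edge inequalities in the HCP order -/
structure EdgeH (y1 y2 : ℝ) (ε e u l : Fin 4 → ℝ) (q : ℝ) : Prop where
  uA1 : F1 y1 (ε 0) ≤ u 0
  uA2 : F1 y2 (ε 0) ≤ q - u 0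
  uB1 : F1 y2 (ε 1) ≤ u 1 - q
  uB2 : F2 (ε 1) (ε 2) ≤ u 2 - u 1
  uB3 : F2 (ε 2) (ε 3) ≤ u 3 - u 2
  uB4 : F1 y1 (ε 3) ≤ -u 3
  lA1 : F1 (-y1) (-e 0) ≤ l 0
  lA2 : F1 (-y2) (-e 0) ≤ q - l 0
  lB1 : F1 (-y2) (-e 1) ≤ l 1 - q
  lB2 : F2 (-e 1) (-e 2) ≤ l 2 - l 1
  lB3 : F2 (-e 2) (-e 3) ≤ l 3 - l 2
  lB4 : F1 (-y1) (-e 3) ≤ -l 3

/-- common hypotheses on the heights -/
structure Hts (y1 y2 d M : ℝ) (ε e : Fin 4 → ℝ) : Prop where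
  hy1 : |y1| ≤ 1 / 16
  hy2 : |y2| ≤ 1 / 16
  le : y2 ≤ y1
  ε0 : ∀ k, 0 ≤ ε k
  ερ : ∀ k, ε k ≤ 3 / 256
  eρ : ∀ k, |e k| ≤ 3 / 256
  hM : ∀ k, ε k - e k ≤ M
  e2 : ∀ k, e k ≤ 207 / 100 * M
  d0 : 0 ≤ d
  dM : d ≤ 23 / 10 * M

/-- the bootstrapping step -/
lemma boot {y X M ε e : ℝ} (hy0 : 0 ≤ y) (hy : y ≤ 1 / 16) (hM0 : 0 ≤ M) (hMρ : M ≤ 3 / 128)
    (hM : M = ε - e) (he : -M ≤ e) (he2 : e ≤ 207 / 100 * M)
    (hV : ε - e ≤ 39 / 200 * X ^ 2 + 2 / 3 * (ε ^ 2 + e ^ 2 - ε * e))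
    (hX1 : X ≤ 2 * y + 36 / 10 * y ^ 2 + 71 / 10 * M)
    (hX2 : -(2 * y + 36 / 10 * y ^ 2 + 71 / 10 * M) ≤ X) :
    M ≤ 48 / 25 * y ^ 2 := by
  have hε : ε = M + e := by linarith
  have h1 : ε ^ 2 + e ^ 2 - ε * e ≤ 74 / 10 * M ^ 2 := by
    rw [hε]
    nlinarith [mul_nonneg (sub_nonneg.2 he2) hM0,
      mul_nonneg (sub_nonneg.2 he2) (by linarith : 0 ≤ e + M)]
  set B := 2 * y + 36 / 10 * y ^ 2 + 71 / 10 * M with hB
  have hBle : B ≤ 2225 / 1000 * y + 71 / 10 * M := by nlinarith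
  have hB0 : 0 ≤ B := by positivity
  have hX : X ^ 2 ≤ B ^ 2 := by nlinarith
  have hBB : B ^ 2 ≤ (2225 / 1000 * y + 71 / 10 * M) ^ 2 := by
    apply pow_le_pow_left₀ hB0 hBle
  have hmain : M ≤ 39 / 200 * (2225 / 1000 * y + 71 / 10 * M) ^ 2 + 2 / 3 * (74 / 10 * M ^ 2) := by
    nlinarith
  by_contra hcon
  push Not at hcon
  rcases le_or_gt (75 / 10000) M with h | h
  · have h3 : (2225 / 1000 * y + 71 / 10 * M) ^ 2 ≤ (2225 / 16000 + 71 / 10 * M) ^ 2 := by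
      apply pow_le_pow_left₀ (by positivity); linarith
    nlinarith [mul_nonneg (sub_nonneg.2 h) (sub_nonneg.2 hMρ)]
  · have h4 : y * M ≤ 1 / 16 * M := by nlinarith
    have h5 : M * M ≤ 75 / 10000 * M := by nlinarith
    have hMpos : 0 < M := by nlinarith [sq_nonneg y]
    nlinarith

/-- the linear estimates -/
structure LinB (y1 y2 M : ℝ) (X : Fin 4 → ℝ) : Prop where
  up : ∀ k, X k ≤ (y1 - y2) + 17 / 10 * (y1 ^ 2 + y2 ^ 2) + 68 / 10 * M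
  lo : ∀ k, (y1 - y2) - 17 / 10 * (y1 ^ 2 + y2 ^ 2) - 68 / 10 * M ≤ X k
  s1 : y1 + y2 ≤ 17 / 20 * (y1 ^ 2 + y2 ^ 2) + 126 / 50 * M
  s2 : -(y1 + y2) ≤ 17 / 20 * (y1 ^ 2 + y2 ^ 2) + 126 / 50 * M

/-- signed differences in the FCC order -/
def XF (u l : Fin 4 → ℝ) : Fin 4 → ℝ := ![u 0 - l 0, u 1 - l 1, l 2 - u 2, l 3 - u 3]

/-- signed differences in the HCP order -/
def XH (u l : Fin 4 → ℝ) : Fin 4 → ℝ := ![u 0 - l 0, l 1 - u 1, l 2 - u 2, l 3 - u 3]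

lemma linF {y1 y2 d M q : ℝ} {ε e u l : Fin 4 → ℝ} (H : Hts y1 y2 d M ε e)
    (E : EdgeF y1 y2 ε e u l q) : LinB y1 y2 M (XF u l) := by
  obtain ⟨hy1, hy2, hle, hε0, hερ, heρ, hM, he2, hd0, hdM⟩ := H
  obtain ⟨a1, a2, a3, a4, a5, a6, b1, b2, b3, b4, b5, b6⟩ := E
  have hM0 : 0 ≤ M := by linarith
  simp only [F1, F2, abs_neg, neg_sq] at a1 a2 a3 a4 a5 a6 b1 b2 b3 b4 b5 b6
  rw [abs_of_nonneg (hε0 0)] at a1 a2
  rw [abs_of_nonneg (hε0 1)] at a2 a3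
  rw [abs_of_nonneg (hε0 2)] at a4 a5
  rw [abs_of_nonneg (hε0 3)] at a5 a6
  have hem : ∀ k, -M ≤ e k := fun k => by have := hM k; have := hε0 k; linarith
  have hea : ∀ k, |e k| ≤ 207 / 100 * M := fun k => abs_le.2 ⟨by linarith [hem k], he2 k⟩
  have e0 := hε0 0; have e1 := hε0 1; have e2 := hε0 2; have e3 := hε0 3
  have m0 := hM 0; have m1 := hM 1; have m2 := hM 2; have m3 := hM 3
  have n0 := he2 0; have n1 := he2 1; have n2 := he2 2; have n3 := he2 3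
  have p0 := hea 0; have p1 := hea 1; have p2 := hea 2; have p3 := hea 3
  refine ⟨?_, ?_, ?_, ?_⟩
  · intro k; fin_cases k <;> simp only [XF] <;> simp <;> linarith
  · intro k; fin_cases k <;> simp only [XF] <;> simp <;> linarith
  · linarith
  · linarith

lemma linH {y1 y2 d M q : ℝ} {ε e u l : Fin 4 → ℝ} (H : Hts y1 y2 d M ε e)
    (E : EdgeH y1 y2 ε e u l q) (hA : e 0 + e 2 ≤ 135 / 1000 * d)
    (hB : e 1 + e 3 + 2 / 3 * e 0 ≤ 25 / 100 * d) : LinB y1 y2 M (XH u l) := by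
  obtain ⟨hy1, hy2, hle, hε0, hερ, heρ, hM, he2, hd0, hdM⟩ := H
  obtain ⟨a1, a2, a3, a4, a5, a6, b1, b2, b3, b4, b5, b6⟩ := E
  have hM0 : 0 ≤ M := by linarith
  simp only [F1, F2, abs_neg, neg_sq] at a1 a2 a3 a4 a5 a6 b1 b2 b3 b4 b5 b6
  rw [abs_of_nonneg (hε0 0)] at a1 a2
  rw [abs_of_nonneg (hε0 1)] at a3 a4
  rw [abs_of_nonneg (hε0 2)] at a4 a5
  rw [abs_of_nonneg (hε0 3)] at a5 a6
  have hem : ∀ k, -M ≤ e k := fun k => by have := hM k; have := hε0 k; linarith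
  have hea : ∀ k, |e k| ≤ 207 / 100 * M := fun k => abs_le.2 ⟨by linarith [hem k], he2 k⟩
  have hec : ∀ k, |e k| ≤ e k + 2 * M := fun k => abs_le.2 ⟨by linarith [hem k], by linarith⟩
  have e0 := hε0 0; have e1 := hε0 1; have e2 := hε0 2; have e3 := hε0 3
  have m0 := hM 0; have m1 := hM 1; have m2 := hM 2; have m3 := hM 3
  have n0 := he2 0; have n1 := he2 1; have n2 := he2 2; have n3 := he2 3
  have p0 := hea 0; have p1 := hea 1; have p2 := hea 2; have p3 := hea 3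
  have r0 := hec 0; have r1 := hec 1; have r2 := hec 2; have r3 := hec 3
  have t0 := hem 0; have t1 := hem 1; have t2 := hem 2; have t3 := hem 3
  refine ⟨?_, ?_, ?_, ?_⟩
  · intro k; fin_cases k <;> simp only [XH] <;> simp <;> linarith
  · intro k; fin_cases k <;> simp only [XH] <;> simp <;> linarith
  · linarith
  · linarith

/-- the final bounds, `y = (y1 - y2)/2` -/
structure Bnd (y y1 y2 d : ℝ) (ε e X : Fin 4 → ℝ) : Prop where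
  y0 : 0 ≤ y
  y16 : y ≤ 1 / 16
  p : |y1 - y| ≤ 11 / 50 * y
  q : |y2 + y| ≤ 11 / 50 * y
  ε : ∀ k, ε k ≤ 27 / 100 * y
  el : ∀ k, -(3 / 25) * y ≤ e k
  eu : ∀ k, e k ≤ 11 / 50 * y
  d : d ≤ 7 / 25 * y
  Xl : ∀ k, 3 / 5 * y ≤ X k
  Xu : ∀ k, X k ≤ 1 / 4

theorem core {y1 y2 d M : ℝ} {ε e X : Fin 4 → ℝ} (H : Hts y1 y2 d M ε e)
    (hat : ∃ k, M = ε k - e k) (B : LinB y1 y2 M X)
    (V : ∀ k, ε k - e k ≤ 39 / 200 * X k ^ 2 + 2 / 3 * (ε k ^ 2 + e k ^ 2 - ε k * e k)) :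
    Bnd ((y1 - y2) / 2) y1 y2 d ε e X := by
  obtain ⟨hy1, hy2, hle, hε0, hερ, heρ, hM, he2, hd0, hdM⟩ := H
  obtain ⟨Bu, Bl, Bs1, Bs2⟩ := B
  have hM0 : 0 ≤ M := by linarith
  have hem : ∀ k, -M ≤ e k := fun k => by have := hM k; have := hε0 k; linarith
  have a1 := abs_le.1 hy1
  have a2 := abs_le.1 hy2
  obtain ⟨y, hy⟩ : ∃ y, y = (y1 - y2) / 2 := ⟨_, rfl⟩
  obtain ⟨s, hs⟩ : ∃ s, s = (y1 + y2) / 2 := ⟨_, rfl⟩
  have hy1' : y1 = y + s := by linarith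
  have hy2' : y2 = s - y := by linarith
  have hy0 : 0 ≤ y := by linarith
  have hy16 : y ≤ 1 / 16 := by linarith
  have hsq : y1 ^ 2 + y2 ^ 2 = 2 * y ^ 2 + 2 * s ^ 2 := by rw [hy1', hy2']; ring
  have hs16 : |s| ≤ 1 / 16 := abs_le.2 ⟨by linarith, by linarith⟩
  have hss : s ^ 2 ≤ 1 / 16 * |s| := by
    rw [← sq_abs, sq]; exact mul_le_mul_of_nonneg_right hs16 (abs_nonneg s)
  have hyy : y ^ 2 ≤ 1 / 16 * y := by
    rw [sq]; exact mul_le_mul_of_nonneg_right hy16 hy0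
  have hy20 := sq_nonneg y
  have hsb : |s| ≤ 9 / 10 * y ^ 2 + 1335 / 1000 * M := by
    have h1 : |s| ≤ 17 / 20 * (y ^ 2 + s ^ 2) + 126 / 100 * M := by
      exact abs_le.2 ⟨by linarith, by linarith⟩
    linarith
  have hs2 : 34 / 10 * s ^ 2 ≤ 2 / 10 * y ^ 2 + 3 / 10 * M := by linarith
  have hXu : ∀ k, X k ≤ 2 * y + 36 / 10 * y ^ 2 + 71 / 10 * M := by
    intro k
    have := Bu k
    linarith
  have hXl : ∀ k, 2 * y - 36 / 10 * y ^ 2 - 71 / 10 * M ≤ X k := by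
    intro k
    have := Bl k
    linarith
  have hMy : M ≤ 48 / 25 * y ^ 2 := by
    obtain ⟨k, hk⟩ := hat
    have h2 : M ≤ 3 / 128 := by
      rw [hk]; have := hερ k; have := (abs_le.1 (heρ k)).1; linarith
    refine boot hy0 hy16 hM0 h2 hk (hem k) (he2 k) (V k) (hXu k) ?_
    have := hXl k
    linarith
  have hMy' : M ≤ 3 / 25 * y := by linarith
  have hsy : |s| ≤ 11 / 50 * y := by linarith
  rw [← hy]
  refine ⟨hy0, hy16, ?_, ?_, ?_, ?_, ?_, ?_, ?_, ?_⟩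
  · rw [hy1', add_sub_cancel_left]; exact hsy
  · rw [hy2', sub_add_cancel]; exact hsy
  · intro k
    by_contra hc
    push Not at hc
    have h1 := hM k
    have h2 := he2 k
    have h3 := hερ k
    have h4 : y ≤ 435 / 10000 := by linarith
    have h5 : y ^ 2 ≤ 435 / 10000 * y := by
      rw [sq]; exact mul_le_mul_of_nonneg_right h4 hy0
    linarith
  · intro k; have := hem k; linarith
  · intro k
    by_contra hc
    push Not at hc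
    have h2 := he2 k
    have h3 := (abs_le.1 (heρ k)).2
    have h4 : y ≤ 534 / 10000 := by linarith
    have h5 : y ^ 2 ≤ 534 / 10000 * y := by
      rw [sq]; exact mul_le_mul_of_nonneg_right h4 hy0
    linarith
  · linarith
  · intro k
    have := hXl k
    linarith
  · intro k
    have := hXu k
    linarith

end Pool.Agent.Helper54.R1
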