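import Pool.Agent.Helper54.R1.Defs

set_option autoImplicit false

/-! # Region R1 (FCC/HCP) of MP_a8383f_co: sharper versions of `S` and `NEAR` -/

namespace Pool.Agent.Helper54.R1

open Real Pool.Agent.Helper66.Kiss

/-- **S2** (same proof as `S_stmt`, sharper). `d = √(1 - zs²)`, `s = 1 + zs`, `s ≤ 16/31 d²`,
`c = √(1 - (1/2+e)²) ∈ [0.859, 0.873]`, `|c - √3/2| ≤ 0.0070`; the hypothesis is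
`d c cos (a-b) + e (1 - s) ≤ s/2`.
(1) `cos ≥ 52/100`: `-e ≥ d (0.4466 - 8/31 d)`; with `d ≤ 0.35`: `0.356 d ≤ 3/256`, `d ≤ 0.033`, then
`-e ≥ 0.438 d` and `1/0.438 < 23/10`.
(2) as before.
(3) `e ≤ s/2 + e s - d c cos ≤ -(√3/2) d cos + d (8/31 d + 0.0070 + |e| 16/31 d) ≤ ... + d/60` for
`d ≤ 29/1000`. -/
def S2_stmt : Prop :=
  ∀ zs e a b : ℝ, -1 ≤ zs → zs ≤ -15 / 16 → |e| ≤ 3 / 256 → gg zs (-1 / 2 - e) a b ≤ 1 / 2 →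
    (52 / 100 ≤ cos (a - b) → √(1 - zs ^ 2) ≤ 23 / 10 * (-e)) ∧
    (√(1 - zs ^ 2) ≤ 1 / 25 → e ≤ 9 / 10 * √(1 - zs ^ 2)) ∧
    (√(1 - zs ^ 2) ≤ 29 / 1000 →
      e ≤ -(√3 / 2) * √(1 - zs ^ 2) * cos (a - b) + √(1 - zs ^ 2) / 60)

/-- **NEAR2**: `NEAR_stmt` with `52/100` (`cos T0 - 57/1000 = 0.57735 - 0.057 = 0.52035`). -/
def NEAR2_stmt : Prop :=
  ∀ (t : Fin 4 → ℝ) (a : ℝ), t 0 ≤ t 1 → t 1 ≤ t 2 → t 2 ≤ t 3 → t 3 ≤ t 0 + 2 * π →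
    t 1 - t 0 ≤ 2 * (T0 + 57 / 1000) → t 2 - t 1 ≤ 2 * (T0 + 57 / 1000) →
    t 3 - t 2 ≤ 2 * (T0 + 57 / 1000) → t 0 + 2 * π - t 3 ≤ 2 * (T0 + 57 / 1000) →
    ∃ k, 52 / 100 ≤ cos (a - t k)

end Pool.Agent.Helper54.R1
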