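import Pool.Agent.Helper54.R1.Goals
import Pool.Agent.Helper54.R1.Goals2

set_option autoImplicit false

/-! # Region R1: the direction, pair by pair -/

namespace Pool.Agent.Helper54.R1

open Real Pool.Agent.Helper66.Kiss

/-- a pair opens strictly if it is a contact -/
def DG (z w a b v v' p q : ℝ) : Prop :=
  gg z w a b = 1 / 2 → nr z w v v' - √(1 - z ^ 2) * √(1 - w ^ 2) * sin (a - b) * (p - q) < 0

lemma DG.symm {z w a b v v' p q : ℝ} (h : DG z w a b v v' p q) : DG w z b a v' v q p := by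
  intro hc
  have h1 := h (by rw [gg_comm]; exact hc)
  have h2 : sin (b - a) = -sin (a - b) := by rw [← sin_neg, neg_sub]
  rw [nr_comm, h2]
  have : √(1 - w ^ 2) * √(1 - z ^ 2) * -sin (a - b) * (q - p) =
      √(1 - z ^ 2) * √(1 - w ^ 2) * sin (a - b) * (p - q) := by ring
  rw [this]; exact h1

lemma dg_of_lt {z w a b v v' p q : ℝ} (h : gg z w a b < 1 / 2) : DG z w a b v v' p q :=
  fun hc => absurd hc h.ne

lemma rt_eq {z w a b : ℝ} (hz : -1 < z ∧ z ≤ 1 / 2) (hw : -1 < w ∧ w ≤ 1 / 2)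
    (h : gg z w a b = 1 / 2) (hs : 0 < sin (b - a)) :
    √(1 - z ^ 2) * √(1 - w ^ 2) * sin (b - a) = rt z w :=
  (east_facts hz hw h hs).2.1

/-- general form: `j` is ahead of `i` -/
lemma dg_ahead {z w a b v v' p q : ℝ} (hz : -1 < z ∧ z ≤ 1 / 2) (hw : -1 < w ∧ w ≤ 1 / 2)
    (hs : 0 < sin (b - a)) (h : nr z w v v' < rt z w * (q - p)) : DG z w a b v v' p q := by
  intro hc
  have h1 := rt_eq hz hw hc hs
  have h2 : sin (a - b) = -sin (b - a) := by rw [← sin_neg, neg_sub]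
  rw [h2]
  have : √(1 - z ^ 2) * √(1 - w ^ 2) * -sin (b - a) * (p - q) = rt z w * (q - p) := by
    rw [← h1]; ring
  rw [this]; linarith

/-- general form: `j` is behind `i` -/
lemma dg_behind {z w a b v v' p q : ℝ} (hz : -1 < z ∧ z ≤ 1 / 2) (hw : -1 < w ∧ w ≤ 1 / 2)
    (hs : 0 < sin (a - b)) (h : nr z w v v' < rt z w * (p - q)) : DG z w a b v v' p q := by
  apply DG.symm
  apply dg_ahead hw hz hs
  rw [nr_comm, rt_comm]; exact h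

section

variable {y y1 y2 ε ε' e e' b a c : ℝ}

lemma hzT {z : ℝ} (h : |z| ≤ 1 / 8) : -1 < z ∧ z ≤ 1 / 2 := by
  have := abs_le.1 h; constructor <;> linarith

lemma hzU (h0 : 0 ≤ ε) (h : ε ≤ 3 / 256) : -1 < 1 / 2 - ε ∧ 1 / 2 - ε ≤ 1 / 2 := by
  constructor <;> linarith

lemma hzL (h : |e| ≤ 3 / 256) : -1 < -1 / 2 - e ∧ -1 / 2 - e ≤ 1 / 2 := by
  have := abs_le.1 h; constructor <;> linarith

lemma tie_p (hy : 0 < y) (hy1 : y ≤ 1 / 16) (h : |y1 - y| ≤ 11 / 50 * y) : |y1| ≤ 1 / 8 := by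
  have := abs_le.1 h
  exact abs_le.2 ⟨by linarith, by linarith⟩

lemma tie_q (hy : 0 < y) (hy1 : y ≤ 1 / 16) (h : |y2 + y| ≤ 11 / 50 * y) : |y2| ≤ 1 / 8 := by
  have := abs_le.1 h
  exact abs_le.2 ⟨by linarith, by linarith⟩

/-- `p` with a `U` -/
lemma dg_pU_ahead (C1 : C1_stmt) (hy : 0 < y) (hy1 : y ≤ 1 / 16) (h : |y1 - y| ≤ 11 / 50 * y)
    (h0 : 0 ≤ ε) (h1 : ε ≤ 27 / 100 * y) (h2 : ε ≤ 3 / 256) (hb : b ≤ 3 / 5)
    (hs : 0 < sin (c - a)) : DG y1 (1 / 2 - ε) a c 1 0 0 ((1 - b * y) / √2) := by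
  apply dg_ahead (hzT (tie_p hy hy1 h)) (hzU h0 h2) hs
  have := C1 y y1 ε b hy hy1 h h0 h1 hb
  linarith

lemma dg_pU_behind (C1 : C1_stmt) (hy : 0 < y) (hy1 : y ≤ 1 / 16) (h : |y1 - y| ≤ 11 / 50 * y)
    (h0 : 0 ≤ ε) (h1 : ε ≤ 27 / 100 * y) (h2 : ε ≤ 3 / 256) (hb : b ≤ 3 / 5)
    (hs : 0 < sin (a - c)) : DG y1 (1 / 2 - ε) a c 1 0 0 (-((1 - b * y) / √2)) := by
  apply dg_behind (hzT (tie_p hy hy1 h)) (hzU h0 h2) hs
  have := C1 y y1 ε b hy hy1 h h0 h1 hb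
  linarith

/-- `q` with a `U` before it -/
lemma dg_qU_before (C3 : C3_stmt) (hy : 0 < y) (hy1 : y ≤ 1 / 16) (h : |y2 + y| ≤ 11 / 50 * y)
    (h0 : 0 ≤ ε) (h1 : ε ≤ 27 / 100 * y) (h2 : ε ≤ 3 / 256) (hb : 2 / 5 ≤ b) (hb1 : b ≤ 1)
    (hs : 0 < sin (a - c)) : DG y2 (1 / 2 - ε) a c (-1) 0 0 ((1 - b * y) / √2) := by
  apply dg_behind (hzT (tie_q hy hy1 h)) (hzU h0 h2) hs
  have := C3 y y2 ε b hy hy1 h h0 h1 hb hb1
  linarith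

lemma dg_qU_after (C3 : C3_stmt) (hy : 0 < y) (hy1 : y ≤ 1 / 16) (h : |y2 + y| ≤ 11 / 50 * y)
    (h0 : 0 ≤ ε) (h1 : ε ≤ 27 / 100 * y) (h2 : ε ≤ 3 / 256) (hb : 2 / 5 ≤ b) (hb1 : b ≤ 1)
    (hs : 0 < sin (c - a)) : DG y2 (1 / 2 - ε) a c (-1) 0 0 (-((1 - b * y) / √2)) := by
  apply dg_ahead (hzT (tie_q hy hy1 h)) (hzU h0 h2) hs
  have := C3 y y2 ε b hy hy1 h h0 h1 hb hb1
  linarith

/-- `p` with an `L` -/
lemma dg_pL_ahead (C2 : C2_stmt) (hy : 0 < y) (hy1 : y ≤ 1 / 16) (h : |y1 - y| ≤ 11 / 50 * y)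
    (h0 : -(3 / 25) * y ≤ e) (h1 : e ≤ 11 / 50 * y) (h2 : |e| ≤ 3 / 256)
    (hs : 0 < sin (c - a)) : DG y1 (-1 / 2 - e) a c 1 (3 / 10 * y) 0 (-((1 + y / 5) / √2)) := by
  apply dg_ahead (hzT (tie_p hy hy1 h)) (hzL h2) hs
  have := C2 y y1 e hy hy1 h h0 h1
  linarith

lemma dg_pL_behind (C2 : C2_stmt) (hy : 0 < y) (hy1 : y ≤ 1 / 16) (h : |y1 - y| ≤ 11 / 50 * y)
    (h0 : -(3 / 25) * y ≤ e) (h1 : e ≤ 11 / 50 * y) (h2 : |e| ≤ 3 / 256)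
    (hs : 0 < sin (a - c)) : DG y1 (-1 / 2 - e) a c 1 (3 / 10 * y) 0 ((1 + y / 5) / √2) := by
  apply dg_behind (hzT (tie_p hy hy1 h)) (hzL h2) hs
  have := C2 y y1 e hy hy1 h h0 h1
  linarith

/-- `q` with an `L` -/
lemma dg_qL_before (C4 : C4_stmt) (hy : 0 < y) (hy1 : y ≤ 1 / 16) (h : |y2 + y| ≤ 11 / 50 * y)
    (h0 : -(3 / 25) * y ≤ e) (h1 : e ≤ 11 / 50 * y) (h2 : |e| ≤ 3 / 256)
    (hs : 0 < sin (a - c)) : DG y2 (-1 / 2 - e) a c (-1) (3 / 10 * y) 0 (-((1 + y / 5) / √2)) := by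
  apply dg_behind (hzT (tie_q hy hy1 h)) (hzL h2) hs
  have := C4 y y2 e hy hy1 h h0 h1
  linarith

lemma dg_qL_after (C4 : C4_stmt) (hy : 0 < y) (hy1 : y ≤ 1 / 16) (h : |y2 + y| ≤ 11 / 50 * y)
    (h0 : -(3 / 25) * y ≤ e) (h1 : e ≤ 11 / 50 * y) (h2 : |e| ≤ 3 / 256)
    (hs : 0 < sin (c - a)) : DG y2 (-1 / 2 - e) a c (-1) (3 / 10 * y) 0 ((1 + y / 5) / √2) := by
  apply dg_ahead (hzT (tie_q hy hy1 h)) (hzL h2) hs
  have := C4 y y2 e hy hy1 h h0 h1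
  linarith

/-- two `U`s -/
lemma dg_UU {p q : ℝ} (h0 : 0 ≤ ε) (h2 : ε ≤ 3 / 256) (h0' : 0 ≤ ε') (h2' : ε' ≤ 3 / 256)
    (hs : 0 < sin (c - a)) (hpq : p < q) : DG (1 / 2 - ε) (1 / 2 - ε') a c 0 0 p q := by
  intro hc
  have h1 := east_facts (hzU h0 h2) (hzU h0' h2') hc hs
  have h3 : sin (a - c) = -sin (c - a) := by rw [← sin_neg, neg_sub]
  rw [h3]
  have h4 : nr (1 / 2 - ε) (1 / 2 - ε') 0 0 = 0 := by unfold nr; ring
  have h5 : √(1 - (1 / 2 - ε) ^ 2) * √(1 - (1 / 2 - ε') ^ 2) * -sin (c - a) * (p - q) =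
      rt (1 / 2 - ε) (1 / 2 - ε') * (q - p) := by rw [← h1.2.1]; ring
  rw [h4, h5]
  have := mul_pos h1.2.2.1 (sub_pos.2 hpq)
  linarith

/-- two `L`s -/
lemma dg_LL {p : ℝ} (C6 : C6_stmt) (hy : 0 < y) (h2 : |e| ≤ 3 / 256) (h2' : |e'| ≤ 3 / 256) :
    DG (-1 / 2 - e) (-1 / 2 - e') a c (3 / 10 * y) (3 / 10 * y) p p := by
  intro _
  have := C6 y e e' hy h2 h2'
  rw [sub_self, mul_zero]; linarith

/-- vertical pair on side A: `X/√2 = a - c`, `U` at `a`, `L` at `c` -/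
lemma dg_UL (C7 : C7_stmt) (hy : 0 < y) (hy1 : y ≤ 1 / 16) (h0 : 0 ≤ ε) (h1 : ε ≤ 3 / 256)
    (h2 : |e| ≤ 3 / 256) (hb : b ≤ 3 / 5) (hX : 3 / 5 * y / √2 ≤ a - c) (hX2 : a - c ≤ 1 / 2) :
    DG (1 / 2 - ε) (-1 / 2 - e) a c 0 (3 / 10 * y) ((1 - b * y) / √2) (-((1 + y / 5) / √2)) := by
  intro _
  have h3 := C7 y ε e (a - c) hy hy1 h0 h1 h2 hX hX2
  have hr : 0 < √2 := by positivity
  have hpos : 0 ≤ 3 / 5 * y / √2 := by positivity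
  have hsin : 0 ≤ sin (a - c) := sin_nonneg_of_nonneg_of_le_pi (by linarith) (by
    have := Real.pi_gt_three; linarith)
  have h4 : (2 - 2 / 5 * y) / √2 ≤ (1 - b * y) / √2 - -((1 + y / 5) / √2) := by
    rw [sub_neg_eq_add, ← add_div]
    apply div_le_div_of_nonneg_right _ hr.le
    nlinarith
  have h5 : 0 ≤ √(1 - (1 / 2 - ε) ^ 2) * √(1 - (-1 / 2 - e) ^ 2) * sin (a - c) := by positivity
  have := mul_le_mul_of_nonneg_left h4 h5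
  linarith

/-- vertical pair on side B -/
lemma dg_UL' (C7 : C7_stmt) (hy : 0 < y) (hy1 : y ≤ 1 / 16) (h0 : 0 ≤ ε) (h1 : ε ≤ 3 / 256)
    (h2 : |e| ≤ 3 / 256) (hb : b ≤ 3 / 5) (hX : 3 / 5 * y / √2 ≤ c - a) (hX2 : c - a ≤ 1 / 2) :
    DG (1 / 2 - ε) (-1 / 2 - e) a c 0 (3 / 10 * y) (-((1 - b * y) / √2)) ((1 + y / 5) / √2) := by
  have h3 := dg_UL (b := b) (a := -a) (c := -c) C7 hy hy1 h0 h1 h2 hb (by linarith) (by linarith)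
  intro hc
  have hg : gg (1 / 2 - ε) (-1 / 2 - e) (-a) (-c) = 1 / 2 := by
    unfold gg at hc ⊢
    rw [show -a - -c = -(a - c) by ring, cos_neg]; exact hc
  have h4 := h3 hg
  rw [show -a - -c = -(a - c) by ring, sin_neg] at h4
  linarith

/-- `S'` with an `L`, whatever the longitudes and the sign of `ψ_L` -/
lemma dg_SL {zs p : ℝ} (C8 : C8_stmt) (hy : 0 < y) (hy1 : y ≤ 1 / 16) (hs0 : -1 ≤ zs)
    (hs1 : zs ≤ -15 / 16) (h2 : |e| ≤ 3 / 256) (hd : √(1 - zs ^ 2) ≤ 7 / 25 * y)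
    (hp : |p| = (1 + y / 5) / √2) : DG (-1 / 2 - e) zs a c (3 / 10 * y) 0 p 0 := by
  intro _
  have h3 := C8 y zs e hy hy1 hs0 hs1 h2 hd
  rw [nr_comm] at h3
  have h4 : -(√(1 - (-1 / 2 - e) ^ 2) * √(1 - zs ^ 2) * sin (a - c) * (p - 0)) ≤
      √(1 - zs ^ 2) * √(1 - (-1 / 2 - e) ^ 2) * ((1 + y / 5) / √2) := by
    have h5 : |√(1 - (-1 / 2 - e) ^ 2) * √(1 - zs ^ 2) * sin (a - c) * (p - 0)| ≤
        √(1 - zs ^ 2) * √(1 - (-1 / 2 - e) ^ 2) * ((1 + y / 5) / √2) := by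
      rw [sub_zero, abs_mul, abs_mul, hp, abs_of_nonneg (by positivity :
        0 ≤ √(1 - (-1 / 2 - e) ^ 2) * √(1 - zs ^ 2))]
      have h6 := abs_sin_le_one (a - c)
      have h7 : 0 ≤ √(1 - (-1 / 2 - e) ^ 2) * √(1 - zs ^ 2) := by positivity
      have h8 : 0 ≤ (1 + y / 5) / √2 := by positivity
      have h9 := mul_le_mul_of_nonneg_left h6 h7
      have h10 := mul_le_mul_of_nonneg_right h9 h8
      linarith
    exact (neg_le_abs _).trans h5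
  linarith

end

/-! ### pairs which are far apart -/

lemma lt_of_cos_nonpos {z w a b : ℝ} (hzw : z * w ≤ 2 / 5) (hc : cos (a - b) ≤ 0) :
    gg z w a b < 1 / 2 := by
  unfold gg
  have : √(1 - z ^ 2) * √(1 - w ^ 2) * cos (a - b) ≤ 0 :=
    mul_nonpos_of_nonneg_of_nonpos (by positivity) hc
  linarith

lemma lt_of_mid {z w a b : ℝ} (hzw : z * w ≤ -1 / 5) (hc : cos (a - b) ≤ 3 / 4)
    (hz : 1 / 5 ≤ z ^ 2) (hw : 1 / 5 ≤ w ^ 2) : gg z w a b < 1 / 2 := by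
  unfold gg
  have h0 : 0 ≤ √(1 - z ^ 2) * √(1 - w ^ 2) := by positivity
  have h1 : √(1 - z ^ 2) * √(1 - w ^ 2) ≤ 4 / 5 := by
    have e1 : √(1 - z ^ 2) ≤ √(4 / 5) := Real.sqrt_le_sqrt (by linarith)
    have e2 : √(1 - w ^ 2) ≤ √(4 / 5) := Real.sqrt_le_sqrt (by linarith)
    calc √(1 - z ^ 2) * √(1 - w ^ 2) ≤ √(4 / 5) * √(4 / 5) :=
          mul_le_mul e1 e2 (by positivity) (by positivity)
      _ = 4 / 5 := Real.mul_self_sqrt (by norm_num)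
  nlinarith

end Pool.Agent.Helper54.R1
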