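import Pool.Agent.Helper54.R1.T0
import Pool.Agent.Helper54.R1.Pairs
import Pool.Agent.Helper54.R1.Lin

set_option autoImplicit false

/-! # Region R1: abstract states and goals -/

namespace Pool.Agent.Helper54.R1

open Real Pool.Agent.Helper66.Kiss

/-- all pairs are feasible; `p` at longitude `0`, `q` at `c`, `S'` at `s`, `U k` at `a k`, `L k` at `b k` -/
structure Fz (y1 y2 zs c s : ℝ) (ε e a b : Fin 4 → ℝ) : Prop where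
  pq : gg y1 y2 0 c ≤ 1 / 2
  ps : gg y1 zs 0 s ≤ 1 / 2
  qs : gg y2 zs c s ≤ 1 / 2
  pU : ∀ k, gg y1 (1 / 2 - ε k) 0 (a k) ≤ 1 / 2
  qU : ∀ k, gg y2 (1 / 2 - ε k) c (a k) ≤ 1 / 2
  sU : ∀ k, gg zs (1 / 2 - ε k) s (a k) ≤ 1 / 2
  pL : ∀ k, gg y1 (-1 / 2 - e k) 0 (b k) ≤ 1 / 2
  qL : ∀ k, gg y2 (-1 / 2 - e k) c (b k) ≤ 1 / 2
  sL : ∀ k, gg zs (-1 / 2 - e k) s (b k) ≤ 1 / 2
  UU : ∀ j k, j ≠ k → gg (1 / 2 - ε j) (1 / 2 - ε k) (a j) (a k) ≤ 1 / 2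
  LL : ∀ j k, j ≠ k → gg (-1 / 2 - e j) (-1 / 2 - e k) (b j) (b k) ≤ 1 / 2
  UL : ∀ j k, gg (1 / 2 - ε j) (-1 / 2 - e k) (a j) (b k) ≤ 1 / 2

/-- the box and the normalisation of the longitudes -/
structure Bx (y1 y2 zs c : ℝ) (ε e a b : Fin 4 → ℝ) : Prop where
  hy1 : |y1| ≤ 1 / 16
  hy2 : |y2| ≤ 1 / 16
  le : y2 ≤ y1
  zs0 : -1 ≤ zs
  zs1 : zs ≤ -15 / 16
  ε0 : ∀ k, 0 ≤ ε k
  ερ : ∀ k, ε k ≤ 3 / 256
  eρ : ∀ k, |e k| ≤ 3 / 256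
  c0 : 0 ≤ c
  c1 : c ≤ 2 * π
  a0 : 0 ≤ a 0
  a01 : a 0 ≤ a 1
  a12 : a 1 ≤ a 2
  a23 : a 2 ≤ a 3
  a3 : a 3 ≤ 2 * π
  b0 : 0 ≤ b 0
  b01 : b 0 ≤ b 1
  b12 : b 1 ≤ b 2
  b23 : b 2 ≤ b 3
  b3 : b 3 ≤ 2 * π

/-- every contact opens strictly with the velocities `±1` (p, q), `3/10 y` (L), `0` (U, S') of the
heights and `P` (U), `Q` (L), `0` of the longitudes -/
structure Dr (y y1 y2 zs c s : ℝ) (ε e a b P Q : Fin 4 → ℝ) : Prop where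
  pq : DG y1 y2 0 c 1 (-1) 0 0
  ps : DG y1 zs 0 s 1 0 0 0
  qs : DG y2 zs c s (-1) 0 0 0
  pU : ∀ k, DG y1 (1 / 2 - ε k) 0 (a k) 1 0 0 (P k)
  qU : ∀ k, DG y2 (1 / 2 - ε k) c (a k) (-1) 0 0 (P k)
  sU : ∀ k, DG zs (1 / 2 - ε k) s (a k) 0 0 0 (P k)
  pL : ∀ k, DG y1 (-1 / 2 - e k) 0 (b k) 1 (3 / 10 * y) 0 (Q k)
  qL : ∀ k, DG y2 (-1 / 2 - e k) c (b k) (-1) (3 / 10 * y) 0 (Q k)
  sL : ∀ k, DG zs (-1 / 2 - e k) s (b k) 0 (3 / 10 * y) 0 (Q k)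
  UU : ∀ j k, j ≠ k → DG (1 / 2 - ε j) (1 / 2 - ε k) (a j) (a k) 0 0 (P j) (P k)
  LL : ∀ j k, j ≠ k → DG (-1 / 2 - e j) (-1 / 2 - e k) (b j) (b k) (3 / 10 * y) (3 / 10 * y) (Q j) (Q k)
  UL : ∀ j k, DG (1 / 2 - ε j) (-1 / 2 - e k) (a j) (b k) 0 (3 / 10 * y) (P j) (Q k)

/-- windows of the longitudes in the FCC order -/
structure WinF (c : ℝ) (a : Fin 4 → ℝ) : Prop where
  h0 : T0 - 1 / 5 ≤ a 0
  h0' : a 0 ≤ T0 + 1 / 5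
  h1 : π - T0 - 1 / 5 ≤ a 1
  h1' : a 1 ≤ π - T0 + 1 / 5
  hc : π - 1 / 5 ≤ c
  hc' : c ≤ π + 1 / 5
  h2 : π + T0 - 1 / 5 ≤ a 2
  h2' : a 2 ≤ π + T0 + 1 / 5
  h3 : 2 * π - T0 - 1 / 5 ≤ a 3
  h3' : a 3 ≤ 2 * π - T0 + 1 / 5
  t03 : a 3 - a 0 ≤ 2 * π - 2 * T0 + 1 / 8
  t12 : 2 * T0 - 1 / 8 ≤ a 2 - a 1

/-- windows of the longitudes in the HCP order -/
structure WinH (c : ℝ) (a : Fin 4 → ℝ) : Prop where
  h0 : T0 - 1 / 5 ≤ a 0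
  h0' : a 0 ≤ T0 + 1 / 5
  hc : 2 * T0 - 1 / 8 ≤ c
  hc' : c ≤ 2 * T0 + 1 / 5
  h1 : 3 * T0 - 1 / 5 ≤ a 1
  h1' : a 1 ≤ 3 * T0 + 1 / 5
  h2 : π + T0 - 1 / 5 ≤ a 2
  h2' : a 2 ≤ π + T0 + 1 / 5
  h3 : 2 * π - T0 - 1 / 5 ≤ a 3
  h3' : a 3 ≤ 2 * π - T0 + 1 / 5
  t03 : a 3 - a 0 ≤ 2 * π - 2 * T0 + 1 / 8
  t01 : 2 * T0 - 1 / 8 ≤ a 1 - a 0

/-- longitude velocities, FCC -/
noncomputable def PF (y : ℝ) : Fin 4 → ℝ :=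
  ![(1 - 3 / 5 * y) / √2, (1 - 2 / 5 * y) / √2, -((1 - 2 / 5 * y) / √2), -((1 - 3 / 5 * y) / √2)]

noncomputable def QF (y : ℝ) : Fin 4 → ℝ :=
  ![-((1 + y / 5) / √2), -((1 + y / 5) / √2), (1 + y / 5) / √2, (1 + y / 5) / √2]

/-- longitude velocities, HCP -/
noncomputable def PH (y : ℝ) : Fin 4 → ℝ :=
  ![(1 - 1 / 2 * y) / √2, -((1 - 2 / 5 * y) / √2), -((1 - 1 / 2 * y) / √2), -((1 - 3 / 5 * y) / √2)]

noncomputable def QH (y : ℝ) : Fin 4 → ℝ :=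
  ![-((1 + y / 5) / √2), (1 + y / 5) / √2, (1 + y / 5) / √2, (1 + y / 5) / √2]

/-- signed differences, FCC -/
noncomputable def YF (a b : Fin 4 → ℝ) : Fin 4 → ℝ :=
  ![√2 * (a 0 - b 0), √2 * (a 1 - b 1), √2 * (b 2 - a 2), √2 * (b 3 - a 3)]

/-- signed differences, HCP -/
noncomputable def YH (a b : Fin 4 → ℝ) : Fin 4 → ℝ :=
  ![√2 * (a 0 - b 0), √2 * (b 1 - a 1), √2 * (b 2 - a 2), √2 * (b 3 - a 3)]

/-- reference longitudes -/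
noncomputable def AF : Fin 4 → ℝ := ![T0, π - T0, π + T0, 2 * π - T0]
noncomputable def AH : Fin 4 → ℝ := ![T0, 3 * T0, π + T0, 2 * π - T0]
/-- sides -/
def sF : Fin 4 → ℝ := ![1, 1, -1, -1]
def sH : Fin 4 → ℝ := ![1, -1, -1, -1]

/-- **DF.** The direction opens every contact, FCC order. PROOF: for every pair choose one of:
`dg_of_lt` with `lt_of_cos_nonpos` (longitude difference between `π/2` and `3π/2` by the windows and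
`T0_lo`, `T0_hi`), `dg_of_lt` with `lt_of_mid` (`U j`, `L k` on the same side, `j ≠ k`), or the contact
lemmas `dg_pU_ahead` etc. of `Pairs.lean` (the sine is positive because the difference is in `(0, π)`);
`S'` with `p, q, U`: `√(1-zs²) ≤ 7/25 y ≤ 0.0175`. -/
def DF_stmt : Prop := C1_stmt → C2_stmt → C3_stmt → C4_stmt → C6_stmt → C7_stmt → C8_stmt →
  ∀ (y y1 y2 zs c s : ℝ) (ε e a b : Fin 4 → ℝ), Bx y1 y2 zs c ε e a b → WinF c a → WinF c b →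
    Bnd y y1 y2 (√(1 - zs ^ 2)) ε e (YF a b) → 0 < y →
    Dr y y1 y2 zs c s ε e a b (PF y) (QF y)

/-- **DH.** The direction opens every contact, HCP order. -/
def DH_stmt : Prop := C1_stmt → C2_stmt → C3_stmt → C4_stmt → C6_stmt → C7_stmt → C8_stmt →
  ∀ (y y1 y2 zs c s : ℝ) (ε e a b : Fin 4 → ℝ), Bx y1 y2 zs c ε e a b → WinH c a → WinH c b →
    Bnd y y1 y2 (√(1 - zs ^ 2)) ε e (YH a b) → 0 < y →
    Dr y y1 y2 zs c s ε e a b (PH y) (QH y)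

/-- **GA.** `p` rises and pushes the `U` away: `cos (T0 + x) = (cos x - √2 sin x)/√3`, `x = t/√2`,
`√2 sin x ≥ t - t³/12`, `cos x ≤ 1`, `√(1-t²) ≤ 1 - t²/2`. -/
def GA_stmt : Prop := ∀ t : ℝ, 0 ≤ t → t ≤ 1 / 16 → gg t (1 / 2) 0 (T0 + t / √2) ≤ 1 / 2

/-- **GB.** `cos (T0 - x) = (cos x + √2 sin x)/√3 ≤ (1 + t)/√3`, `√(1-t²) ≤ 1`. -/
def GB_stmt : Prop := ∀ t : ℝ, 0 ≤ t → t ≤ 1 / 16 → gg (-t) (1 / 2) 0 (T0 - t / √2) ≤ 1 / 2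

/-- **XF.** The path from the exact FCC state: all pairs stay feasible. PROOF: `p`, `q` with their eight
`U`, `L` neighbours by GA, GB (symmetries `gg (-z) (-w) a b = gg z w a b`, `gg_comm`, shifts by `2π`);
`U U'` of the same side: difference `π - 2 T0`, `gg = 3/4·1/3 + 1/4`; `L L'` the same; `U L`: always
`≤ 3/4 - 1/4`; `S'` at the pole: `gg (-1) w = -w`; others: cosine `≤ 0` (`lt_of_cos_nonpos`). -/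
def XF_stmt : Prop := GA_stmt → GB_stmt → ∀ s t : ℝ, 0 ≤ t → t ≤ 1 / 16 →
  Fz t (-t) (-1) π s 0 0 (fun k => AF k + t * (sF k / √2)) (fun k => AF k - t * (sF k / √2))

/-- **XH.** The path from the exact HCP state. -/
def XH_stmt : Prop := GA_stmt → GB_stmt → ∀ s t : ℝ, 0 ≤ t → t ≤ 1 / 16 →
  Fz t (-t) (-1) (2 * T0) s 0 0 (fun k => AH k + t * (sH k / √2)) (fun k => AH k - t * (sH k / √2))

/-- **NEAR3**: `NEAR_stmt` with `65/1000` and `52/100`; `cos (T0 + 65/1000) =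
cos T0 cos (65/1000) - sin T0 sin (65/1000) ≥ 0.5773·0.9978 - 0.8166·0.065 > 0.5229`. -/
def NEAR3_stmt : Prop :=
  ∀ (t : Fin 4 → ℝ) (a : ℝ), t 0 ≤ t 1 → t 1 ≤ t 2 → t 2 ≤ t 3 → t 3 ≤ t 0 + 2 * π →
    t 1 - t 0 ≤ 2 * (T0 + 65 / 1000) → t 2 - t 1 ≤ 2 * (T0 + 65 / 1000) →
    t 3 - t 2 ≤ 2 * (T0 + 65 / 1000) → t 0 + 2 * π - t 3 ≤ 2 * (T0 + 65 / 1000) →
    ∃ k, 52 / 100 ≤ cos (a - t k)

end Pool.Agent.Helper54.R1
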