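import Pool.Agent.Helper54.R1.Defs

set_option autoImplicit false

/-! # Region R1 (FCC/HCP) of MP_a8383f_co: goals

All numbers were checked numerically.  Facts: `wd z w = arccos ((1/2 - z w)/(√(1-z²) √(1-w²)))`,
`gg z w a b = √(1-z²) √(1-w²) cos (a-b) + z w`,
`nr z w v v' = (w - z/2) v/(1-z²) + (z - w/2) v'/(1-w²)`, `rt z w = √(3/4 - z² - w² + z w)`. -/

namespace Pool.Agent.Helper54.R1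

open Real Pool.Agent.Helper66.Kiss

/-- **W1.** PROOF. Put `τ = F1 z ε` (`|τ| ≤ 1/12`) and `x = τ/√2`.  `cos T0 = 1/√3`,
`sin T0 = √2/√3` (square: `1 - 1/3`), `0 ≤ T0 + x ≤ π`, so (arccos antitone, `arccos_cos`) it suffices
`r := (1/2 - z w)/(√(1-z²) √(1-w²)) ≤ cos (T0 + x) = (cos x - √2 sin x)/√3`, `w = 1/2 - ε`.
`cos x ≥ 1 - x²/2 = 1 - τ²/4`; `√2 sin x ≤ τ` if `τ ≥ 0` (`sin_le`), and `sin x ≤ x + |x|³/6·(1.01)`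
i.e. `√2 sin x ≤ τ + τ²/100` if `τ < 0` (`Real.sin_bound` or `x - x³/4 < sin x` applied to `-x`,
`|τ| ≤ 1/12`).  So `cos x - √2 sin x ≥ R := 1 - τ - 13/50 τ²`.  It remains `√3 (1/2 - z w) ≤ R √(1-z²) √(1-w²)`;
square (both sides positive): `3 (1/2 - z/2 + z ε)² ≤ R² (1 - z²)(3/4 + ε - ε²)`.  Use
`R² ≥ 1 - 2 τ + 2/5 τ²` (`|τ| ≤ 1/12`), then a polynomial inequality in `z, ε` for each sign of `ε`: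
`G(z,ε) = (1 - 2τ + 2/5 τ²)(1 - z²)(3/4 + ε - ε²) - 3 (1/2 - z/2 + z ε)²`;
`G(z,0) = 3/4 z² (1/10 + 1.3 z + O(z²)) ≥ 0` and `G(z,ε) - G(z,0)` is `|ε|` times something
`≥ 0.345 - 4.8 |z| - 3 |ε| > 0`.  (Exact minimum of `√2 (wd - T0) - F1` over the box, divided by `z² + |ε|`:
0.017; so there is room.) -/
def W1_stmt : Prop :=
  ∀ z ε : ℝ, |z| ≤ 1 / 16 → |ε| ≤ 3 / 256 → T0 + F1 z ε / √2 ≤ wd z (1 / 2 - ε)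

/-- **W2.** PROOF. `τ = F2 ε ε'` (`|τ| ≤ 1/60`), `x = τ/√2`; `cos (π - 2 T0 + x) = (cos x - 2 √2 sin x)/3`
because `cos (2 T0) = -1/3`, `sin (2 T0) = 2 √2/3` (`T0 ∈ (0, π/2)`).  As in W1
`cos x - 2 √2 sin x ≥ R := 1 - 2 τ - 3/10 τ²`, and it suffices
`(1/2 - z w)/(√(1-z²) √(1-w²)) ≤ R/3` with `z = 1/2 - ε`, `w = 1/2 - ε'`; square:
`9 (1/4 + (ε+ε')/2 - ε ε')² ≤ R² (3/4 + ε - ε²)(3/4 + ε' - ε'²)`, polynomial inequality for each choice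
of the signs of `ε, ε'` (with `τ = -(2/3)(ε+ε') - (|ε|+|ε'|)/40`, first order terms cancel up to
`9/16·4·(|ε|+|ε'|)/40`, the second order terms are at most `2.2 |ε ε'| + 0.1 (ε²+ε'²)` in total and
`|ε|, |ε'| ≤ 3/256`; margin ratio 0.0067). -/
def W2_stmt : Prop :=
  ∀ ε ε' : ℝ, |ε| ≤ 3 / 256 → |ε'| ≤ 3 / 256 →
    π - 2 * T0 + F2 ε ε' / √2 ≤ wd (1 / 2 - ε) (1 / 2 - ε')

/-- **V.** PROOF. `z = 1/2 - ε`, `w = -1/2 - e`, `P = √(1-z²) √(1-w²)`, `N = 1/2 - z w`; the hypothesis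
is `P cos (a-b) ≤ N`, and `cos t ≥ 1 - t²/2` (`one_sub_sq_div_two_le_cos`), so `P - N ≤ P (a-b)²/2`.
`P² - N² = 3/4 - z² - w² + z w = 3/2 (ε - e) - ε² - e² + ε e =: Q`.  If `Q ≤ 0` the claim is immediate
(the right side is `≥ 2/3 (ε² + e² - ε e) ≥ ε - e`).  If `Q > 0` then `P > N` and
`Q = (P - N)(P + N) ≤ P (P + N) (a-b)²/2 ≤ 0.585 (a-b)²` because `P ≤ 0.7625` (`P² ≤ 0.7625²`) and
`N ≤ P`; divide by `3/2`. -/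
def V_stmt : Prop :=
  ∀ ε e a b : ℝ, 0 ≤ ε → ε ≤ 3 / 256 → |e| ≤ 3 / 256 → gg (1 / 2 - ε) (-1 / 2 - e) a b ≤ 1 / 2 →
    ε - e ≤ 39 / 100 * (a - b) ^ 2 + 2 / 3 * (ε ^ 2 + e ^ 2 - ε * e)

/-- **S.** PROOF. `d = √(1 - zs²)`, `s = 1 + zs ∈ [0, 1/16]`, `d² = s (2 - s)`, so `s ≤ 16/31 d²`;
`cL = √(1 - (1/2+e)²) ∈ [0.858, 0.873]`.  The hypothesis is
`d cL cos (a-b) + e (1 - s) ≤ s/2`.  (1) if `cos ≥ 51/100` then `-e ≥ -e (1-s) ≥ d (0.4375 - 8/31 d)`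
(first `-e ≥ 0` because `d ≤ 0.35`), so `0.347 d ≤ -e ≤ 3/256`, `d ≤ 0.034`, and again
`-e ≥ 0.428 d`.  (2) `e (1-s) ≤ s/2 + d cL ≤ d (0.873 + 8/31 d) ≤ 0.8834 d` and `s ≤ 0.0009`. -/
def S_stmt : Prop :=
  ∀ zs e a b : ℝ, -1 ≤ zs → zs ≤ -15 / 16 → |e| ≤ 3 / 256 → gg zs (-1 / 2 - e) a b ≤ 1 / 2 →
    (51 / 100 ≤ cos (a - b) → √(1 - zs ^ 2) ≤ 12 / 5 * (-e)) ∧
    (√(1 - zs ^ 2) ≤ 1 / 25 → e ≤ 9 / 10 * √(1 - zs ^ 2))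

/-- **NEAR.** PROOF. Replace `a` by `a' = a + 2π m ∈ [t 0, t 0 + 2π)` (toIcoMod); it lies in one of the four
intervals `[t 0, t 1]`, ..., `[t 3, t 0 + 2π]`, whose length is at most `2 (T0 + 57/1000)`, so `a'` is at
distance `x ≤ T0 + 57/1000` from one of the end points (`≤ π`), and
`cos x ≥ cos (T0 + 57/1000) ≥ cos T0 - 57/1000 ≥ 0.577 - 0.057` (cos is 1-Lipschitz, antitone on `[0,π]`). -/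
def NEAR_stmt : Prop :=
  ∀ (t : Fin 4 → ℝ) (a : ℝ), t 0 ≤ t 1 → t 1 ≤ t 2 → t 2 ≤ t 3 → t 3 ≤ t 0 + 2 * π →
    t 1 - t 0 ≤ 2 * (T0 + 57 / 1000) → t 2 - t 1 ≤ 2 * (T0 + 57 / 1000) →
    t 3 - t 2 ≤ 2 * (T0 + 57 / 1000) → t 0 + 2 * π - t 3 ≤ 2 * (T0 + 57 / 1000) →
    ∃ k, 51 / 100 ≤ cos (a - t k)

/-- **C1** (p touches a U). PROOF. `nr y1 (1/2-ε) 1 0 = (1/2 - ε - y1/2)/(1 - y1²)` and
`2 rt² = 1 + y1 + 2 ε - 2 y1² - 2 ε² - 2 y1 ε`.  So the claim is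
`(1 - 2 ε - y1)/(1 - y1²) < (1 - 3/5 y) √(2 rt²)` (`rt/√2 = √(2 rt²)/2`); use
`√(2 rt²) ≥ 1 + (9/20)(y1 + 2ε) ...` (square) or square everything.  Margin `0.23 y`. -/
def C1_stmt : Prop :=
  ∀ y y1 ε b : ℝ, 0 < y → y ≤ 1 / 16 → |y1 - y| ≤ 11 / 50 * y → 0 ≤ ε → ε ≤ 27 / 100 * y →
    b ≤ 3 / 5 → nr y1 (1 / 2 - ε) 1 0 < (1 - b * y) / √2 * rt y1 (1 / 2 - ε)

/-- **C3** (q touches a U). `nr y2 (1/2-ε) (-1) 0 = -(1/2 - ε - y2/2)/(1 - y2²)`,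
`2 rt² = 1 + y2 + 2 ε - 2 y2² - 2 ε² - 2 y2 ε`, `√(1+t) ≤ 1 + t/2`.  Margin `0.38 y`. -/
def C3_stmt : Prop :=
  ∀ y y2 ε b : ℝ, 0 < y → y ≤ 1 / 16 → |y2 + y| ≤ 11 / 50 * y → 0 ≤ ε → ε ≤ 27 / 100 * y →
    2 / 5 ≤ b → b ≤ 1 → nr y2 (1 / 2 - ε) (-1) 0 + (1 - b * y) / √2 * rt y2 (1 / 2 - ε) < 0

/-- **C2** (p touches an L). `w = -1/2 - e`, `2 rt² = 1 - y1 - 2 e - 2 y1² - 2 e² - 2 y1 e`,
`nr y1 w 1 (3/10 y) = (w - y1/2)/(1-y1²) + (y1 - w/2)(3/10 y)/(1-w²)`.  Margin `0.20 y`. -/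
def C2_stmt : Prop :=
  ∀ y y1 e : ℝ, 0 < y → y ≤ 1 / 16 → |y1 - y| ≤ 11 / 50 * y → -(3 / 25) * y ≤ e →
    e ≤ 11 / 50 * y →
    nr y1 (-1 / 2 - e) 1 (3 / 10 * y) + (1 + y / 5) / √2 * rt y1 (-1 / 2 - e) < 0

/-- **C4** (q touches an L).  Margin `0.23 y`. -/
def C4_stmt : Prop :=
  ∀ y y2 e : ℝ, 0 < y → y ≤ 1 / 16 → |y2 + y| ≤ 11 / 50 * y → -(3 / 25) * y ≤ e →
    e ≤ 11 / 50 * y →
    nr y2 (-1 / 2 - e) (-1) (3 / 10 * y) < (1 + y / 5) / √2 * rt y2 (-1 / 2 - e)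

/-- **C6** (two L's).  Margin `0.19 y`. -/
def C6_stmt : Prop :=
  ∀ y e e' : ℝ, 0 < y → |e| ≤ 3 / 256 → |e'| ≤ 3 / 256 →
    nr (-1 / 2 - e) (-1 / 2 - e') (3 / 10 * y) (3 / 10 * y) < 0

/-- **C7** (vertical pair). PROOF. `nr = (1/2 - ε + (1/2 + e)/2) (3/10 y)/(1 - (1/2+e)²) ≤ 0.308 y`;
`√(1-z²) √(1-w²) ≥ 0.73`, `sin a ≥ min (sin (0.42 y), sin (1/2)) ≥ 0.41 y` (monotone on `[0, 1/2]`, or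
`sin a ≥ a - a³/4`), `(2 - 2/5 y)/√2 ≥ 1.39`. -/
def C7_stmt : Prop :=
  ∀ y ε e a : ℝ, 0 < y → y ≤ 1 / 16 → 0 ≤ ε → ε ≤ 3 / 256 → |e| ≤ 3 / 256 →
    3 / 5 * y / √2 ≤ a → a ≤ 1 / 2 →
    nr (1 / 2 - ε) (-1 / 2 - e) 0 (3 / 10 * y) <
      √(1 - (1 / 2 - ε) ^ 2) * √(1 - (-1 / 2 - e) ^ 2) * sin a * ((2 - 2 / 5 * y) / √2)

/-- **C8** (S' touches an L; `zs = -1` allowed, then the first quotient of `nr` is `0/0 = 0`).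
`nr = (zs - w/2) (3/10 y)/(1 - w²) ≤ -0.29 y` and `√(1-zs²) √(1-w²) (1+y/5)/√2 ≤ 0.28·0.873·0.717 y`. -/
def C8_stmt : Prop :=
  ∀ y zs e : ℝ, 0 < y → y ≤ 1 / 16 → -1 ≤ zs → zs ≤ -15 / 16 → |e| ≤ 3 / 256 →
    √(1 - zs ^ 2) ≤ 7 / 25 * y →
    nr zs (-1 / 2 - e) 0 (3 / 10 * y) + √(1 - zs ^ 2) * √(1 - (-1 / 2 - e) ^ 2) * ((1 + y / 5) / √2) < 0

end Pool.Agent.Helper54.R1
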