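import Pool.Agent.Helper54.R1.Abs

set_option autoImplicit false

/-! # Region R1: from eleven labelled points to the abstract state -/

namespace Pool.Agent.Helper54.R1

open Real Pool.Agent.Helper66.Kiss

def iU (k : Fin 4) : Fin 11 := ⟨1 + k.val, by omega⟩
def iL (k : Fin 4) : Fin 11 := ⟨6 + k.val, by omega⟩

/-- the box R1 (roles: `0 = p`, `5 = q`, `iU`, `iL`, `10 = S'`) -/
structure Box (z : Fin 11 → ℝ) : Prop where
  p : |z 0| ≤ 1 / 16
  q : |z 5| ≤ 1 / 16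
  pq : z 5 ≤ z 0
  U : ∀ k, 1 / 2 - 3 / 256 ≤ z (iU k)
  L : ∀ k, |z (iL k) + 1 / 2| ≤ 3 / 256
  S : z 10 ≤ -15 / 16

lemma iU_inj {j k : Fin 4} : iU j = iU k ↔ j = k := by revert j k; decide
lemma iL_inj {j k : Fin 4} : iL j = iL k ↔ j = k := by revert j k; decide

lemma cases11 (σ τ : Equiv.Perm (Fin 4)) (i : Fin 11) : i = 0 ∨ i = 5 ∨ i = 10 ∨
    (∃ k, i = iU (σ k)) ∨ (∃ k, i = iL (τ k)) := by
  have h : ∀ i : Fin 11, i = 0 ∨ i = 5 ∨ i = 10 ∨ (∃ k, i = iU k) ∨ (∃ k, i = iL k) := by decide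
  rcases h i with h | h | h | ⟨k, h⟩ | ⟨k, h⟩
  · exact Or.inl h
  · exact Or.inr (Or.inl h)
  · exact Or.inr (Or.inr (Or.inl h))
  · exact Or.inr (Or.inr (Or.inr (Or.inl ⟨σ.symm k, by rw [h, Equiv.apply_symm_apply]⟩)))
  · exact Or.inr (Or.inr (Or.inr (Or.inr ⟨τ.symm k, by rw [h, Equiv.apply_symm_apply]⟩)))

lemma all_pairs {Q : Fin 11 → Fin 11 → Prop} (hs : ∀ i j, Q i j → Q j i)
    (σ τ : Equiv.Perm (Fin 4)) (pq : Q 0 5) (ps : Q 0 10) (qs : Q 5 10)
    (pU : ∀ k, Q 0 (iU (σ k))) (qU : ∀ k, Q 5 (iU (σ k))) (sU : ∀ k, Q 10 (iU (σ k)))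
    (pL : ∀ k, Q 0 (iL (τ k))) (qL : ∀ k, Q 5 (iL (τ k))) (sL : ∀ k, Q 10 (iL (τ k)))
    (UU : ∀ j k, j ≠ k → Q (iU (σ j)) (iU (σ k))) (LL : ∀ j k, j ≠ k → Q (iL (τ j)) (iL (τ k)))
    (UL : ∀ j k, Q (iU (σ j)) (iL (τ k))) : ∀ i j, i ≠ j → Q i j := by
  intro i j hij
  rcases cases11 σ τ i with rfl | rfl | rfl | ⟨k, rfl⟩ | ⟨k, rfl⟩ <;>
  rcases cases11 σ τ j with rfl | rfl | rfl | ⟨l, rfl⟩ | ⟨l, rfl⟩
  · exact absurd rfl hij
  · exact pq
  · exact ps
  · exact pU l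
  · exact pL l
  · exact hs _ _ pq
  · exact absurd rfl hij
  · exact qs
  · exact qU l
  · exact qL l
  · exact hs _ _ ps
  · exact hs _ _ qs
  · exact absurd rfl hij
  · exact sU l
  · exact sL l
  · exact hs _ _ (pU k)
  · exact hs _ _ (qU k)
  · exact hs _ _ (sU k)
  · exact UU k l (fun h => hij (by rw [h]))
  · exact UL k l
  · exact hs _ _ (pL k)
  · exact hs _ _ (qL k)
  · exact hs _ _ (sL k)
  · exact hs _ _ (UL l k)
  · exact LL k l (fun h => hij (by rw [h]))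

lemma exists_fun (σ τ : Equiv.Perm (Fin 4)) (x0 x5 x10 : ℝ) (P Q : Fin 4 → ℝ) :
    ∃ f : Fin 11 → ℝ, f 0 = x0 ∧ f 5 = x5 ∧ f 10 = x10 ∧ (∀ k, f (iU (σ k)) = P k) ∧
      (∀ k, f (iL (τ k)) = Q k) := by
  refine ⟨![x0, P (σ.symm 0), P (σ.symm 1), P (σ.symm 2), P (σ.symm 3), x5, Q (τ.symm 0),
    Q (τ.symm 1), Q (τ.symm 2), Q (τ.symm 3), x10], rfl, rfl, rfl, ?_, ?_⟩
  · have h : ∀ k, ![x0, P (σ.symm 0), P (σ.symm 1), P (σ.symm 2), P (σ.symm 3), x5, Q (τ.symm 0),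
        Q (τ.symm 1), Q (τ.symm 2), Q (τ.symm 3), x10] (iU k) = P (σ.symm k) := by
      intro k; fin_cases k <;> rfl
    intro k
    rw [h, Equiv.symm_apply_apply]
  · have h : ∀ k, ![x0, P (σ.symm 0), P (σ.symm 1), P (σ.symm 2), P (σ.symm 3), x5, Q (τ.symm 0),
        Q (τ.symm 1), Q (τ.symm 2), Q (τ.symm 3), x10] (iL k) = Q (τ.symm k) := by
      intro k; fin_cases k <;> rfl
    intro k
    rw [h, Equiv.symm_apply_apply]

/-- velocities of the heights -/
noncomputable def vv (y : ℝ) : Fin 11 → ℝ :=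
  ![1, 0, 0, 0, 0, -1, 3 / 10 * y, 3 / 10 * y, 3 / 10 * y, 3 / 10 * y, 0]

lemma vv_0 (y : ℝ) : vv y 0 = 1 := rfl
lemma vv_5 (y : ℝ) : vv y 5 = -1 := rfl
lemma vv_10 (y : ℝ) : vv y 10 = 0 := rfl
lemma vv_U (y : ℝ) (k : Fin 4) : vv y (iU k) = 0 := by fin_cases k <;> rfl
lemma vv_L (y : ℝ) (k : Fin 4) : vv y (iL k) = 3 / 10 * y := by fin_cases k <;> rfl

lemma red_zero : red 0 = 0 := by
  unfold red
  rw [toIcoMod_eq_self]
  constructor <;> linarith [Real.pi_pos]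

lemma cos_red_sub (x y : ℝ) : cos (red x - red y) = cos (x - y) := by
  obtain ⟨m, hm⟩ := red_eq x
  obtain ⟨n, hn⟩ := red_eq y
  rw [hm, hn, show x + m * (2 * π) - (y + n * (2 * π)) = x - y + ((m - n : ℤ) : ℝ) * (2 * π) by
    push_cast; ring, Real.cos_add_int_mul_two_pi]

lemma sin_red_sub (x y : ℝ) : sin (red x - red y) = sin (x - y) := by
  obtain ⟨m, hm⟩ := red_eq x
  obtain ⟨n, hn⟩ := red_eq y
  rw [hm, hn, show x + m * (2 * π) - (y + n * (2 * π)) = x - y + ((m - n : ℤ) : ℝ) * (2 * π) by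
    push_cast; ring, Real.sin_add_int_mul_two_pi]

/-- conclusions on the heights -/
structure HB (z : Fin 11 → ℝ) : Prop where
  p : |z 0 - (z 0 - z 5) / 2| ≤ 11 / 50 * ((z 0 - z 5) / 2)
  q : |z 5 + (z 0 - z 5) / 2| ≤ 11 / 50 * ((z 0 - z 5) / 2)
  U : ∀ k, 1 / 2 - z (iU k) ≤ 27 / 100 * ((z 0 - z 5) / 2)
  L1 : ∀ k, -(3 / 25) * ((z 0 - z 5) / 2) ≤ -1 / 2 - z (iL k)
  L2 : ∀ k, -1 / 2 - z (iL k) ≤ 11 / 50 * ((z 0 - z 5) / 2)
  d : √(1 - z 10 ^ 2) ≤ 7 / 25 * ((z 0 - z 5) / 2)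
  Uq : ∀ k, 1 / 2 - z (iU k) ≤ 6 * ((z 0 - z 5) / 2) ^ 2
  pq : (z 0 - z 5) / 2 - 4 * ((z 0 - z 5) / 2) ^ 2 ≤ z 0

/-- all conclusions at a labelled state -/
structure CC (z φ : Fin 11 → ℝ) : Prop where
  hb : HB z
  dir : z 5 < z 0 → ∃ ψ : Fin 11 → ℝ, ∀ i j, i ≠ j →
    DG (z i) (z j) (φ i) (φ j) (vv ((z 0 - z 5) / 2) i) (vv ((z 0 - z 5) / 2) j) (ψ i) (ψ j)
  ex : z 0 = z 5 → z 0 = 0 ∧ z 5 = 0 ∧ z 10 = -1 ∧ (∀ k, z (iU k) = 1 / 2) ∧
    (∀ k, z (iL k) = -1 / 2) ∧ ∃ ψ : Fin 11 → ℝ, ∀ t : ℝ, 0 ≤ t → t ≤ 1 / 16 →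
      Fe (fun i => z i + t * vv 0 i) (fun i => φ i + t * ψ i)

theorem lab_main (K : Pcs) {z φ : Fin 11 → ℝ} (hF : Fe z φ) (hB : Box z) : CC z φ := by
  obtain ⟨hb, hgg⟩ := hF
  set θ : Fin 11 → ℝ := fun i => red (φ i - φ 0) with hθ
  have hcos : ∀ i j, cos (θ i - θ j) = cos (φ i - φ j) := by
    intro i j; rw [hθ]; simp only; rw [cos_red_sub]; congr 1; ring
  have hsin : ∀ i j, sin (θ i - θ j) = sin (φ i - φ j) := by
    intro i j; rw [hθ]; simp only; rw [sin_red_sub]; congr 1; ring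
  have hθ0 : θ 0 = 0 := by rw [hθ]; simp only; rw [sub_self, red_zero]
  have hg : ∀ i j, i ≠ j → gg (z i) (z j) (θ i) (θ j) ≤ 1 / 2 := by
    intro i j hij
    rw [gg_congr (hcos i j)]; exact hgg i j hij
  have hr : ∀ i, 0 ≤ θ i ∧ θ i ≤ 2 * π := fun i => ⟨(red_mem _).1, (red_mem _).2.le⟩
  set σ : Equiv.Perm (Fin 4) := Tuple.sort fun k => θ (iU k) with hσ
  set τ : Equiv.Perm (Fin 4) := Tuple.sort fun k => θ (iL k) with hτ
  have mσ : Monotone fun k => θ (iU (σ k)) := Tuple.monotone_sort fun k => θ (iU k)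
  have mτ : Monotone fun k => θ (iL (τ k)) := Tuple.monotone_sort fun k => θ (iL k)
  have eU : ∀ k, 1 / 2 - (1 / 2 - z (iU (σ k))) = z (iU (σ k)) := fun k => by ring
  have eL : ∀ k, -1 / 2 - (-1 / 2 - z (iL (τ k))) = z (iL (τ k)) := fun k => by ring
  have hFz : Fz (z 0) (z 5) (z 10) (θ 5) (θ 10) (fun k => 1 / 2 - z (iU (σ k)))
      (fun k => -1 / 2 - z (iL (τ k))) (fun k => θ (iU (σ k))) (fun k => θ (iL (τ k))) := by
    have n0U : ∀ k, (0 : Fin 11) ≠ iU k := by decide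
    have n5U : ∀ k, (5 : Fin 11) ≠ iU k := by decide
    have nsU : ∀ k, (10 : Fin 11) ≠ iU k := by decide
    have n0L : ∀ k, (0 : Fin 11) ≠ iL k := by decide
    have n5L : ∀ k, (5 : Fin 11) ≠ iL k := by decide
    have nsL : ∀ k, (10 : Fin 11) ≠ iL k := by decide
    have nUL : ∀ j k, iU j ≠ iL k := by decide
    refine ⟨?_, ?_, ?_, ?_, ?_, ?_, ?_, ?_, ?_, ?_, ?_, ?_⟩
    · have := hg 0 5 (by decide); rwa [hθ0] at this
    · have := hg 0 10 (by decide); rwa [hθ0] at this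
    · exact hg 5 10 (by decide)
    · intro k; simp only [eU]; have := hg 0 (iU (σ k)) (n0U _); rwa [hθ0] at this
    · intro k; simp only [eU]; exact hg 5 (iU (σ k)) (n5U _)
    · intro k; simp only [eU]; exact hg 10 (iU (σ k)) (nsU _)
    · intro k; simp only [eL]; have := hg 0 (iL (τ k)) (n0L _); rwa [hθ0] at this
    · intro k; simp only [eL]; exact hg 5 (iL (τ k)) (n5L _)
    · intro k; simp only [eL]; exact hg 10 (iL (τ k)) (nsL _)
    · intro j k hjk; simp only [eU]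
      exact hg _ _ (fun h => hjk (σ.injective (iU_inj.1 h)))
    · intro j k hjk; simp only [eL]
      exact hg _ _ (fun h => hjk (τ.injective (iL_inj.1 h)))
    · intro j k; simp only [eU, eL]; exact hg _ _ (nUL _ _)
  have hBx : Bx (z 0) (z 5) (z 10) (θ 5) (fun k => 1 / 2 - z (iU (σ k)))
      (fun k => -1 / 2 - z (iL (τ k))) (fun k => θ (iU (σ k))) (fun k => θ (iL (τ k))) := by
    refine ⟨hB.p, hB.q, hB.pq, (hb 10).1, hB.S, fun k => ?_, fun k => ?_, fun k => ?_, (hr 5).1,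
      (hr 5).2, (hr _).1, mσ (by decide), mσ (by decide), mσ (by decide), (hr _).2, (hr _).1,
      mτ (by decide), mτ (by decide), mτ (by decide), (hr _).2⟩
    · have := (hb (iU (σ k))).2; linarith
    · have := hB.U (σ k); linarith
    · have := hB.L (τ k)
      rw [← abs_neg] at this
      have e : -1 / 2 - z (iL (τ k)) = -(z (iL (τ k)) + 1 / 2) := by ring
      simp only [e]; exact this
  obtain ⟨h1, h2, h3⟩ := abs_main K hFz hBx
  have hsU : ∀ k, iU k = iU (σ (σ.symm k)) := fun k => by rw [Equiv.apply_symm_apply]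
  have hsL : ∀ k, iL k = iL (τ (τ.symm k)) := fun k => by rw [Equiv.apply_symm_apply]
  refine ⟨⟨h1.p, h1.q, fun k => ?_, fun k => ?_, fun k => ?_, h1.d, fun k => ?_, h1.pq⟩, ?_, ?_⟩
  · rw [hsU k]; exact h1.hε _
  · rw [hsL k]; exact h1.el _
  · rw [hsL k]; exact h1.eu _
  · rw [hsU k]; exact h1.εq _
  · intro hy
    obtain ⟨P, Q, hD⟩ := h2 hy
    obtain ⟨ψ, p0, p5, p10, pU, pL⟩ := exists_fun σ τ 0 0 0 P Q
    refine ⟨ψ, ?_⟩
    have key : ∀ i j, i ≠ j → DG (z i) (z j) (θ i) (θ j) (vv ((z 0 - z 5) / 2) i)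
        (vv ((z 0 - z 5) / 2) j) (ψ i) (ψ j) := by
      refine all_pairs (fun i j h => h.symm) σ τ ?_ ?_ ?_ ?_ ?_ ?_ ?_ ?_ ?_ ?_ ?_ ?_
      · rw [p0, p5, hθ0]; exact hD.pq
      · rw [p0, p10, hθ0]; exact hD.ps
      · rw [p5, p10]; exact hD.qs
      · intro k; rw [p0, pU, hθ0, vv_U]; have := hD.pU k; simp only [eU] at this; exact this
      · intro k; rw [p5, pU, vv_U]; have := hD.qU k; simp only [eU] at this; exact this
      · intro k; rw [p10, pU, vv_U]; have := hD.sU k; simp only [eU] at this; exact this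
      · intro k; rw [p0, pL, hθ0, vv_L]; have := hD.pL k; simp only [eL] at this; exact this
      · intro k; rw [p5, pL, vv_L]; have := hD.qL k; simp only [eL] at this; exact this
      · intro k; rw [p10, pL, vv_L]; have := hD.sL k; simp only [eL] at this; exact this
      · intro j k hjk; rw [pU, pU, vv_U, vv_U]; have := hD.UU j k hjk
        simp only [eU] at this; exact this
      · intro j k hjk; rw [pL, pL, vv_L, vv_L]; have := hD.LL j k hjk
        simp only [eL] at this; exact this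
      · intro j k; rw [pU, pL, vv_U, vv_L]; have := hD.UL j k
        simp only [eU, eL] at this; exact this
    intro i j hij
    exact (key i j hij).congr (hcos i j).symm (by rw [hsin])
  · intro hy
    obtain ⟨x1, x2, x3, x4, x5, P, Q, hP⟩ := h3 hy
    obtain ⟨ψ, p0, p5, p10, pU, pL⟩ := exists_fun σ τ 0 0 0 P Q
    have zU : ∀ k, z (iU k) = 1 / 2 := fun k => by
      have := congrFun x4 (σ.symm k)
      simp only [Equiv.apply_symm_apply, Pi.zero_apply] at this; linarith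
    have zL : ∀ k, z (iL k) = -1 / 2 := fun k => by
      have := congrFun x5 (τ.symm k)
      simp only [Equiv.apply_symm_apply, Pi.zero_apply] at this; linarith
    refine ⟨x1, x2, x3, zU, zL, ψ, fun t h0 h16 => ?_⟩
    have hD := hP t h0 h16
    constructor
    · intro k
      rcases cases11 σ τ k with rfl | rfl | rfl | ⟨k, rfl⟩ | ⟨k, rfl⟩ <;> beta_reduce
      · rw [vv_0, x1]; constructor <;> linarith
      · rw [vv_5, x2]; constructor <;> linarith
      · rw [vv_10, x3]; constructor <;> linarith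
      · rw [vv_U, zU]; constructor <;> linarith
      · rw [vv_L, zL]; constructor <;> linarith
    have key : ∀ i j, i ≠ j → gg (z i + t * vv 0 i) (z j + t * vv 0 j) (θ i + t * ψ i)
        (θ j + t * ψ j) ≤ 1 / 2 := by
      have f0 : z 0 + t * vv 0 0 = t := by rw [vv_0, x1]; ring
      have f5 : z 5 + t * vv 0 5 = -t := by rw [vv_5, x2]; ring
      have f10 : z 10 + t * vv 0 10 = -1 := by rw [vv_10, x3]; ring
      have fU : ∀ k, z (iU k) + t * vv 0 (iU k) = 1 / 2 := fun k => by rw [vv_U, zU]; ring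
      have fL : ∀ k, z (iL k) + t * vv 0 (iL k) = -1 / 2 := fun k => by rw [vv_L, zL]; ring
      refine all_pairs (fun i j h => by rw [gg_comm]; exact h) σ τ ?_ ?_ ?_ ?_ ?_ ?_ ?_ ?_ ?_ ?_ ?_ ?_
      · rw [f0, f5, p0, p5, hθ0, mul_zero, add_zero, add_zero]; exact hD.pq
      · rw [f0, f10, p0, p10, hθ0, mul_zero, add_zero, add_zero]; exact hD.ps
      · rw [f5, f10, p5, p10, mul_zero, add_zero, add_zero]; exact hD.qs
      · intro k; rw [f0, fU, p0, pU, hθ0, mul_zero, add_zero]; have := hD.pU k; simp only [Pi.zero_apply, sub_zero] at this; exact this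
      · intro k; rw [f5, fU, p5, pU, mul_zero, add_zero]; have := hD.qU k; simp only [Pi.zero_apply, sub_zero] at this; exact this
      · intro k; rw [f10, fU, p10, pU, mul_zero, add_zero]; have := hD.sU k; simp only [Pi.zero_apply, sub_zero] at this; exact this
      · intro k; rw [f0, fL, p0, pL, hθ0, mul_zero, add_zero]; have := hD.pL k; simp only [Pi.zero_apply, sub_zero] at this; exact this
      · intro k; rw [f5, fL, p5, pL, mul_zero, add_zero]; have := hD.qL k; simp only [Pi.zero_apply, sub_zero] at this; exact this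
      · intro k; rw [f10, fL, p10, pL, mul_zero, add_zero]; have := hD.sL k; simp only [Pi.zero_apply, sub_zero] at this; exact this
      · intro j k hjk; rw [fU, fU, pU, pU]; have := hD.UU j k hjk; simp only [Pi.zero_apply, sub_zero] at this; exact this
      · intro j k hjk; rw [fL, fL, pL, pL]; have := hD.LL j k hjk; simp only [Pi.zero_apply, sub_zero] at this; exact this
      · intro j k; rw [fU, fL, pU, pL]; have := hD.UL j k; simp only [Pi.zero_apply, sub_zero] at this; exact this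
    intro i j hij
    have := key i j hij
    rw [gg_congr (a := φ i + t * ψ i) (b := φ j + t * ψ j)] at this
    · exact this
    · rw [show θ i + t * ψ i - (θ j + t * ψ j) = (θ i - θ j) + t * (ψ i - ψ j) by ring,
        show φ i + t * ψ i - (φ j + t * ψ j) = (φ i - φ j) + t * (ψ i - ψ j) by ring,
        cos_add, cos_add, hcos, hsin]

end Pool.Agent.Helper54.R1
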