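import Pool.Agent.Helper54.R1.Lin

set_option autoImplicit false

/-! # Region R1: quadratic bounds -/

namespace Pool.Agent.Helper54.R1

open Real

theorem core2 {y1 y2 d M : ℝ} {ε e X : Fin 4 → ℝ} (H : Hts y1 y2 d M ε e)
    (hat : ∃ k, M = ε k - e k) (B : LinB y1 y2 M X)
    (V : ∀ k, ε k - e k ≤ 39 / 200 * X k ^ 2 + 2 / 3 * (ε k ^ 2 + e k ^ 2 - ε k * e k)) :
    M ≤ 48 / 25 * ((y1 - y2) / 2) ^ 2 ∧ (∀ k, ε k ≤ 6 * ((y1 - y2) / 2) ^ 2) ∧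
    (y1 - y2) / 2 - 4 * ((y1 - y2) / 2) ^ 2 ≤ y1 := by
  obtain ⟨hy1, hy2, hle, hε0, hερ, heρ, hM, he2, hd0, hdM⟩ := H
  obtain ⟨Bu, Bl, Bs1, Bs2⟩ := B
  have hM0 : 0 ≤ M := by linarith
  have hem : ∀ k, -M ≤ e k := fun k => by have := hM k; have := hε0 k; linarith
  have a1 := abs_le.1 hy1
  have a2 := abs_le.1 hy2
  obtain ⟨y, hy⟩ : ∃ y, y = (y1 - y2) / 2 := ⟨_, rfl⟩
  obtain ⟨s, hs⟩ : ∃ s, s = (y1 + y2) / 2 := ⟨_, rfl⟩
  have hy1' : y1 = y + s := by linarith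
  have hy2' : y2 = s - y := by linarith
  have hy0 : 0 ≤ y := by linarith
  have hy16 : y ≤ 1 / 16 := by linarith
  have hsq : y1 ^ 2 + y2 ^ 2 = 2 * y ^ 2 + 2 * s ^ 2 := by rw [hy1', hy2']; ring
  have hs16 : |s| ≤ 1 / 16 := abs_le.2 ⟨by linarith, by linarith⟩
  have hss : s ^ 2 ≤ 1 / 16 * |s| := by
    rw [← sq_abs, sq]; exact mul_le_mul_of_nonneg_right hs16 (abs_nonneg s)
  have hyy : y ^ 2 ≤ 1 / 16 * y := by
    rw [sq]; exact mul_le_mul_of_nonneg_right hy16 hy0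
  have hy20 := sq_nonneg y
  have hsb : |s| ≤ 9 / 10 * y ^ 2 + 1335 / 1000 * M := by
    have h1 : |s| ≤ 17 / 20 * (y ^ 2 + s ^ 2) + 126 / 100 * M := by
      exact abs_le.2 ⟨by linarith, by linarith⟩
    linarith
  have hs2 : 34 / 10 * s ^ 2 ≤ 2 / 10 * y ^ 2 + 3 / 10 * M := by linarith
  have hXu : ∀ k, X k ≤ 2 * y + 36 / 10 * y ^ 2 + 71 / 10 * M := by
    intro k
    have := Bu k
    linarith
  have hXl : ∀ k, 2 * y - 36 / 10 * y ^ 2 - 71 / 10 * M ≤ X k := by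
    intro k
    have := Bl k
    linarith
  have hMy : M ≤ 48 / 25 * y ^ 2 := by
    obtain ⟨k, hk⟩ := hat
    have h2 : M ≤ 3 / 128 := by
      rw [hk]; have := hερ k; have := (abs_le.1 (heρ k)).1; linarith
    refine boot hy0 hy16 hM0 h2 hk (hem k) (he2 k) (V k) (hXu k) ?_
    have := hXl k
    linarith
  rw [← hy]
  refine ⟨hMy, fun k => ?_, ?_⟩
  · have h1 := hM k
    have h2 := he2 k
    linarith
  · have := (abs_le.1 hsb).1
    linarith [neg_abs_le s]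

end Pool.Agent.Helper54.R1
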