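import Pool.Agent.Helper54.R1.Lab

set_option autoImplicit false

/-! # Region R1: uniform gain at every state of the box (FCC and HCP included) -/

namespace Pool.Agent.Helper54.R1

open Real Set Filter Topology Pool.Agent.Helper66.Kiss

/-- admissible constraint sets and functionals -/
structure Adm (R : Set (Fin 11 → ℝ)) (Φ : (Fin 11 → ℝ) → ℝ) : Prop where
  Φeq : ∀ (ρ : Equiv.Perm (Fin 11)) (z : Fin 11 → ℝ), (∀ k, z (ρ 0) ≤ z (ρ (iU k))) →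
    z (ρ 5) ≤ z (ρ 0) → (∀ k, z (ρ (iL k)) ≤ z (ρ 0)) → z (ρ 10) ≤ z (ρ 0) →
    Φ z = z (ρ 0) + ∑ k, z (ρ (iU k))
  Rst : ∀ (k : Fin 11) (z z' : Fin 11 → ℝ), z ∈ R → z k ≤ -9 / 10 → z' k = z k →
    (∀ j, j ≠ k → -3 / 4 ≤ z j) → (∀ j, j ≠ k → -3 / 4 ≤ z' j) →
    (∀ j, -1 ≤ z' j ∧ z' j ≤ 1 / 2) → Φ z ≤ Φ z' → z' ∈ R

lemma fe_comp {z φ : Fin 11 → ℝ} (h : Fe z φ) (ρ : Equiv.Perm (Fin 11)) : Fe (z ∘ ρ) (φ ∘ ρ) :=
  ⟨fun k => h.1 (ρ k), fun i j hij => h.2 (ρ i) (ρ j) (fun e => hij (ρ.injective e))⟩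

lemma ev_close (v z : Fin 11 → ℝ) {r : ℝ} (hr : 0 < r) :
    ∀ᶠ p : (Fin 11 → ℝ) × ℝ in 𝓝 (z, 0), ∀ i, |p.1 i - z i| < r ∧
      |mv (fun _ => v) p.1 p.2 i - z i| < r := by
  rw [eventually_all]
  intro i
  have h1 : ContinuousAt (fun p : (Fin 11 → ℝ) × ℝ => |p.1 i - z i|) (z, 0) := by
    apply Continuous.continuousAt; fun_prop
  have h2 : ContinuousAt (fun p : (Fin 11 → ℝ) × ℝ => |mv (fun _ => v) p.1 p.2 i - z i|) (z, 0) := by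
    apply Continuous.continuousAt; unfold mv; fun_prop
  have e1 := h1.eventually (gt_mem_nhds (show |z i - z i| < r by simpa using hr))
  have e2 := h2.eventually (gt_mem_nhds (show |mv (fun _ => v) z 0 i - z i| < r by
    simpa [mv] using hr))
  exact e1.and e2

/-- facts on the heights in the box, in the original labels -/
lemma box_facts {z : Fin 11 → ℝ} {ρ : Equiv.Perm (Fin 11)} (hB : Box (z ∘ ρ)) :
    |z (ρ 0)| ≤ 1 / 16 ∧ |z (ρ 5)| ≤ 1 / 16 ∧ z (ρ 5) ≤ z (ρ 0) ∧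
    (∀ k, 1 / 2 - 3 / 256 ≤ z (ρ (iU k))) ∧ (∀ k, |z (ρ (iL k)) + 1 / 2| ≤ 3 / 256) ∧
    z (ρ 10) ≤ -15 / 16 := ⟨hB.p, hB.q, hB.pq, hB.U, hB.L, hB.S⟩

lemma casesρ (ρ : Equiv.Perm (Fin 11)) (i : Fin 11) : i = ρ 0 ∨ i = ρ 5 ∨ i = ρ 10 ∨
    (∃ k, i = ρ (iU k)) ∨ (∃ k, i = ρ (iL k)) := by
  have h := cases11 1 1 (ρ.symm i)
  simp only [Equiv.symm_apply_eq] at h
  exact h

/-- the velocity in the original labels -/
noncomputable def vel (ρ : Equiv.Perm (Fin 11)) (y : ℝ) : Fin 11 → ℝ := fun i => vv y (ρ.symm i)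

lemma vel_ρ (ρ : Equiv.Perm (Fin 11)) (y : ℝ) (i : Fin 11) : vel ρ y (ρ i) = vv y i := by
  unfold vel; rw [Equiv.symm_apply_apply]

lemma mv_0 (ρ : Equiv.Perm (Fin 11)) (y : ℝ) (z : Fin 11 → ℝ) (t : ℝ) :
    mv (fun _ => vel ρ y) z t (ρ 0) = z (ρ 0) + t := by
  show z (ρ 0) + t * vel ρ y (ρ 0) = _
  rw [vel_ρ, vv_0, mul_one]
lemma mv_5 (ρ : Equiv.Perm (Fin 11)) (y : ℝ) (z : Fin 11 → ℝ) (t : ℝ) :
    mv (fun _ => vel ρ y) z t (ρ 5) = z (ρ 5) - t := by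
  show z (ρ 5) + t * vel ρ y (ρ 5) = _
  rw [vel_ρ, vv_5]; ring
lemma mv_10 (ρ : Equiv.Perm (Fin 11)) (y : ℝ) (z : Fin 11 → ℝ) (t : ℝ) :
    mv (fun _ => vel ρ y) z t (ρ 10) = z (ρ 10) := by
  show z (ρ 10) + t * vel ρ y (ρ 10) = _
  rw [vel_ρ, vv_10]; ring
lemma mv_U (ρ : Equiv.Perm (Fin 11)) (y : ℝ) (z : Fin 11 → ℝ) (t : ℝ) (k : Fin 4) :
    mv (fun _ => vel ρ y) z t (ρ (iU k)) = z (ρ (iU k)) := by
  show z (ρ (iU k)) + t * vel ρ y (ρ (iU k)) = _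
  rw [vel_ρ, vv_U]; ring

lemma dir_of (K : Pcs) {z φ : Fin 11 → ℝ} (hF : Fe z φ) (ρ : Equiv.Perm (Fin 11))
    (hB : Box (z ∘ ρ)) (hy : z (ρ 5) < z (ρ 0)) : ∃ ψ : Fin 11 → ℝ, ∀ i j, i ≠ j →
      gg (z i) (z j) (φ i) (φ j) = 1 / 2 →
      nr (z i) (z j) (vel ρ ((z (ρ 0) - z (ρ 5)) / 2) i) (vel ρ ((z (ρ 0) - z (ρ 5)) / 2) j) -
        √(1 - z i ^ 2) * √(1 - z j ^ 2) * sin (φ i - φ j) * (ψ i - ψ j) < 0 := by
  obtain ⟨ψ, hψ⟩ := (lab_main K (fe_comp hF ρ) hB).dir hy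
  refine ⟨fun i => ψ (ρ.symm i), fun i j hij hg => ?_⟩
  have := hψ (ρ.symm i) (ρ.symm j) (fun e => hij (ρ.symm.injective e))
  simp only [Function.comp, Equiv.apply_symm_apply] at this
  exact this hg

lemma pole_of {z : Fin 11 → ℝ} {ρ : Equiv.Perm (Fin 11)} (hz : ∀ k, -1 ≤ z k)
    (hB : Box (z ∘ ρ)) (y : ℝ) (k : Fin 11) :
    -1 < z k ∨ (z k = -1 ∧ ∀ᶠ z' : Fin 11 → ℝ in 𝓝 z, (fun _ : Fin 11 → ℝ => vel ρ y) z' k = 0) := by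
  obtain ⟨h1, h2, h3, h4, h5, h6⟩ := box_facts hB
  have a1 := abs_le.1 h1
  have a2 := abs_le.1 h2
  rcases casesρ ρ k with rfl | rfl | rfl | ⟨k, rfl⟩ | ⟨k, rfl⟩
  · left; linarith
  · left; linarith
  · rcases (hz (ρ 10)).lt_or_eq with h | h
    · exact Or.inl h
    · exact Or.inr ⟨h.symm, Eventually.of_forall fun _ => by
        show vel ρ y (ρ 10) = 0; rw [vel_ρ, vv_10]⟩
  · left; linarith [h4 k]
  · left; linarith [(abs_le.1 (h5 k)).1]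

theorem gain_pos (K : Pcs) {R : Set (Fin 11 → ℝ)} {Φ : (Fin 11 → ℝ) → ℝ} (A : Adm R Φ)
    {z φ : Fin 11 → ℝ} (hF : Fe z φ) (ρ : Equiv.Perm (Fin 11)) (hB : Box (z ∘ ρ))
    (hy : z (ρ 5) < z (ρ 0)) : Gain R Φ z φ := by
  obtain ⟨h1, h2, h3, h4, h5, h6⟩ := box_facts hB
  have a1 := abs_le.1 h1
  have a2 := abs_le.1 h2
  obtain ⟨y, hyd⟩ : ∃ y, y = (z (ρ 0) - z (ρ 5)) / 2 := ⟨_, rfl⟩
  obtain ⟨ψ, hψ⟩ := dir_of K hF ρ hB hy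
  rw [← hyd] at hψ
  obtain ⟨r, hrd⟩ : ∃ r, r = min (1 / 100) ((z (ρ 0) - z (ρ 5)) / 4) := ⟨_, rfl⟩
  have hr1 : r ≤ 1 / 100 := by rw [hrd]; exact min_le_left _ _
  have hr2 : r ≤ (z (ρ 0) - z (ρ 5)) / 4 := by rw [hrd]; exact min_le_right _ _
  have hr0 : 0 < r := by rw [hrd]; exact lt_min (by norm_num) (by linarith)
  have main : ∀ᶠ p : (Fin 11 → ℝ) × ℝ in 𝓝 (z, 0), p.1 ∈ R → (∀ k, -1 ≤ p.1 k ∧ p.1 k ≤ 1 / 2) →
      0 ≤ p.2 → (mv (fun _ => vel ρ y) p.1 p.2 ∈ R ∧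
        (∀ k, -1 ≤ mv (fun _ => vel ρ y) p.1 p.2 k ∧ mv (fun _ => vel ρ y) p.1 p.2 k ≤ 1 / 2)) ∧
        Φ p.1 + 1 * p.2 ≤ Φ (mv (fun _ => vel ρ y) p.1 p.2) := by
    filter_upwards [ev_close (vel ρ y) z hr0] with p hp hR hb h0
    have c : ∀ i, -r < p.1 i - z i ∧ p.1 i - z i < r := fun i => abs_lt.1 (hp i).1
    have m : ∀ i, -r < mv (fun _ => vel ρ y) p.1 p.2 i - z i ∧
      mv (fun _ => vel ρ y) p.1 p.2 i - z i < r := fun i => abs_lt.1 (hp i).2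
    have e1 : Φ p.1 = p.1 (ρ 0) + ∑ k, p.1 (ρ (iU k)) := by
      apply A.Φeq ρ p.1
      · intro k; linarith [c (ρ 0), c (ρ (iU k)), h4 k]
      · linarith [c (ρ 0), c (ρ 5)]
      · intro k; linarith [c (ρ 0), c (ρ (iL k)), (abs_le.1 (h5 k)).2]
      · linarith [c (ρ 0), c (ρ 10)]
    have e2 : Φ (mv (fun _ => vel ρ y) p.1 p.2) = p.1 (ρ 0) + p.2 + ∑ k, p.1 (ρ (iU k)) := by
      rw [A.Φeq ρ]
      · rw [mv_0]; simp only [mv_U]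
      · intro k; linarith [m (ρ 0), m (ρ (iU k)), h4 k]
      · linarith [m (ρ 0), m (ρ 5)]
      · intro k; linarith [m (ρ 0), m (ρ (iL k)), (abs_le.1 (h5 k)).2]
      · linarith [m (ρ 0), m (ρ 10)]
    have hbd : ∀ k, -1 ≤ mv (fun _ => vel ρ y) p.1 p.2 k ∧
        mv (fun _ => vel ρ y) p.1 p.2 k ≤ 1 / 2 := by
      intro k
      rcases casesρ ρ k with rfl | rfl | rfl | ⟨k, rfl⟩ | ⟨k, rfl⟩
      · constructor <;> linarith [m (ρ 0)]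
      · constructor <;> linarith [m (ρ 5)]
      · rw [mv_10]; exact hb _
      · rw [mv_U]; exact hb _
      · have := abs_le.1 (h5 k)
        constructor <;> linarith [m (ρ (iL k))]
    have hne : ∀ (w : Fin 11 → ℝ), (∀ i, -r < w i - z i) → ∀ j, j ≠ ρ 10 → -3 / 4 ≤ w j := by
      intro w hw j hj
      rcases casesρ ρ j with rfl | rfl | rfl | ⟨k, rfl⟩ | ⟨k, rfl⟩
      · linarith [hw (ρ 0)]
      · linarith [hw (ρ 5)]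
      · exact absurd rfl hj
      · linarith [hw (ρ (iU k)), h4 k]
      · linarith [hw (ρ (iL k)), (abs_le.1 (h5 k)).1]
    refine ⟨⟨A.Rst (ρ 10) p.1 _ hR (by linarith [c (ρ 10)]) (mv_10 _ _ _ _)
      (hne _ fun i => (c i).1) (hne _ fun i => (m i).1) hbd (by rw [e1, e2]; linarith), hbd⟩, ?_⟩
    rw [e1, e2]; linarith
  have hG : GoodDir R Φ z φ (fun _ => vel ρ y) 1 := by
    refine ⟨one_pos, fun k => contDiffAt_const, pole_of (fun k => (hF.1 k).1) hB y, ?_, ?_, ⟨ψ, hψ⟩⟩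
    · filter_upwards [main] with p hp h1 h2 h3 using (hp h1 h2 h3).1
    · filter_upwards [main] with p hp h1 h2 h3 using (hp h1 h2 h3).2
  exact hG.toGain hF

lemma isClosed_box (ρ : Equiv.Perm (Fin 11)) : IsClosed {w : Fin 11 → ℝ | Box (w ∘ ρ)} := by
  have e : {w : Fin 11 → ℝ | Box (w ∘ ρ)} = {w | |w (ρ 0)| ≤ 1 / 16} ∩ {w | |w (ρ 5)| ≤ 1 / 16} ∩
      {w | w (ρ 5) ≤ w (ρ 0)} ∩ (⋂ k, {w | 1 / 2 - 3 / 256 ≤ w (ρ (iU k))}) ∩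
      (⋂ k, {w | |w (ρ (iL k)) + 1 / 2| ≤ 3 / 256}) ∩ {w | w (ρ 10) ≤ -15 / 16} := by
    ext w
    simp only [mem_inter_iff, mem_iInter, mem_ofPred_eq]
    constructor
    · intro h; exact ⟨⟨⟨⟨⟨h.p, h.q⟩, h.pq⟩, h.U⟩, h.L⟩, h.S⟩
    · rintro ⟨⟨⟨⟨⟨h1, h2⟩, h3⟩, h4⟩, h5⟩, h6⟩; exact ⟨h1, h2, h3, h4, h5, h6⟩
  rw [e]
  refine ((((((isClosed_le (by fun_prop) continuous_const).inter
    (isClosed_le (by fun_prop) continuous_const)).inter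
    (isClosed_le (by fun_prop) (by fun_prop))).inter
    (isClosed_iInter fun k => isClosed_le continuous_const (by fun_prop))).inter
    (isClosed_iInter fun k => isClosed_le (by fun_prop) continuous_const)).inter
    (isClosed_le (by fun_prop) continuous_const))

end Pool.Agent.Helper54.R1
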