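import Pool.Agent.Helper54.R1.Geo
import Pool.Agent.Helper54.R1.Lin2

set_option autoImplicit false

/-! # Region R1: the FCC order -/

namespace Pool.Agent.Helper54.R1

open Real Pool.Agent.Helper66.Kiss

lemma gg_flip (z w a b : ℝ) : gg z w a b = gg z w b a := by
  unfold gg; rw [← cos_neg (a - b), neg_sub]

lemma unsc {x k : ℝ} (hk : 0 ≤ k) (h : √2 * x ≤ 7 / 5 * k) : x ≤ k := by
  have h2 : (7 : ℝ) / 5 ≤ √2 := Real.le_sqrt_of_sq_le (by norm_num)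
  by_contra hc
  push Not at hc
  have h3 : 7 / 5 * x ≤ √2 * x := mul_le_mul_of_nonneg_right h2 (by linarith)
  linarith

/-- the scaled edge inequalities -/
lemma edgesF (W1 : W1_stmt) (W2 : W2_stmt) {y1 y2 zs c s : ℝ} {ε e a b : Fin 4 → ℝ}
    (hF : Fz y1 y2 zs c s ε e a b) (hB : Bx y1 y2 zs c ε e a b)
    (ha1 : a 1 ≤ c) (ha2 : c ≤ a 2) (hb1 : b 1 ≤ c) (hb2 : c ≤ b 2) :
    EdgeF y1 y2 ε e (fun k => √2 * (a k - AF k)) (fun k => √2 * (b k - AF k)) (√2 * (c - π)) := by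
  obtain ⟨hy1, hy2, hle, hz0, hz1, hε0, hερ, heρ, c0, c1, a0, a01, a12, a23, a3, b0, b01, b12, b23,
    b3⟩ := hB
  have hpi := Real.pi_pos
  refine ⟨?_, ?_, ?_, ?_, ?_, ?_, ?_, ?_, ?_, ?_, ?_, ?_⟩
  · have := (edge_U W1 hy1 (hε0 0) (hερ 0) (hF.pU 0) (by linarith) (by linarith)).1
    simpa [AF] using this
  · have := edge_UU W2 (hε0 0) (hερ 0) (hε0 1) (hερ 1) (hF.UU 0 1 (by decide)) (by linarith)
      (by linarith)
    simp only [AF]; simp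
    linarith
  · have := (edge_U W1 hy2 (hε0 1) (hερ 1) (by rw [gg_flip]; exact hF.qU 1)
      (by linarith) (by linarith)).1
    simp only [AF]; simp
    linarith
  · have := (edge_U W1 hy2 (hε0 2) (hερ 2) (hF.qU 2) (by linarith) (by linarith)).1
    simp only [AF]; simp
    linarith
  · have := edge_UU W2 (hε0 2) (hερ 2) (hε0 3) (hερ 3) (hF.UU 2 3 (by decide)) (by linarith)
      (by linarith)
    simp only [AF]; simp
    linarith
  · have := (edge_U W1 hy1 (hε0 3) (hερ 3) (hF.pU 3) (by linarith) (by linarith)).2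
    simp only [AF]; simp
    linarith
  · have := (edge_L W1 hy1 (heρ 0) (hF.pL 0) (by linarith) (by linarith)).1
    simpa [AF] using this
  · have := edge_LL W2 (heρ 0) (heρ 1) (hF.LL 0 1 (by decide)) (by linarith)
      (by linarith)
    simp only [AF]; simp
    linarith
  · have := (edge_L W1 hy2 (heρ 1) (by rw [gg_flip]; exact hF.qL 1)
      (by linarith) (by linarith)).1
    simp only [AF]; simp
    linarith
  · have := (edge_L W1 hy2 (heρ 2) (hF.qL 2) (by linarith) (by linarith)).1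
    simp only [AF]; simp
    linarith
  · have := edge_LL W2 (heρ 2) (heρ 3) (hF.LL 2 3 (by decide)) (by linarith)
      (by linarith)
    simp only [AF]; simp
    linarith
  · have := (edge_L W1 hy1 (heρ 3) (hF.pL 3) (by linarith) (by linarith)).2
    simp only [AF]; simp
    linarith

/-- numerical bounds of `F1`, `F2` from below -/
lemma F1_ge {z ε : ℝ} (hz : |z| ≤ 1 / 16) (h : |ε| ≤ 3 / 256) : -(764 / 10000) ≤ F1 z ε := by
  have h1 := abs_le.1 hz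
  have h2 := abs_le.1 h
  have h3 : z ^ 2 ≤ 1 / 256 := by
    have := sq_le_sq' h1.1 h1.2
    norm_num at this ⊢
    exact this
  unfold F1
  linarith

lemma F2_ge {ε ε' : ℝ} (h : |ε| ≤ 3 / 256) (h' : |ε'| ≤ 3 / 256) : -(163 / 10000) ≤ F2 ε ε' := by
  have h1 := abs_le.1 h
  have h2 := abs_le.1 h'
  unfold F2
  linarith

lemma F2_comm (ε ε' : ℝ) : F2 ε ε' = F2 ε' ε := by unfold F2; ring

lemma F12_ge {z ε ε' : ℝ} (hz : |z| ≤ 1 / 16) (h : |ε| ≤ 3 / 256) (h' : |ε'| ≤ 3 / 256) :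
    -(78 / 1000) ≤ F1 z ε + F2 ε ε' := by
  have h1 := abs_le.1 hz
  have h2 := abs_le.1 h
  have h4 := abs_le.1 h'
  have h3 : z ^ 2 ≤ 1 / 256 := by
    have := sq_le_sq' h1.1 h1.2
    norm_num at this ⊢
    exact this
  unfold F1 F2
  linarith

lemma winF {y1 y2 c q : ℝ} {ε a u : Fin 4 → ℝ} (hy1 : |y1| ≤ 1 / 16) (hy2 : |y2| ≤ 1 / 16)
    (hε : ∀ k, |ε k| ≤ 3 / 256) (hu : ∀ k, u k = √2 * (a k - AF k)) (hq : q = √2 * (c - π))
    (e1 : F1 y1 (ε 0) ≤ u 0) (e2 : F2 (ε 0) (ε 1) ≤ u 1 - u 0) (e3 : F1 y2 (ε 1) ≤ q - u 1)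
    (e4 : F1 y2 (ε 2) ≤ u 2 - q) (e5 : F2 (ε 2) (ε 3) ≤ u 3 - u 2) (e6 : F1 y1 (ε 3) ≤ -u 3) :
    WinF c a := by
  have f1 := F1_ge hy1 (hε 0)
  have f2 := F2_ge (hε 0) (hε 1)
  have f3 := F1_ge hy2 (hε 1)
  have f4 := F1_ge hy2 (hε 2)
  have f5 := F2_ge (hε 2) (hε 3)
  have f6 := F1_ge hy1 (hε 3)
  have v0 := hu 0
  have v1 := hu 1
  have v2 := hu 2
  have v3 := hu 3
  simp only [AF] at v0 v1 v2 v3
  simp at v0 v1 v2 v3
  refine ⟨?_, ?_, ?_, ?_, ?_, ?_, ?_, ?_, ?_, ?_, ?_, ?_⟩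
  · have := unsc (x := T0 - a 0) (k := 1 / 5) (by norm_num) (by linarith); linarith
  · have := unsc (x := a 0 - T0) (k := 1 / 5) (by norm_num) (by linarith); linarith
  · have := unsc (x := π - T0 - a 1) (k := 1 / 5) (by norm_num) (by linarith); linarith
  · have := unsc (x := a 1 - (π - T0)) (k := 1 / 5) (by norm_num) (by linarith); linarith
  · have := unsc (x := π - c) (k := 1 / 5) (by norm_num) (by linarith); linarith
  · have := unsc (x := c - π) (k := 1 / 5) (by norm_num) (by linarith); linarith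
  · have := unsc (x := π + T0 - a 2) (k := 1 / 5) (by norm_num) (by linarith); linarith
  · have := unsc (x := a 2 - (π + T0)) (k := 1 / 5) (by norm_num) (by linarith); linarith
  · have := unsc (x := 2 * π - T0 - a 3) (k := 1 / 5) (by norm_num) (by linarith); linarith
  · have := unsc (x := a 3 - (2 * π - T0)) (k := 1 / 5) (by norm_num) (by linarith); linarith
  · have := unsc (x := a 3 - a 0 - (2 * π - 2 * T0)) (k := 1 / 8) (by norm_num) (by linarith)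
    linarith
  · have := unsc (x := 2 * T0 - (a 2 - a 1)) (k := 1 / 8) (by norm_num) (by linarith)
    linarith

lemma hts_of (S2 : S2_stmt) (N3 : NEAR3_stmt) {y1 y2 zs c s : ℝ} {ε e a b : Fin 4 → ℝ}
    (hF : Fz y1 y2 zs c s ε e a b) (hB : Bx y1 y2 zs c ε e a b)
    (g0 : b 1 - b 0 ≤ 2 * (T0 + 65 / 1000)) (g1 : b 2 - b 1 ≤ 2 * (T0 + 65 / 1000))
    (g2 : b 3 - b 2 ≤ 2 * (T0 + 65 / 1000)) (g3 : b 0 + 2 * π - b 3 ≤ 2 * (T0 + 65 / 1000)) :
    ∃ M, (∃ k, M = ε k - e k) ∧ Hts y1 y2 (√(1 - zs ^ 2)) M ε e ∧ √(1 - zs ^ 2) ≤ 29 / 1000 := by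
  obtain ⟨k0, hk0⟩ := Finite.exists_max fun k => ε k - e k
  obtain ⟨k, hk⟩ := N3 b s hB.b01 hB.b12 hB.b23 (by linarith [hB.b3, hB.b0]) g0 g1 g2 g3
  have h1 := (S2 zs (e k) s (b k) hB.zs0 hB.zs1 (hB.eρ k) (hF.sL k)).1 hk
  have h2 := abs_le.1 (hB.eρ k)
  have h3 := hk0 k
  have h4 := hB.ε0 k
  have hd : √(1 - zs ^ 2) ≤ 29 / 1000 := by linarith
  refine ⟨ε k0 - e k0, ⟨k0, rfl⟩, ⟨hB.hy1, hB.hy2, hB.le, hB.ε0, hB.ερ, hB.eρ, hk0, ?_,
    Real.sqrt_nonneg _, by linarith⟩, hd⟩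
  intro j
  have h5 := (S2 zs (e j) s (b j) hB.zs0 hB.zs1 (hB.eρ j) (hF.sL j)).2.1 (by linarith)
  linarith

lemma v_of (V : V_stmt) {y1 y2 zs c s : ℝ} {ε e a b X : Fin 4 → ℝ}
    (hF : Fz y1 y2 zs c s ε e a b) (hB : Bx y1 y2 zs c ε e a b)
    (hX : ∀ k, X k ^ 2 = 2 * (a k - b k) ^ 2) (k : Fin 4) :
    ε k - e k ≤ 39 / 200 * X k ^ 2 + 2 / 3 * (ε k ^ 2 + e k ^ 2 - ε k * e k) := by
  have := V (ε k) (e k) (a k) (b k) (hB.ε0 k) (hB.ερ k) (hB.eρ k) (hF.UL k k)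
  rw [hX k]; linarith

lemma sq_YF (a b : Fin 4 → ℝ) (k : Fin 4) : YF a b k ^ 2 = 2 * (a k - b k) ^ 2 := by
  have h2 : √2 ^ 2 = (2 : ℝ) := Real.sq_sqrt (by norm_num)
  fin_cases k
  · show (√2 * (a 0 - b 0)) ^ 2 = 2 * (a 0 - b 0) ^ 2
    rw [mul_pow, h2]
  · show (√2 * (a 1 - b 1)) ^ 2 = 2 * (a 1 - b 1) ^ 2
    rw [mul_pow, h2]
  · show (√2 * (b 2 - a 2)) ^ 2 = 2 * (a 2 - b 2) ^ 2
    rw [mul_pow, h2]; ring
  · show (√2 * (b 3 - a 3)) ^ 2 = 2 * (a 3 - b 3) ^ 2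
    rw [mul_pow, h2]; ring

lemma XF_eq (a b : Fin 4 → ℝ) :
    XF (fun k => √2 * (a k - AF k)) (fun k => √2 * (b k - AF k)) = YF a b := by
  funext k
  fin_cases k
  · show √2 * (a 0 - AF 0) - √2 * (b 0 - AF 0) = √2 * (a 0 - b 0)
    ring
  · show √2 * (a 1 - AF 1) - √2 * (b 1 - AF 1) = √2 * (a 1 - b 1)
    ring
  · show √2 * (b 2 - AF 2) - √2 * (a 2 - AF 2) = √2 * (b 2 - a 2)
    ring
  · show √2 * (b 3 - AF 3) - √2 * (a 3 - AF 3) = √2 * (b 3 - a 3)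
    ring

lemma F1_zero : F1 0 0 = 0 := by simp [F1]
lemma F2_zero : F2 0 0 = 0 := by simp [F2]

lemma zs_eq {zs : ℝ} (h : zs ≤ -15 / 16) (h1 : -1 ≤ zs) (hd : √(1 - zs ^ 2) ≤ 0) : zs = -1 := by
  have h2 : √(1 - zs ^ 2) = 0 := le_antisymm hd (Real.sqrt_nonneg _)
  rw [Real.sqrt_eq_zero'] at h2
  nlinarith

/-- exact heights when `y = 0` -/
lemma exact_heights {y1 y2 zs c : ℝ} {ε e a b X : Fin 4 → ℝ} (hB : Bx y1 y2 zs c ε e a b)
    (h : Bnd ((y1 - y2) / 2) y1 y2 (√(1 - zs ^ 2)) ε e X) (hy : y1 = y2) :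
    y1 = 0 ∧ y2 = 0 ∧ zs = -1 ∧ ε = 0 ∧ e = 0 := by
  obtain ⟨h0, h1, hp, hq, hε, hel, heu, hd, -, -⟩ := h
  subst hy
  rw [sub_self, zero_div] at *
  have e1 := abs_le.1 hp
  have e2 : y1 = 0 := by linarith [e1.1, e1.2]
  refine ⟨e2, e2, zs_eq hB.zs1 hB.zs0 (by linarith), ?_, ?_⟩
  · funext k
    have := hε k
    have := hB.ε0 k
    simp only [Pi.zero_apply]; linarith
  · funext k
    have := hel k
    have := heu k
    simp only [Pi.zero_apply]; linarith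

theorem ordF (W1 : W1_stmt) (W2 : W2_stmt) (V : V_stmt) (S2 : S2_stmt) (N3 : NEAR3_stmt)
    {y1 y2 zs c s : ℝ} {ε e a b : Fin 4 → ℝ}
    (hF : Fz y1 y2 zs c s ε e a b) (hB : Bx y1 y2 zs c ε e a b)
    (ha1 : a 1 ≤ c) (ha2 : c ≤ a 2) (hb1 : b 1 ≤ c) (hb2 : c ≤ b 2) :
    WinF c a ∧ WinF c b ∧ Bnd ((y1 - y2) / 2) y1 y2 (√(1 - zs ^ 2)) ε e (YF a b) ∧
    (∀ k, ε k ≤ 6 * ((y1 - y2) / 2) ^ 2) ∧
    (y1 - y2) / 2 - 4 * ((y1 - y2) / 2) ^ 2 ≤ y1 ∧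
    (y1 = y2 → y1 = 0 ∧ y2 = 0 ∧ zs = -1 ∧ ε = 0 ∧ e = 0 ∧ c = π ∧ a = AF ∧ b = AF) := by
  have E := edgesF W1 W2 hF hB ha1 ha2 hb1 hb2
  have hpi := Real.pi_gt_three
  have hT := T0_lo
  have hT' := T0_hi
  have hεabs : ∀ k, |ε k| ≤ 3 / 256 := fun k => abs_le.2 ⟨by linarith [hB.ε0 k], hB.ερ k⟩
  have heabs : ∀ k, |(-e) k| ≤ 3 / 256 := fun k => by
    simp only [Pi.neg_apply, abs_neg]; exact hB.eρ k
  have WA := winF (a := a) hB.hy1 hB.hy2 hεabs (fun _ => rfl) rfl E.uA1 E.uA2 E.uA3 E.uB1 E.uB2 E.uB3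
  have WB := winF (y1 := -y1) (y2 := -y2) (ε := -e) (a := b) (by rw [abs_neg]; exact hB.hy1)
    (by rw [abs_neg]; exact hB.hy2) heabs
    (fun _ => rfl) rfl E.lA1 E.lA2 E.lA3 E.lB1 E.lB2 E.lB3
  refine ⟨WA, WB, ?_⟩
  -- gaps
  have f1 := F1_ge (z := -y1) (ε := -e 0) (by rw [abs_neg]; exact hB.hy1) (heabs 0)
  have f2 := F2_ge (heabs 0) (heabs 1)
  have f3 := F1_ge (z := -y2) (ε := -e 1) (by rw [abs_neg]; exact hB.hy2) (heabs 1)
  have f4 := F1_ge (z := -y2) (ε := -e 2) (by rw [abs_neg]; exact hB.hy2) (heabs 2)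
  have f5 := F2_ge (heabs 2) (heabs 3)
  have f6 := F1_ge (z := -y1) (ε := -e 3) (by rw [abs_neg]; exact hB.hy1) (heabs 3)
  have n1 : |-y1| ≤ 1 / 16 := by rw [abs_neg]; exact hB.hy1
  have n2 : |-y2| ≤ 1 / 16 := by rw [abs_neg]; exact hB.hy2
  have g1 := F12_ge n1 (heabs 0) (heabs 1)
  have g2 := F12_ge n2 (heabs 1) (heabs 0)
  have g3 := F12_ge n2 (heabs 2) (heabs 3)
  have g4 := F12_ge n1 (heabs 3) (heabs 2)
  rw [F2_comm] at g2 g4
  simp only [Pi.neg_apply] at f1 f2 f3 f4 f5 f6 g1 g2 g3 g4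
  have l1 := E.lA1
  have l2 := E.lA2
  have l3 := E.lA3
  have l4 := E.lB1
  have l5 := E.lB2
  have l6 := E.lB3
  have A0 : AF 0 = T0 := rfl
  have A1 : AF 1 = π - T0 := rfl
  have A2 : AF 2 = π + T0 := rfl
  have A3 : AF 3 = 2 * π - T0 := rfl
  simp only [A0, A1, A2, A3] at l1 l2 l3 l4 l5 l6
  obtain ⟨M, hMat, hH, hd⟩ := hts_of S2 N3 hF hB
    (by linarith [WB.h0, WB.h1'])
    (by
      have := unsc (x := b 2 - b 1 - 2 * T0) (k := 13 / 100) (by norm_num) (by linarith)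
      linarith)
    (by linarith [WB.h2, WB.h3'])
    (by
      have := unsc (x := b 0 + 2 * π - b 3 - 2 * T0) (k := 13 / 100) (by norm_num) (by linarith)
      linarith)
  have L := linF hH E
  rw [XF_eq] at L
  have hV := v_of V hF hB (sq_YF a b)
  have C := core hH hMat L hV
  have C2 := core2 hH hMat L hV
  refine ⟨C, C2.2.1, C2.2.2, ?_⟩
  intro hy
  obtain ⟨x1, x2, x3, x4, x5⟩ := exact_heights hB C hy
  have hM0 : M ≤ 0 := by
    have := C2.1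
    rw [hy, sub_self] at this
    linarith
  have h2 : (0 : ℝ) < √2 := by positivity
  have U1 := E.uA1
  have U2 := E.uA2
  have U3 := E.uA3
  have U4 := E.uB1
  have U5 := E.uB2
  have U6 := E.uB3
  simp only [x1, x2, x4, x5, Pi.zero_apply, neg_zero, F1_zero, F2_zero, A0, A1, A2, A3] at U1 U2 U3 U4 U5 U6 l1 l2 l3 l4 l5 l6
  have key : ∀ x : ℝ, 0 ≤ √2 * x → 0 ≤ x := fun x hx => by
    by_contra hc
    push Not at hc
    nlinarith
  have k1 := key (a 0 - T0) (by linarith)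
  have k2 := key (a 1 - (π - T0) - (a 0 - T0)) (by linarith)
  have k3 := key (c - π - (a 1 - (π - T0))) (by linarith)
  have k4 := key (a 2 - (π + T0) - (c - π)) (by linarith)
  have k5 := key (a 3 - (2 * π - T0) - (a 2 - (π + T0))) (by linarith)
  have k6 := key (-(a 3 - (2 * π - T0))) (by linarith)
  have m1 := key (b 0 - T0) (by linarith)
  have m2 := key (b 1 - (π - T0) - (b 0 - T0)) (by linarith)
  have m3 := key (c - π - (b 1 - (π - T0))) (by linarith)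
  have m4 := key (b 2 - (π + T0) - (c - π)) (by linarith)
  have m5 := key (b 3 - (2 * π - T0) - (b 2 - (π + T0))) (by linarith)
  have m6 := key (-(b 3 - (2 * π - T0))) (by linarith)
  refine ⟨x1, x2, x3, x4, x5, by linarith, ?_, ?_⟩
  · funext k
    fin_cases k
    · show a 0 = T0; linarith
    · show a 1 = π - T0; linarith
    · show a 2 = π + T0; linarith
    · show a 3 = 2 * π - T0; linarith
  · funext k
    fin_cases k
    · show b 0 = T0; linarith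
    · show b 1 = π - T0; linarith
    · show b 2 = π + T0; linarith
    · show b 3 = 2 * π - T0; linarith

end Pool.Agent.Helper54.R1
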