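import Pool.Agent.Helper54.R1.OrdF

set_option autoImplicit false

/-! # Region R1: the HCP order -/

namespace Pool.Agent.Helper54.R1

open Real Pool.Agent.Helper66.Kiss

/-- the scaled edge inequalities -/
lemma edgesH (W1 : W1_stmt) (W2 : W2_stmt) {y1 y2 zs c s : ℝ} {ε e a b : Fin 4 → ℝ}
    (hF : Fz y1 y2 zs c s ε e a b) (hB : Bx y1 y2 zs c ε e a b)
    (ha0 : a 0 ≤ c) (ha1 : c ≤ a 1) (hb0 : b 0 ≤ c) (hb1 : c ≤ b 1) :
    EdgeH y1 y2 ε e (fun k => √2 * (a k - AH k)) (fun k => √2 * (b k - AH k))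
      (√2 * (c - 2 * T0)) := by
  obtain ⟨hy1, hy2, hle, hz0, hz1, hε0, hερ, heρ, c0, c1, a0, a01, a12, a23, a3, b0, b01, b12, b23,
    b3⟩ := hB
  have hpi := Real.pi_pos
  refine ⟨?_, ?_, ?_, ?_, ?_, ?_, ?_, ?_, ?_, ?_, ?_, ?_⟩
  · have := (edge_U W1 hy1 (hε0 0) (hερ 0) (hF.pU 0) (by linarith) (by linarith)).1
    simpa [AH] using this
  · have := (edge_U W1 hy2 (hε0 0) (hερ 0) (by rw [gg_flip]; exact hF.qU 0)
      (by linarith) (by linarith)).1
    simp only [AH]; simp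
    linarith
  · have := (edge_U W1 hy2 (hε0 1) (hερ 1) (hF.qU 1) (by linarith) (by linarith)).1
    simp only [AH]; simp
    linarith
  · have := edge_UU W2 (hε0 1) (hερ 1) (hε0 2) (hερ 2) (hF.UU 1 2 (by decide)) (by linarith)
      (by linarith)
    simp only [AH]; simp
    linarith
  · have := edge_UU W2 (hε0 2) (hερ 2) (hε0 3) (hερ 3) (hF.UU 2 3 (by decide)) (by linarith)
      (by linarith)
    simp only [AH]; simp
    linarith
  · have := (edge_U W1 hy1 (hε0 3) (hερ 3) (hF.pU 3) (by linarith) (by linarith)).2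
    simp only [AH]; simp
    linarith
  · have := (edge_L W1 hy1 (heρ 0) (hF.pL 0) (by linarith) (by linarith)).1
    simpa [AH] using this
  · have := (edge_L W1 hy2 (heρ 0) (by rw [gg_flip]; exact hF.qL 0)
      (by linarith) (by linarith)).1
    simp only [AH]; simp
    linarith
  · have := (edge_L W1 hy2 (heρ 1) (hF.qL 1) (by linarith) (by linarith)).1
    simp only [AH]; simp
    linarith
  · have := edge_LL W2 (heρ 1) (heρ 2) (hF.LL 1 2 (by decide)) (by linarith)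
      (by linarith)
    simp only [AH]; simp
    linarith
  · have := edge_LL W2 (heρ 2) (heρ 3) (hF.LL 2 3 (by decide)) (by linarith)
      (by linarith)
    simp only [AH]; simp
    linarith
  · have := (edge_L W1 hy1 (heρ 3) (hF.pL 3) (by linarith) (by linarith)).2
    simp only [AH]; simp
    linarith

lemma winH {y1 y2 c q : ℝ} {ε a u : Fin 4 → ℝ} (hy1 : |y1| ≤ 1 / 16) (hy2 : |y2| ≤ 1 / 16)
    (hε : ∀ k, |ε k| ≤ 3 / 256) (hu : ∀ k, u k = √2 * (a k - AH k)) (hq : q = √2 * (c - 2 * T0))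
    (e1 : F1 y1 (ε 0) ≤ u 0) (e2 : F1 y2 (ε 0) ≤ q - u 0) (e3 : F1 y2 (ε 1) ≤ u 1 - q)
    (e4 : F2 (ε 1) (ε 2) ≤ u 2 - u 1) (e5 : F2 (ε 2) (ε 3) ≤ u 3 - u 2)
    (e6 : F1 y1 (ε 3) ≤ -u 3) : WinH c a := by
  have f1 := F1_ge hy1 (hε 0)
  have f2 := F1_ge hy2 (hε 0)
  have f3 := F1_ge hy2 (hε 1)
  have f4 := F2_ge (hε 1) (hε 2)
  have f5 := F2_ge (hε 2) (hε 3)
  have f6 := F1_ge hy1 (hε 3)
  have v0 := hu 0
  have v1 := hu 1
  have v2 := hu 2
  have v3 := hu 3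
  simp only [AH] at v0 v1 v2 v3
  simp at v0 v1 v2 v3
  refine ⟨?_, ?_, ?_, ?_, ?_, ?_, ?_, ?_, ?_, ?_, ?_, ?_⟩
  · have := unsc (x := T0 - a 0) (k := 1 / 5) (by norm_num) (by linarith); linarith
  · have := unsc (x := a 0 - T0) (k := 1 / 5) (by norm_num) (by linarith); linarith
  · have := unsc (x := 2 * T0 - c) (k := 1 / 8) (by norm_num) (by linarith); linarith
  · have := unsc (x := c - 2 * T0) (k := 1 / 5) (by norm_num) (by linarith); linarith
  · have := unsc (x := 3 * T0 - a 1) (k := 1 / 5) (by norm_num) (by linarith); linarith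
  · have := unsc (x := a 1 - 3 * T0) (k := 1 / 5) (by norm_num) (by linarith); linarith
  · have := unsc (x := π + T0 - a 2) (k := 1 / 5) (by norm_num) (by linarith); linarith
  · have := unsc (x := a 2 - (π + T0)) (k := 1 / 5) (by norm_num) (by linarith); linarith
  · have := unsc (x := 2 * π - T0 - a 3) (k := 1 / 5) (by norm_num) (by linarith); linarith
  · have := unsc (x := a 3 - (2 * π - T0)) (k := 1 / 5) (by norm_num) (by linarith); linarith
  · have := unsc (x := a 3 - a 0 - (2 * π - 2 * T0)) (k := 1 / 8) (by norm_num) (by linarith)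
    linarith
  · have := unsc (x := 2 * T0 - (a 1 - a 0)) (k := 1 / 8) (by norm_num) (by linarith)
    linarith

lemma hcpAB {d s : ℝ} {e b : Fin 4 → ℝ} (hd : 0 ≤ d)
    (h : ∀ k, e k ≤ -(√3 / 2) * d * cos (s - b k) + d / 60)
    (h1 : |b 2 - π - b 0| ≤ 115 / 1000)
    (h2 : |b 1 - b 0 - 2 * T0| + |b 3 - b 0 - 2 * π + 2 * T0| ≤ 231 / 1000) :
    e 0 + e 2 ≤ 135 / 1000 * d ∧ e 1 + e 3 + 2 / 3 * e 0 ≤ 25 / 100 * d := by
  have h3 : √3 / 2 ≤ 8661 / 10000 := by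
    have : √3 ≤ 17321 / 10000 := by
      rw [show (17321 : ℝ) / 10000 = √((17321 / 10000) ^ 2) by
        rw [Real.sqrt_sq (by norm_num)]]
      exact Real.sqrt_le_sqrt (by norm_num)
    linarith
  have h30 : 0 ≤ √3 / 2 := by positivity
  have hk : 0 ≤ √3 / 2 * d := by positivity
  have hkd : √3 / 2 * d ≤ 8661 / 10000 * d := mul_le_mul_of_nonneg_right h3 hd
  have c0 := h 0
  have c1 := h 1
  have c2 := h 2
  have c3 := h 3
  constructor
  · have e1 : cos (s - b 2) = -cos (s - b 2 + π) := by rw [Real.cos_add_pi, neg_neg]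
    have e2 := Real.abs_cos_sub_cos_le (s - b 2 + π) (s - b 0)
    have e3 : s - b 2 + π - (s - b 0) = -(b 2 - π - b 0) := by ring
    rw [e3, abs_neg] at e2
    have e4 := (abs_le.1 (e2.trans h1)).2
    have e5 := mul_le_mul_of_nonneg_left e4 hk
    rw [e1] at c2
    nlinarith
  · have e1 := cos_three_T0 (s - b 0 + T0)
    have e1' : s - b 0 + T0 - T0 = s - b 0 := by ring
    rw [e1'] at e1
    have a1 := Real.abs_cos_sub_cos_le (s - b 1) (s - b 0 + T0 - 3 * T0)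
    have a1' : s - b 1 - (s - b 0 + T0 - 3 * T0) = -(b 1 - b 0 - 2 * T0) := by ring
    rw [a1', abs_neg] at a1
    have a3 := Real.abs_cos_sub_cos_le (s - b 3 + 2 * π) (s - b 0 + T0 + T0)
    have a3' : s - b 3 + 2 * π - (s - b 0 + T0 + T0) = -(b 3 - b 0 - 2 * π + 2 * T0) := by ring
    rw [a3', abs_neg, Real.cos_add_two_pi] at a3
    have b1 := (abs_le.1 a1).1
    have b3 := (abs_le.1 a3).1
    have b4 : -(231 / 1000) ≤ cos (s - b 1) + cos (s - b 3) + 2 / 3 * cos (s - b 0) := by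
      linarith
    have b5 := mul_le_mul_of_nonneg_left b4 hk
    nlinarith

lemma sq_YH (a b : Fin 4 → ℝ) (k : Fin 4) : YH a b k ^ 2 = 2 * (a k - b k) ^ 2 := by
  have h2 : √2 ^ 2 = (2 : ℝ) := Real.sq_sqrt (by norm_num)
  fin_cases k
  · show (√2 * (a 0 - b 0)) ^ 2 = 2 * (a 0 - b 0) ^ 2
    rw [mul_pow, h2]
  · show (√2 * (b 1 - a 1)) ^ 2 = 2 * (a 1 - b 1) ^ 2
    rw [mul_pow, h2]; ring
  · show (√2 * (b 2 - a 2)) ^ 2 = 2 * (a 2 - b 2) ^ 2
    rw [mul_pow, h2]; ring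
  · show (√2 * (b 3 - a 3)) ^ 2 = 2 * (a 3 - b 3) ^ 2
    rw [mul_pow, h2]; ring

lemma XH_eq (a b : Fin 4 → ℝ) :
    XH (fun k => √2 * (a k - AH k)) (fun k => √2 * (b k - AH k)) = YH a b := by
  funext k
  fin_cases k
  · show √2 * (a 0 - AH 0) - √2 * (b 0 - AH 0) = √2 * (a 0 - b 0)
    ring
  · show √2 * (b 1 - AH 1) - √2 * (a 1 - AH 1) = √2 * (b 1 - a 1)
    ring
  · show √2 * (b 2 - AH 2) - √2 * (a 2 - AH 2) = √2 * (b 2 - a 2)
    ring
  · show √2 * (b 3 - AH 3) - √2 * (a 3 - AH 3) = √2 * (b 3 - a 3)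
    ring

/-- three consecutive edges -/
lemma F122_ge {z ε ε' ε'' : ℝ} (hz : |z| ≤ 1 / 16) (h : |ε| ≤ 3 / 256) (h' : |ε'| ≤ 3 / 256)
    (h'' : |ε''| ≤ 3 / 256) : -(94 / 1000) ≤ F1 z ε + F2 ε ε' + F2 ε' ε'' := by
  have h1 := abs_le.1 hz
  have h2 := abs_le.1 h
  have h4 := abs_le.1 h'
  have h5 := abs_le.1 h''
  have h3 : z ^ 2 ≤ 1 / 256 := by
    have := sq_le_sq' h1.1 h1.2
    norm_num at this ⊢
    exact this
  unfold F1 F2
  linarith

theorem ordH (W1 : W1_stmt) (W2 : W2_stmt) (V : V_stmt) (S2 : S2_stmt) (N3 : NEAR3_stmt)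
    {y1 y2 zs c s : ℝ} {ε e a b : Fin 4 → ℝ}
    (hF : Fz y1 y2 zs c s ε e a b) (hB : Bx y1 y2 zs c ε e a b)
    (ha0 : a 0 ≤ c) (ha1 : c ≤ a 1) (hb0 : b 0 ≤ c) (hb1 : c ≤ b 1) :
    WinH c a ∧ WinH c b ∧ Bnd ((y1 - y2) / 2) y1 y2 (√(1 - zs ^ 2)) ε e (YH a b) ∧
    (∀ k, ε k ≤ 6 * ((y1 - y2) / 2) ^ 2) ∧
    (y1 - y2) / 2 - 4 * ((y1 - y2) / 2) ^ 2 ≤ y1 ∧
    (y1 = y2 → y1 = 0 ∧ y2 = 0 ∧ zs = -1 ∧ ε = 0 ∧ e = 0 ∧ c = 2 * T0 ∧ a = AH ∧ b = AH) := by
  have E := edgesH W1 W2 hF hB ha0 ha1 hb0 hb1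
  have hpi := Real.pi_gt_three
  have hT := T0_lo
  have hT' := T0_hi
  have hεabs : ∀ k, |ε k| ≤ 3 / 256 := fun k => abs_le.2 ⟨by linarith [hB.ε0 k], hB.ερ k⟩
  have heabs : ∀ k, |(-e) k| ≤ 3 / 256 := fun k => by
    simp only [Pi.neg_apply, abs_neg]; exact hB.eρ k
  have WA := winH (a := a) hB.hy1 hB.hy2 hεabs (fun _ => rfl) rfl E.uA1 E.uA2 E.uB1 E.uB2 E.uB3 E.uB4
  have WB := winH (y1 := -y1) (y2 := -y2) (ε := -e) (a := b) (by rw [abs_neg]; exact hB.hy1)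
    (by rw [abs_neg]; exact hB.hy2) heabs
    (fun _ => rfl) rfl E.lA1 E.lA2 E.lB1 E.lB2 E.lB3 E.lB4
  refine ⟨WA, WB, ?_⟩
  -- gaps
  have n1 : |-y1| ≤ 1 / 16 := by rw [abs_neg]; exact hB.hy1
  have n2 : |-y2| ≤ 1 / 16 := by rw [abs_neg]; exact hB.hy2
  have f1 := F1_ge n1 (heabs 0)
  have f2 := F1_ge n2 (heabs 0)
  have f3 := F1_ge n2 (heabs 1)
  have f4 := F2_ge (heabs 1) (heabs 2)
  have f5 := F2_ge (heabs 2) (heabs 3)
  have f6 := F1_ge n1 (heabs 3)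
  have g1 := F12_ge n1 (heabs 3) (heabs 2)
  have g2 := F122_ge n1 (heabs 3) (heabs 2) (heabs 1)
  have g3 := F12_ge n2 (heabs 1) (heabs 2)
  have g4 := F122_ge n2 (heabs 1) (heabs 2) (heabs 3)
  rw [F2_comm ((-e) 3)] at g1
  rw [F2_comm ((-e) 3) ((-e) 2), F2_comm ((-e) 2) ((-e) 1)] at g2
  simp only [Pi.neg_apply] at f1 f2 f3 f4 f5 f6 g1 g2 g3 g4
  have l1 := E.lA1
  have l2 := E.lA2
  have l3 := E.lB1
  have l4 := E.lB2
  have l5 := E.lB3
  have l6 := E.lB4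
  have A0 : AH 0 = T0 := rfl
  have A1 : AH 1 = 3 * T0 := rfl
  have A2 : AH 2 = π + T0 := rfl
  have A3 : AH 3 = 2 * π - T0 := rfl
  simp only [A0, A1, A2, A3] at l1 l2 l3 l4 l5 l6
  obtain ⟨M, hMat, hH, hd⟩ := hts_of S2 N3 hF hB
    (by
      have := unsc (x := b 1 - b 0 - 2 * T0) (k := 13 / 100) (by norm_num) (by linarith)
      linarith)
    (by linarith [WB.h2', WB.h1])
    (by linarith [WB.h2, WB.h3'])
    (by
      have := unsc (x := b 0 + 2 * π - b 3 - 2 * T0) (k := 13 / 100) (by norm_num) (by linarith)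
      linarith)
  have hS3 : ∀ k, e k ≤ -(√3 / 2) * √(1 - zs ^ 2) * cos (s - b k) + √(1 - zs ^ 2) / 60 :=
    fun k => (S2 zs (e k) s (b k) hB.zs0 hB.zs1 (hB.eρ k) (hF.sL k)).2.2 hd
  have hAB := hcpAB hH.d0 hS3
    (by
      have i1 := unsc (x := b 2 - π - b 0) (k := 115 / 1000) (by norm_num) (by linarith)
      have i2 := unsc (x := -(b 2 - π - b 0)) (k := 115 / 1000) (by norm_num) (by linarith)
      exact abs_le.2 ⟨by linarith, by linarith⟩)
    (by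
      have i1 := unsc (x := (b 1 - b 0 - 2 * T0) + (b 3 - b 0 - 2 * π + 2 * T0)) (k := 231 / 1000)
        (by norm_num) (by linarith)
      have i2 := unsc (x := -(b 1 - b 0 - 2 * T0) + -(b 3 - b 0 - 2 * π + 2 * T0)) (k := 231 / 1000)
        (by norm_num) (by linarith)
      have i3 := unsc (x := (b 1 - b 0 - 2 * T0) + -(b 3 - b 0 - 2 * π + 2 * T0)) (k := 231 / 1000)
        (by norm_num) (by linarith)
      have i4 := unsc (x := -(b 1 - b 0 - 2 * T0) + (b 3 - b 0 - 2 * π + 2 * T0)) (k := 231 / 1000)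
        (by norm_num) (by linarith)
      rcases abs_cases (b 1 - b 0 - 2 * T0) with ⟨j1, -⟩ | ⟨j1, -⟩ <;>
      rcases abs_cases (b 3 - b 0 - 2 * π + 2 * T0) with ⟨j2, -⟩ | ⟨j2, -⟩ <;>
      rw [j1, j2] <;> linarith)
  have L := linH hH E hAB.1 hAB.2
  rw [XH_eq] at L
  have hV := v_of V hF hB (sq_YH a b)
  have C := core hH hMat L hV
  have C2 := core2 hH hMat L hV
  refine ⟨C, C2.2.1, C2.2.2, ?_⟩
  intro hy
  obtain ⟨x1, x2, x3, x4, x5⟩ := exact_heights hB C hy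
  have U1 := E.uA1
  have U2 := E.uA2
  have U3 := E.uB1
  have U4 := E.uB2
  have U5 := E.uB3
  have U6 := E.uB4
  simp only [x1, x2, x4, x5, Pi.zero_apply, neg_zero, F1_zero, F2_zero, A0, A1, A2, A3] at U1 U2 U3 U4 U5 U6 l1 l2 l3 l4 l5 l6
  have h2 : (0 : ℝ) < √2 := by positivity
  have key : ∀ x : ℝ, 0 ≤ √2 * x → 0 ≤ x := fun x hx => by
    by_contra hc
    push Not at hc
    nlinarith
  have k1 := key (a 0 - T0) (by linarith)
  have k2 := key (c - 2 * T0 - (a 0 - T0)) (by linarith)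
  have k3 := key (a 1 - 3 * T0 - (c - 2 * T0)) (by linarith)
  have k4 := key (a 2 - (π + T0) - (a 1 - 3 * T0)) (by linarith)
  have k5 := key (a 3 - (2 * π - T0) - (a 2 - (π + T0))) (by linarith)
  have k6 := key (-(a 3 - (2 * π - T0))) (by linarith)
  have m1 := key (b 0 - T0) (by linarith)
  have m2 := key (c - 2 * T0 - (b 0 - T0)) (by linarith)
  have m3 := key (b 1 - 3 * T0 - (c - 2 * T0)) (by linarith)
  have m4 := key (b 2 - (π + T0) - (b 1 - 3 * T0)) (by linarith)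
  have m5 := key (b 3 - (2 * π - T0) - (b 2 - (π + T0))) (by linarith)
  have m6 := key (-(b 3 - (2 * π - T0))) (by linarith)
  refine ⟨x1, x2, x3, x4, x5, by linarith, ?_, ?_⟩
  · funext k
    fin_cases k
    · show a 0 = T0; linarith
    · show a 1 = 3 * T0; linarith
    · show a 2 = π + T0; linarith
    · show a 3 = 2 * π - T0; linarith
  · funext k
    fin_cases k
    · show b 0 = T0; linarith
    · show b 1 = 3 * T0; linarith
    · show b 2 = π + T0; linarith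
    · show b 3 = 2 * π - T0; linarith

end Pool.Agent.Helper54.R1
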