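import Pool.Agent.Helper54.R1.Main

set_option autoImplicit false

/-! # The sum of the five largest heights -/

namespace Pool.Agent.Helper54.R1

open Real Pool.Agent.Helper66.Kiss

lemma pc_nonempty : (Finset.powersetCard 5 (Finset.univ : Finset (Fin 11))).Nonempty :=
  Finset.powersetCard_nonempty.2 (by simp)

/-- sum of the five largest heights -/
noncomputable def Phi5 (z : Fin 11 → ℝ) : ℝ :=
  (Finset.powersetCard 5 (Finset.univ : Finset (Fin 11))).sup' pc_nonempty fun s => ∑ i ∈ s, z i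

lemma continuous_phi5 : Continuous Phi5 := by
  unfold Phi5
  exact Continuous.finset_sup'_apply pc_nonempty fun s _ => by fun_prop

lemma le_phi5 (z : Fin 11 → ℝ) (s : Finset (Fin 11)) (hs : s.card = 5) :
    ∑ i ∈ s, z i ≤ Phi5 z :=
  Finset.le_sup' (fun s => ∑ i ∈ s, z i) (Finset.mem_powersetCard.2 ⟨Finset.subset_univ _, hs⟩)

lemma phi5_eq (z : Fin 11 → ℝ) (s : Finset (Fin 11)) (hs : s.card = 5) (c : ℝ)
    (h1 : ∀ i ∈ s, c ≤ z i) (h2 : ∀ i, i ∉ s → z i ≤ c) : Phi5 z = ∑ i ∈ s, z i := by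
  apply le_antisymm _ (le_phi5 z s hs)
  apply Finset.sup'_le
  intro t ht
  have htc := (Finset.mem_powersetCard.1 ht).2
  have e1 : ∑ i ∈ t, z i = ∑ i ∈ t \ s, z i + ∑ i ∈ t ∩ s, z i := by
    rw [← Finset.sum_union (Finset.disjoint_sdiff_inter t s), Finset.sdiff_union_inter]
  have e2 : ∑ i ∈ s, z i = ∑ i ∈ s \ t, z i + ∑ i ∈ t ∩ s, z i := by
    rw [Finset.inter_comm, ← Finset.sum_union (Finset.disjoint_sdiff_inter s t),
      Finset.sdiff_union_inter]
  have hc : (t \ s).card = (s \ t).card := by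
    have a1 := Finset.card_sdiff_add_card_inter t s
    have a2 := Finset.card_sdiff_add_card_inter s t
    rw [Finset.inter_comm] at a2
    omega
  have e3 : ∑ i ∈ t \ s, z i ≤ ((t \ s).card : ℝ) * c := by
    rw [← nsmul_eq_mul]
    exact Finset.sum_le_card_nsmul _ _ _ fun i hi => h2 i (Finset.mem_sdiff.1 hi).2
  have e4 : ((s \ t).card : ℝ) * c ≤ ∑ i ∈ s \ t, z i := by
    rw [← nsmul_eq_mul]
    exact Finset.card_nsmul_le_sum _ _ _ fun i hi => h1 i (Finset.mem_sdiff.1 hi).1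
  rw [e1, e2, hc] at *
  linarith

lemma phi5_perm (z : Fin 11 → ℝ) (ρ : Equiv.Perm (Fin 11)) : Phi5 (z ∘ ρ) = Phi5 z := by
  apply le_antisymm
  · apply Finset.sup'_le
    intro t ht
    have htc := (Finset.mem_powersetCard.1 ht).2
    have := le_phi5 z (t.map ρ.toEmbedding) (by rw [Finset.card_map]; exact htc)
    rwa [Finset.sum_map] at this
  · apply Finset.sup'_le
    intro t ht
    have htc := (Finset.mem_powersetCard.1 ht).2
    have := le_phi5 (z ∘ ρ) (t.map ρ.symm.toEmbedding) (by rw [Finset.card_map]; exact htc)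
    rw [Finset.sum_map] at this
    simpa using this

lemma iU_injective : Function.Injective iU := fun _ _ h => iU_inj.1 h

theorem phi5_Φeq (ρ : Equiv.Perm (Fin 11)) (z : Fin 11 → ℝ)
    (hU : ∀ k, z (ρ 0) ≤ z (ρ (iU k))) (h5 : z (ρ 5) ≤ z (ρ 0))
    (hL : ∀ k, z (ρ (iL k)) ≤ z (ρ 0)) (h10 : z (ρ 10) ≤ z (ρ 0)) :
    Phi5 z = z (ρ 0) + ∑ k, z (ρ (iU k)) := by
  rw [← phi5_perm z ρ]
  have hs : (insert 0 (Finset.univ.map ⟨iU, iU_injective⟩) : Finset (Fin 11)).card = 5 := by decide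
  rw [phi5_eq (z ∘ ρ) _ hs (z (ρ 0))]
  · rw [Finset.sum_insert (by decide), Finset.sum_map]; rfl
  · intro i hi
    rw [Finset.mem_insert, Finset.mem_map] at hi
    rcases hi with rfl | ⟨k, -, rfl⟩
    · exact le_rfl
    · exact hU k
  · intro i hi
    rw [Finset.mem_insert, Finset.mem_map] at hi
    push Not at hi
    rcases cases11 1 1 i with rfl | rfl | rfl | ⟨k, rfl⟩ | ⟨k, rfl⟩
    · exact absurd rfl hi.1
    · exact h5
    · exact h10
    · exact absurd rfl (hi.2 k (Finset.mem_univ k))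
    · exact hL k

theorem adm_phi5 {c : ℝ} (hc : c < -3 / 4) (α : ℝ) :
    Adm {z | z 10 ≤ c ∧ α ≤ Phi5 z} Phi5 where
  Φeq := phi5_Φeq
  Rst := by
    intro k z z' hz hk hkk h1 h2 _ hle
    refine ⟨?_, hz.2.trans hle⟩
    by_cases h : (10 : Fin 11) = k
    · rw [h, hkk, ← h]; exact hz.1
    · have := h1 10 h
      have := hz.1
      exfalso; linarith

end Pool.Agent.Helper54.R1
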