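import Pool.Agent.Helper54.R1.OrdH

set_option autoImplicit false

/-! # Region R1: reflection and classification of the orders -/

namespace Pool.Agent.Helper54.R1

open Real Pool.Agent.Helper66.Kiss

lemma gg_congr {z w a b a' b' : ℝ} (h : cos (a' - b') = cos (a - b)) :
    gg z w a' b' = gg z w a b := by unfold gg; rw [h]

lemma DG.congr {z w a b a' b' v v' p q p' q' : ℝ} (hc : cos (a' - b') = cos (a - b))
    (hs : sin (a' - b') * (p' - q') = sin (a - b) * (p - q)) (h : DG z w a b v v' p q) :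
    DG z w a' b' v v' p' q' := by
  intro hg
  rw [gg_congr hc] at hg
  have := h hg
  rw [mul_assoc] at this ⊢
  rw [hs]; exact this

/-- heights reversed -/
def rv (f : Fin 4 → ℝ) : Fin 4 → ℝ := fun k => f k.rev

lemma rv_rv (f : Fin 4 → ℝ) : rv (rv f) = f := by
  funext k; simp [rv]

/-- longitudes reflected and reversed -/
noncomputable def rl (f : Fin 4 → ℝ) : Fin 4 → ℝ := fun k => 2 * π - f k.rev

lemma cos_r1 (x : ℝ) : cos (0 - (2 * π - x)) = cos (0 - x) := by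
  rw [show 0 - (2 * π - x) = x - 2 * π by ring, Real.cos_sub_two_pi, zero_sub, cos_neg]

lemma cos_r2 (x y : ℝ) : cos (2 * π - x - (2 * π - y)) = cos (x - y) := by
  rw [show 2 * π - x - (2 * π - y) = -(x - y) by ring, cos_neg]

lemma cos_r3 (x y : ℝ) : cos (-x - (2 * π - y)) = cos (x - y) := by
  rw [show -x - (2 * π - y) = -(x - y) - 2 * π by ring, Real.cos_sub_two_pi, cos_neg]

lemma cos_r3' (x y : ℝ) : cos (2 * π - x - -y) = cos (x - y) := by
  rw [show 2 * π - x - -y = -(x - y) + 2 * π by ring, Real.cos_add_two_pi, cos_neg]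

lemma cos_r4 (x : ℝ) : cos (0 - -x) = cos (0 - x) := by
  rw [show 0 - -x = -(0 - x) by ring, cos_neg]

lemma sin_r1 (x : ℝ) : sin (0 - (2 * π - x)) = -sin (0 - x) := by
  rw [show 0 - (2 * π - x) = x - 2 * π by ring, Real.sin_sub_two_pi, zero_sub, sin_neg, neg_neg]

lemma sin_r2 (x y : ℝ) : sin (2 * π - x - (2 * π - y)) = -sin (x - y) := by
  rw [show 2 * π - x - (2 * π - y) = -(x - y) by ring, sin_neg]

lemma sin_r3 (x y : ℝ) : sin (-x - (2 * π - y)) = -sin (x - y) := by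
  rw [show -x - (2 * π - y) = -(x - y) - 2 * π by ring, Real.sin_sub_two_pi, sin_neg]

lemma sin_r3' (x y : ℝ) : sin (2 * π - x - -y) = -sin (x - y) := by
  rw [show 2 * π - x - -y = -(x - y) + 2 * π by ring, Real.sin_add_two_pi, sin_neg]

lemma rev_ne {j k : Fin 4} (h : j ≠ k) : j.rev ≠ k.rev := fun h' => h (Fin.rev_injective h')

lemma Fz.refl {y1 y2 zs c s : ℝ} {ε e a b : Fin 4 → ℝ} (h : Fz y1 y2 zs c s ε e a b) :
    Fz y1 y2 zs (2 * π - c) (-s) (rv ε) (rv e) (rl a) (rl b) := by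
  refine ⟨?_, ?_, ?_, ?_, ?_, ?_, ?_, ?_, ?_, ?_, ?_, ?_⟩
  · rw [gg_congr (cos_r1 c)]; exact h.pq
  · rw [gg_congr (cos_r4 s)]; exact h.ps
  · rw [gg_congr (cos_r3' c s)]; exact h.qs
  · intro k; unfold rv rl; rw [gg_congr (cos_r1 _)]; exact h.pU _
  · intro k; unfold rv rl; rw [gg_congr (cos_r2 _ _)]; exact h.qU _
  · intro k; unfold rv rl; rw [gg_congr (cos_r3 _ _)]; exact h.sU _
  · intro k; unfold rv rl; rw [gg_congr (cos_r1 _)]; exact h.pL _
  · intro k; unfold rv rl; rw [gg_congr (cos_r2 _ _)]; exact h.qL _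
  · intro k; unfold rv rl; rw [gg_congr (cos_r3 _ _)]; exact h.sL _
  · intro j k hjk; unfold rv rl; rw [gg_congr (cos_r2 _ _)]; exact h.UU _ _ (rev_ne hjk)
  · intro j k hjk; unfold rv rl; rw [gg_congr (cos_r2 _ _)]; exact h.LL _ _ (rev_ne hjk)
  · intro j k; unfold rv rl; rw [gg_congr (cos_r2 _ _)]; exact h.UL _ _

lemma Bx.refl {y1 y2 zs c : ℝ} {ε e a b : Fin 4 → ℝ} (h : Bx y1 y2 zs c ε e a b) :
    Bx y1 y2 zs (2 * π - c) (rv ε) (rv e) (rl a) (rl b) := by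
  obtain ⟨hy1, hy2, hle, hz0, hz1, hε0, hερ, heρ, c0, c1, a0, a01, a12, a23, a3, b0, b01, b12, b23,
    b3⟩ := h
  have r0 : (0 : Fin 4).rev = 3 := rfl
  have r1 : (1 : Fin 4).rev = 2 := rfl
  have r2 : (2 : Fin 4).rev = 1 := rfl
  have r3 : (3 : Fin 4).rev = 0 := rfl
  refine ⟨hy1, hy2, hle, hz0, hz1, fun _ => hε0 _, fun _ => hερ _, fun _ => heρ _, by linarith,
    by linarith, ?_, ?_, ?_, ?_, ?_, ?_, ?_, ?_, ?_, ?_⟩ <;> simp only [rl, r0, r1, r2, r3] <;>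
    linarith

lemma Dr.refl {y y1 y2 zs c s : ℝ} {ε e a b P Q : Fin 4 → ℝ}
    (h : Dr y y1 y2 zs (2 * π - c) (-s) (rv ε) (rv e) (rl a) (rl b) P Q) :
    Dr y y1 y2 zs c s ε e a b (fun k => -rv P k) (fun k => -rv Q k) := by
  have hr : ∀ k : Fin 4, k.rev.rev = k := Fin.rev_rev
  refine ⟨?_, ?_, ?_, ?_, ?_, ?_, ?_, ?_, ?_, ?_, ?_, ?_⟩
  · exact h.pq.congr (cos_r1 c).symm (by ring)
  · exact h.ps.congr (cos_r4 s).symm (by ring)
  · exact h.qs.congr (cos_r3' c s).symm (by ring)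
  · intro k
    have := h.pU k.rev
    simp only [rv, rl, hr] at this ⊢
    exact this.congr (cos_r1 _).symm (by rw [sin_r1]; ring)
  · intro k
    have := h.qU k.rev
    simp only [rv, rl, hr] at this ⊢
    exact this.congr (cos_r2 _ _).symm (by rw [sin_r2]; ring)
  · intro k
    have := h.sU k.rev
    simp only [rv, rl, hr] at this ⊢
    exact this.congr (cos_r3 _ _).symm (by rw [sin_r3]; ring)
  · intro k
    have := h.pL k.rev
    simp only [rv, rl, hr] at this ⊢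
    exact this.congr (cos_r1 _).symm (by rw [sin_r1]; ring)
  · intro k
    have := h.qL k.rev
    simp only [rv, rl, hr] at this ⊢
    exact this.congr (cos_r2 _ _).symm (by rw [sin_r2]; ring)
  · intro k
    have := h.sL k.rev
    simp only [rv, rl, hr] at this ⊢
    exact this.congr (cos_r3 _ _).symm (by rw [sin_r3]; ring)
  · intro j k hjk
    have := h.UU j.rev k.rev (rev_ne hjk)
    simp only [rv, rl, hr] at this ⊢
    exact this.congr (cos_r2 _ _).symm (by rw [sin_r2]; ring)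
  · intro j k hjk
    have := h.LL j.rev k.rev (rev_ne hjk)
    simp only [rv, rl, hr] at this ⊢
    exact this.congr (cos_r2 _ _).symm (by rw [sin_r2]; ring)
  · intro j k
    have := h.UL j.rev k.rev
    simp only [rv, rl, hr] at this ⊢
    exact this.congr (cos_r2 _ _).symm (by rw [sin_r2]; ring)

lemma unsc' {x k F : ℝ} (hF : -(7 / 5 * k) ≤ F) (hk : 0 ≤ k) (h : F ≤ √2 * x) : -k ≤ x := by
  have := unsc (x := -x) hk (by linarith)
  linarith

lemma c_ge {y1 y2 x : ℝ} (h1 : |y1| ≤ 1 / 16) (h2 : |y2| ≤ 1 / 16) (h0 : 0 ≤ x)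
    (h : √(1 - y1 ^ 2) * √(1 - y2 ^ 2) * cos x + y1 * y2 ≤ 1 / 2) : 9 / 10 ≤ x := by
  by_contra hc
  push Not at hc
  have a1 := abs_le.1 h1
  have a2 := abs_le.1 h2
  have q1 : y1 ^ 2 ≤ 1 / 256 := by nlinarith
  have q2 : y2 ^ 2 ≤ 1 / 256 := by nlinarith
  have s1 : 255 / 256 ≤ √(1 - y1 ^ 2) := Real.le_sqrt_of_sq_le (by nlinarith)
  have s2 : 255 / 256 ≤ √(1 - y2 ^ 2) := Real.le_sqrt_of_sq_le (by nlinarith)
  have s3 : 255 / 256 * (255 / 256) ≤ √(1 - y1 ^ 2) * √(1 - y2 ^ 2) :=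
    mul_le_mul s1 s2 (by norm_num) (by positivity)
  have c1 : 59 / 100 ≤ cos x := by
    have := Real.one_sub_sq_div_two_le_cos (x := x)
    nlinarith
  have c2 : 255 / 256 * (255 / 256) * (59 / 100) ≤ √(1 - y1 ^ 2) * √(1 - y2 ^ 2) * cos x :=
    mul_le_mul s3 c1 (by norm_num) (by positivity)
  have m : -(1 / 256) ≤ y1 * y2 := by nlinarith
  norm_num at c2
  linarith

/-- the three possible orders -/
theorem cls (W1 : W1_stmt) (W2 : W2_stmt) {y1 y2 zs c s : ℝ} {ε e a b : Fin 4 → ℝ}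
    (hF : Fz y1 y2 zs c s ε e a b) (hB : Bx y1 y2 zs c ε e a b) :
    (a 1 ≤ c ∧ c ≤ a 2 ∧ b 1 ≤ c ∧ c ≤ b 2) ∨ (a 0 ≤ c ∧ c ≤ a 1 ∧ b 0 ≤ c ∧ c ≤ b 1) ∨
    (a 2 ≤ c ∧ c ≤ a 3 ∧ b 2 ≤ c ∧ c ≤ b 3) := by
  obtain ⟨hy1, hy2, hle, hz0, hz1, hε0, hερ, heρ, c0, c1, a0, a01, a12, a23, a3, b0, b01, b12, b23,
    b3⟩ := hB
  have hpi := Real.pi_gt_three
  have hT := T0_lo
  have hT' := T0_hi
  have hεabs : ∀ k, |ε k| ≤ 3 / 256 := fun k => abs_le.2 ⟨by linarith [hε0 k], hερ k⟩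
  have hn : ∀ k, |-e k| ≤ 3 / 256 := fun k => by rw [abs_neg]; exact heρ k
  have n1 : |-y1| ≤ 1 / 16 := by rw [abs_neg]; exact hy1
  have n2 : |-y2| ≤ 1 / 16 := by rw [abs_neg]; exact hy2
  have d0 : 9 / 10 ≤ c := by
    apply c_ge hy1 hy2 c0
    have := hF.pq
    unfold gg at this
    rw [zero_sub, cos_neg] at this; exact this
  have d1 : 9 / 10 ≤ 2 * π - c := by
    apply c_ge hy1 hy2 (by linarith)
    have := hF.pq
    unfold gg at this
    rw [zero_sub, cos_neg] at this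
    rw [Real.cos_two_pi_sub]; exact this
  -- p and the U
  have pA := unsc' (by have := F1_ge hy1 (hεabs 0); linarith) (by norm_num : (0 : ℝ) ≤ 1 / 16)
    (edge_U W1 hy1 (hε0 0) (hερ 0) (hF.pU 0) (by linarith) (by linarith)).1
  have pB := unsc' (by have := F1_ge hy1 (hεabs 3); linarith) (by norm_num : (0 : ℝ) ≤ 1 / 16)
    (edge_U W1 hy1 (hε0 3) (hερ 3) (hF.pU 3) (by linarith) (by linarith)).2
  have u01 := unsc' (by have := F2_ge (hεabs 0) (hεabs 1); linarith)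
    (by norm_num : (0 : ℝ) ≤ 1 / 80)
    (edge_UU W2 (hε0 0) (hερ 0) (hε0 1) (hερ 1) (hF.UU 0 1 (by decide)) (by linarith)
      (by linarith))
  have u12 := unsc' (by have := F2_ge (hεabs 1) (hεabs 2); linarith)
    (by norm_num : (0 : ℝ) ≤ 1 / 80)
    (edge_UU W2 (hε0 1) (hερ 1) (hε0 2) (hερ 2) (hF.UU 1 2 (by decide)) (by linarith)
      (by linarith))
  have u23 := unsc' (by have := F2_ge (hεabs 2) (hεabs 3); linarith)
    (by norm_num : (0 : ℝ) ≤ 1 / 80)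
    (edge_UU W2 (hε0 2) (hερ 2) (hε0 3) (hερ 3) (hF.UU 2 3 (by decide)) (by linarith)
      (by linarith))
  -- q before or after a U
  have qb : ∀ k, a k ≤ c → -(1 / 16) ≤ c - a k - T0 := fun k hk =>
    unsc' (by have := F1_ge hy2 (hεabs k); linarith) (by norm_num : (0 : ℝ) ≤ 1 / 16)
    (edge_U W1 hy2 (hε0 k) (hερ k) (by rw [gg_flip]; exact hF.qU k) (by linarith)
      (by fin_cases k <;> simp at * <;> linarith)).1
  have qa : ∀ k, c ≤ a k → -(1 / 16) ≤ a k - c - T0 := fun k hk =>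
    unsc' (by have := F1_ge hy2 (hεabs k); linarith) (by norm_num : (0 : ℝ) ≤ 1 / 16)
    (edge_U W1 hy2 (hε0 k) (hερ k) (hF.qU k) (by linarith)
      (by fin_cases k <;> simp at * <;> linarith)).1
  -- L
  have pA' := unsc' (by have := F1_ge n1 (hn 0); linarith) (by norm_num : (0 : ℝ) ≤ 1 / 16)
    (edge_L W1 hy1 (heρ 0) (hF.pL 0) (by linarith) (by linarith)).1
  have pB' := unsc' (by have := F1_ge n1 (hn 3); linarith) (by norm_num : (0 : ℝ) ≤ 1 / 16)
    (edge_L W1 hy1 (heρ 3) (hF.pL 3) (by linarith) (by linarith)).2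
  have l01 := unsc' (by have := F2_ge (hn 0) (hn 1); linarith)
    (by norm_num : (0 : ℝ) ≤ 1 / 80)
    (edge_LL W2 (heρ 0) (heρ 1) (hF.LL 0 1 (by decide)) (by linarith) (by linarith))
  have l12 := unsc' (by have := F2_ge (hn 1) (hn 2); linarith)
    (by norm_num : (0 : ℝ) ≤ 1 / 80)
    (edge_LL W2 (heρ 1) (heρ 2) (hF.LL 1 2 (by decide)) (by linarith) (by linarith))
  have l23 := unsc' (by have := F2_ge (hn 2) (hn 3); linarith)
    (by norm_num : (0 : ℝ) ≤ 1 / 80)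
    (edge_LL W2 (heρ 2) (heρ 3) (hF.LL 2 3 (by decide)) (by linarith) (by linarith))
  have qb' : ∀ k, b k ≤ c → -(1 / 16) ≤ c - b k - T0 := fun k hk =>
    unsc' (by have := F1_ge n2 (hn k); linarith) (by norm_num : (0 : ℝ) ≤ 1 / 16)
    (edge_L W1 hy2 (heρ k) (by rw [gg_flip]; exact hF.qL k) (by linarith)
      (by fin_cases k <;> simp at * <;> linarith)).1
  have qa' : ∀ k, c ≤ b k → -(1 / 16) ≤ b k - c - T0 := fun k hk =>
    unsc' (by have := F1_ge n2 (hn k); linarith) (by norm_num : (0 : ℝ) ≤ 1 / 16)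
    (edge_L W1 hy2 (heρ k) (hF.qL k) (by linarith)
      (by fin_cases k <;> simp at * <;> linarith)).1
  -- position of c among the U
  have hU : (a 0 ≤ c ∧ c ≤ a 1 ∧ 2 * T0 - 1 / 8 ≤ c ∧ c ≤ 2 * T0 + 3 / 20) ∨
      (a 1 ≤ c ∧ c ≤ a 2 ∧ π - 7 / 50 ≤ c ∧ c ≤ π + 7 / 50) ∨
      (a 2 ≤ c ∧ c ≤ a 3 ∧ 2 * π - 2 * T0 - 3 / 20 ≤ c ∧ c ≤ 2 * π - 2 * T0 + 1 / 8) := by
    rcases le_total c (a 0) with h | h
    · exfalso
      have := qa 0 h
      linarith
    rcases le_total c (a 1) with h' | h'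
    · left
      have g1 := qb 0 h
      have g2 := qa 1 h'
      exact ⟨h, h', by linarith, by linarith⟩
    rcases le_total c (a 2) with h2 | h2
    · right; left
      have g1 := qb 1 h'
      have g2 := qa 2 h2
      exact ⟨h', h2, by linarith, by linarith⟩
    rcases le_total c (a 3) with h3 | h3
    · right; right
      have g1 := qb 2 h2
      have g2 := qa 3 h3
      exact ⟨h2, h3, by linarith, by linarith⟩
    · exfalso
      have := qb 3 h3
      linarith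
  have hL : (b 0 ≤ c ∧ c ≤ b 1 ∧ 2 * T0 - 1 / 8 ≤ c ∧ c ≤ 2 * T0 + 3 / 20) ∨
      (b 1 ≤ c ∧ c ≤ b 2 ∧ π - 7 / 50 ≤ c ∧ c ≤ π + 7 / 50) ∨
      (b 2 ≤ c ∧ c ≤ b 3 ∧ 2 * π - 2 * T0 - 3 / 20 ≤ c ∧ c ≤ 2 * π - 2 * T0 + 1 / 8) := by
    rcases le_total c (b 0) with h | h
    · exfalso
      have := qa' 0 h
      linarith
    rcases le_total c (b 1) with h' | h'
    · left
      have g1 := qb' 0 h
      have g2 := qa' 1 h'
      exact ⟨h, h', by linarith, by linarith⟩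
    rcases le_total c (b 2) with h2 | h2
    · right; left
      have g1 := qb' 1 h'
      have g2 := qa' 2 h2
      exact ⟨h', h2, by linarith, by linarith⟩
    rcases le_total c (b 3) with h3 | h3
    · right; right
      have g1 := qb' 2 h2
      have g2 := qa' 3 h3
      exact ⟨h2, h3, by linarith, by linarith⟩
    · exfalso
      have := qb' 3 h3
      linarith
  rcases hU with ⟨x1, x2, x3, x4⟩ | ⟨x1, x2, x3, x4⟩ | ⟨x1, x2, x3, x4⟩ <;>
  rcases hL with ⟨y1, y2, y3, y4⟩ | ⟨y1, y2, y3, y4⟩ | ⟨y1, y2, y3, y4⟩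
  · right; left; exact ⟨x1, x2, y1, y2⟩
  · exfalso; linarith
  · exfalso; linarith
  · exfalso; linarith
  · left; exact ⟨x1, x2, y1, y2⟩
  · exfalso; linarith
  · exfalso; linarith
  · exfalso; linarith
  · right; right; exact ⟨x1, x2, y1, y2⟩

end Pool.Agent.Helper54.R1
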